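import Pool.Agent.X111.FL.Area

set_option autoImplicit false
set_option linter.unusedSectionVars false

/-! Moments of homogeneous functionals of zeta near the critical line: the theorem. -/

namespace Pool.Agent.X111.FL

open MeasureTheory ProbabilityTheory Filter Topology
open Pool.Agent.Y755
open Pool.Agent.Y753.NL
open Pool.Agent.Y753.SHR
open Pool.Agent.H306R2 (aF aF_pos)
open Pool.Agent.X111.JD (zc zc_norm zc_cont)

/-- the limit field -/
noncomputable def fi (k : ℝ) (ω : ℕ → ℝ × ℝ) (z : ℂ) : ℂ := (1 + z / 2) ^ (-(k : ℂ)) * Complex.exp (gf ω (z / (z + 2)))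

lemma fi_line {n : ℕ} (k : ℝ) (h : Fin n → ℝ) (ω : ℕ → ℝ × ℝ) (j : Fin n) : fi k ω (Complex.I * h j) = Complex.exp (lgv k h ω j) := by
  unfold fi lgv Lg Wm
  rw [Complex.cpow_def_of_ne_zero (one_add_ne _), ← Complex.exp_add]
  congr 1
  ring

lemma wd_norm {z : ℂ} (hz : -1 < z.re) : ‖z / (z + 2)‖ < 1 := by
  have h1 : z + 2 ≠ 0 := by
    intro h
    have := congrArg Complex.re h
    simp at this
    linarith
  rw [norm_div, div_lt_one (norm_pos_iff.mpr h1)]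
  rw [← sq_lt_sq₀ (norm_nonneg _) (norm_nonneg _), ← Complex.normSq_eq_norm_sq, ← Complex.normSq_eq_norm_sq, Complex.normSq_apply,
    Complex.normSq_apply]
  simp
  nlinarith

lemma re_D2 {H : ℝ} {z : ℂ} (hz : z ∈ D2 H) : -(3 / 4) ≤ z.re := (abs_le.mp (mem_D2.mp hz).1).1

lemma D2_rad {H : ℝ} (hH : 0 ≤ H) : ∃ r : ℝ, 0 ≤ r ∧ r < 1 ∧ ∀ z ∈ D2 H, ‖z / (z + 2)‖ ≤ r := by
  have hne : (D2 H).Nonempty := ⟨0, by rw [mem_D2]; simp; constructor <;> linarith⟩
  have hc : ContinuousOn (fun z : ℂ => ‖z / (z + 2)‖) (D2 H) := by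
    refine ContinuousOn.norm (continuousOn_id.div (by fun_prop) fun z hz h => ?_)
    have := congrArg Complex.re h
    have h2 := re_D2 hz
    simp at this
    linarith
  obtain ⟨z0, hz0, hmax⟩ := (D2_compact H).exists_isMaxOn hne hc
  refine ⟨‖z0 / (z0 + 2)‖, norm_nonneg _, wd_norm (by linarith [re_D2 hz0]), fun z hz => hmax hz⟩

lemma fi_diff (k : ℝ) {ω : ℕ → ℝ × ℝ} (hω : Gd ω) {H : ℝ} : DifferentiableOn ℂ (fi k ω) (D2 H) := by
  intro z hz
  have h1 := re_D2 hz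
  have h2 : DifferentiableAt ℂ (fun z : ℂ => (1 + z / 2) ^ (-(k : ℂ))) z := by
    refine DifferentiableAt.cpow (by fun_prop) (by fun_prop) (Or.inl ?_)
    simp
    linarith
  have h3 : DifferentiableAt ℂ (fun z : ℂ => z / (z + 2)) z := by
    refine differentiableAt_id.div (by fun_prop) ?_
    intro h
    have := congrArg Complex.re h
    simp at this
    linarith
  have h4 : DifferentiableAt ℂ (gf ω) (z / (z + 2)) := by
    refine (gf_diff hω).differentiableAt (Metric.isOpen_ball.mem_nhds ?_)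
    rw [mem_ball_zero_iff]
    exact wd_norm (by linarith)
  exact (h2.mul (h4.comp z h3).cexp).differentiableWithinAt

lemma fi_norm {k : ℝ} (hk : 0 < k) {ω : ℕ → ℝ × ℝ} (hω : Gd ω) {H r : ℝ} (hr0 : 0 ≤ r) (hr1 : r < 1) (hr : ∀ z ∈ D2 H, ‖z / (z + 2)‖ ≤ r)
    {z : ℂ} (hz : z ∈ D2 H) : ‖fi k ω z‖ ≤ (5 / 8) ^ (-k) * Real.exp (mj r ω) := by
  unfold fi
  rw [norm_mul]
  have h1 := re_D2 hz
  refine mul_le_mul ?_ ?_ (norm_nonneg _) (by positivity)
  · have e1 : (-(k : ℂ)) = ((-k : ℝ) : ℂ) := by push_cast; rfl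
    rw [e1, Complex.norm_cpow_real]
    refine Real.rpow_le_rpow_of_nonpos (by norm_num) ?_ (by linarith)
    have h2 := Complex.re_le_norm (1 + z / 2)
    refine le_trans ?_ h2
    simp
    linarith
  · rw [Complex.norm_exp]
    exact Real.exp_le_exp.mpr ((Complex.re_le_norm _).trans (gf_norm hω hr0 hr1 (hr z hz)))

/-- approximable functionals -/
def Apx (k H : ℝ) (Φ : (ℂ → ℂ) → ℝ) : Prop := ∀ ε : ℝ, 0 < ε → ∃ (n : ℕ) (h : Fin n → ℝ) (F : (Fin n → ℂ) → ℝ),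
  Continuous F ∧ (∀ (c : ℂ) (v : Fin n → ℂ), F (fun j => c * v j) = ‖c‖ ^ (2 * k) * F v) ∧
  ∀ (f : ℂ → ℂ) (S : ℝ), DifferentiableOn ℂ f (D1 H) → (∀ z ∈ D1 H, ‖f z‖ ≤ S) →
    |Φ f - F (fun j => f (Complex.I * h j))| ≤ ε * S ^ (2 * k)

section

variable {k H : ℝ} {Φ : (ℂ → ℂ) → ℝ}

/-- the limit is integrable -/
lemma Phi_int (hk : 0 < k) (hH : 0 ≤ H) (hΦ : Apx k H Φ) : Integrable (fun ω => Φ (fi k ω)) PG ∧
    ∃ M : ℝ, 0 ≤ M ∧ ∀ ε : ℝ, ∀ (n : ℕ) (h : Fin n → ℝ) (F : (Fin n → ℂ) → ℝ), Continuous F →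
      (∀ (c : ℂ) (v : Fin n → ℂ), F (fun j => c * v j) = ‖c‖ ^ (2 * k) * F v) →
      (∀ (f : ℂ → ℂ) (S : ℝ), DifferentiableOn ℂ f (D1 H) → (∀ z ∈ D1 H, ‖f z‖ ≤ S) → |Φ f - F (fun j => f (Complex.I * h j))| ≤ ε * S ^ (2 * k)) →
      |∫ ω, F (fun j => Complex.exp (lgv k h ω j)) ∂PG - ∫ ω, Φ (fi k ω) ∂PG| ≤ ε * M := by
  obtain ⟨r, hr0, hr1, hr⟩ := D2_rad hH
  obtain ⟨G, hG⟩ : ∃ G : (ℕ → ℝ × ℝ) → ℝ, G = fun ω => ((5 / 8) ^ (-k) * Real.exp (mj r ω)) ^ (2 * k) := ⟨_, rfl⟩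
  have hGi : Integrable G PG := by
    refine ((mj_exp hr0 hr1 (2 * k)).const_mul (((5 / 8 : ℝ) ^ (-k)) ^ (2 * k))).congr (Eventually.of_forall fun ω => ?_)
    rw [hG]
    simp only
    rw [Real.mul_rpow (by positivity) (Real.exp_pos _).le, ← Real.exp_mul]
    congr 2
    ring
  have hG0 : ∀ ω, 0 ≤ G ω := fun ω => by rw [hG]; positivity
  have key : ∀ ε : ℝ, ∀ (n : ℕ) (h : Fin n → ℝ) (F : (Fin n → ℂ) → ℝ),
      (∀ (f : ℂ → ℂ) (S : ℝ), DifferentiableOn ℂ f (D1 H) → (∀ z ∈ D1 H, ‖f z‖ ≤ S) → |Φ f - F (fun j => f (Complex.I * h j))| ≤ ε * S ^ (2 * k)) →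
      ∀ ω, Gd ω → |Φ (fi k ω) - F (fun j => Complex.exp (lgv k h ω j))| ≤ ε * G ω := by
    intro ε n h F hF ω hω
    have h1 := hF (fi k ω) ((5 / 8) ^ (-k) * Real.exp (mj r ω)) ((fi_diff k hω).mono (D1_D2 H)) fun z hz => fi_norm hk hω hr0 hr1 hr (D1_D2 H hz)
    simp_rw [fi_line] at h1
    rw [hG]
    exact h1
  have hi : Integrable (fun ω => Φ (fi k ω)) PG := by
    choose n h F hFc hFh hFa using fun m : ℕ => hΦ (1 / ((m : ℝ) + 1)) (by positivity)
    have hmeas : AEStronglyMeasurable (fun ω => Φ (fi k ω)) PG := by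
      refine aestronglyMeasurable_of_tendsto_ae atTop (f := fun m ω => F m (fun j => Complex.exp (lgv k (h m) ω j))) (fun m => ?_) ?_
      · obtain ⟨C, hC0, hC⟩ := hom_bd hk (hFc m) (hFh m)
        obtain ⟨g, -, -, hg⟩ := lim_int hk (h m) (hFc m) hC0 hC
        exact hg
      · filter_upwards [Gd_ae] with ω hω
        rw [tendsto_iff_norm_sub_tendsto_zero]
        have h1 : Tendsto (fun m : ℕ => 1 / ((m : ℝ) + 1) * G ω) atTop (𝓝 0) := by
          have := (tendsto_one_div_add_atTop_nhds_zero_nat (𝕜 := ℝ)).mul_const (G ω)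
          rwa [zero_mul] at this
        refine squeeze_zero (fun _ => norm_nonneg _) (fun m => ?_) h1
        rw [norm_sub_rev, Real.norm_eq_abs]
        exact key _ _ _ _ (hFa m) ω hω
    obtain ⟨C, hC0, hC⟩ := hom_bd hk (hFc 0) (hFh 0)
    obtain ⟨g, hg1, hg2, -⟩ := lim_int hk (h 0) (hFc 0) hC0 hC
    refine (hg1.add (hGi.const_mul (1 / (((0 : ℕ) : ℝ) + 1)))).mono hmeas ?_
    filter_upwards [Gd_ae, hg2] with ω hω h2
    have h3 := key _ _ _ _ (hFa 0) ω hω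
    refine le_trans ?_ (le_abs_self _)
    rw [Pi.add_apply, Real.norm_eq_abs]
    have h4 := abs_sub_abs_le_abs_sub (Φ (fi k ω)) (F 0 fun j => Complex.exp (lgv k (h 0) ω j))
    linarith
  refine ⟨hi, ∫ ω, G ω ∂PG, integral_nonneg hG0, fun ε n h F hFc hFh hFa => ?_⟩
  obtain ⟨C, hC0, hC⟩ := hom_bd hk hFc hFh
  obtain ⟨g, hg1, hg2, hg3⟩ := lim_int hk h hFc hC0 hC
  have hFi : Integrable (fun ω => F (fun j => Complex.exp (lgv k h ω j))) PG :=
    hg1.mono hg3 (by filter_upwards [hg2] with ω h2; exact h2.trans (le_abs_self _))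
  rw [← integral_sub hFi hi, ← integral_const_mul, ← Real.norm_eq_abs]
  refine norm_integral_le_of_norm_le (hGi.const_mul ε) ?_
  filter_upwards [Gd_ae] with ω hω
  rw [norm_sub_rev, Real.norm_eq_abs]
  exact key _ _ _ _ hFa ω hω

/-- **Homogeneous functionals of zeta near the critical line.** -/
theorem main (hk : 0 < k) (hk2 : k ≤ 2) {δ : ℝ → ℝ} (hδ : Tendsto δ atTop (𝓝 0))
    (hδL : Tendsto (fun T => δ T * Real.log T) atTop atTop) (hH : 0 ≤ H) (hΦ : Apx k H Φ) :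
    Tendsto (fun T => (2 * δ T) ^ (k ^ 2) / T * ∫ t in Set.Icc 0 T, Φ (jf (δ T) t)) atTop (𝓝 (aF k * ∫ ω, Φ (fi k ω) ∂PG)) := by
  obtain ⟨-, M, hM0, hM⟩ := Phi_int hk hH hΦ
  obtain ⟨C, hC0, hC⟩ := Ar_mean hk hk2 hδ hδL hH
  have ha := aF_pos hk
  have hpi := Real.pi_pos
  refine three_eps fun ε hε => ?_
  obtain ⟨η, hη⟩ : ∃ η : ℝ, η = ε / (2 * (16 / Real.pi * C + aF k * M + 1)) := ⟨_, rfl⟩
  have hden : 0 < 16 / Real.pi * C + aF k * M + 1 := by positivity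
  have hη0 : 0 < η := by rw [hη]; positivity
  have hη1 : η * (16 / Real.pi * C + aF k * M + 1) = ε / 2 := by
    rw [hη]
    field_simp
  obtain ⟨n, h, F, hFc, hFh, hFa⟩ := hΦ η hη0
  refine ⟨_, fun _ => η * (16 / Real.pi * C), _, η * (16 / Real.pi * C), homog hk hk2 hδ hδL h hFc hFh, tendsto_const_nhds, ?_, ?_, ?_⟩
  · have h1 : 0 ≤ η * (aF k * M) := by positivity
    nlinarith
  · rw [← mul_sub, abs_mul, abs_of_pos ha]
    have h1 := hM η n h F hFc hFh hFa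
    have h2 : aF k * |∫ ω, F (fun j => Complex.exp (lgv k h ω j)) ∂PG - ∫ ω, Φ (fi k ω) ∂PG| ≤ aF k * (η * M) := mul_le_mul_of_nonneg_left h1 ha.le
    have h3 : 0 ≤ η * (16 / Real.pi * C) := by positivity
    nlinarith
  · choose nn' hh FF hFFc hFFh hFFa using fun m : ℕ => hΦ (1 / ((m : ℝ) + 1)) (by positivity)
    filter_upwards [hC, pos_path hδL, hδ.eventually (gt_mem_nhds (show (0:ℝ) < 1 / 4 by norm_num)), eventually_gt_atTop 0] with T hCT hd hd2 hT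
    obtain ⟨c, hc⟩ : ∃ c : ℝ, c = (2 * δ T) ^ (k ^ 2) / T := ⟨_, rfl⟩
    have hc0 : 0 ≤ c := by rw [hc]; positivity
    rw [← hc] at hCT ⊢
    have hS0 : ∀ t, 0 ≤ 16 / Real.pi * Ar k H (δ T) t := fun t => mul_nonneg (by positivity) (Ar_nonneg _ _ _ _)
    have key : ∀ (ε' : ℝ) (n' : ℕ) (h' : Fin n' → ℝ) (F' : (Fin n' → ℂ) → ℝ),
        (∀ (f : ℂ → ℂ) (S : ℝ), DifferentiableOn ℂ f (D1 H) → (∀ z ∈ D1 H, ‖f z‖ ≤ S) → |Φ f - F' (fun j => f (Complex.I * h' j))| ≤ ε' * S ^ (2 * k)) →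
        ∀ t, |Φ (jf (δ T) t) - F' (fun j => zc (δ T) (h' j) t)| ≤ ε' * (16 / Real.pi * Ar k H (δ T) t) := by
      intro ε' n' h' F' hF' t
      have h1 := hF' (jf (δ T) t) ((16 / Real.pi * Ar k H (δ T) t) ^ (2 * k)⁻¹) (jf_diff hd hd2 H t (D1_D2 H)) fun z hz => by
        have h2 := sup_le hk hd hd2 H t hz
        have h3 := Real.rpow_le_rpow (Real.rpow_nonneg (norm_nonneg _) _) h2 (show 0 ≤ (2 * k)⁻¹ by positivity)
        rwa [← Real.rpow_mul (norm_nonneg _), mul_inv_cancel₀ (by positivity), Real.rpow_one] at h3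
      rw [← Real.rpow_mul (hS0 t), inv_mul_cancel₀ (by positivity), Real.rpow_one] at h1
      simp_rw [jf_line] at h1
      exact h1
    have hd3 : δ T < 1 / 2 := by linarith
    have cF : ∀ (n' : ℕ) (h' : Fin n' → ℝ) (F' : (Fin n' → ℂ) → ℝ), Continuous F' → Continuous fun t => F' (fun j => zc (δ T) (h' j) t) :=
      fun n' h' F' hF' => hF'.comp (continuous_pi fun j => zc_cont hd3 (h' j))
    have hmeas : AEStronglyMeasurable (fun t => Φ (jf (δ T) t)) (volume.restrict (Set.Icc 0 T)) := by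
      refine aestronglyMeasurable_of_tendsto_ae atTop (f := fun m t => FF m (fun j => zc (δ T) (hh m j) t)) (fun m => ?_) (Eventually.of_forall fun t => ?_)
      · exact (cF _ _ _ (hFFc m)).aestronglyMeasurable
      · rw [tendsto_iff_norm_sub_tendsto_zero]
        have h1 : Tendsto (fun m : ℕ => 1 / ((m : ℝ) + 1) * (16 / Real.pi * Ar k H (δ T) t)) atTop (𝓝 0) := by
          have := (tendsto_one_div_add_atTop_nhds_zero_nat (𝕜 := ℝ)).mul_const (16 / Real.pi * Ar k H (δ T) t)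
          rwa [zero_mul] at this
        refine squeeze_zero (fun _ => norm_nonneg _) (fun m => ?_) h1
        rw [norm_sub_rev, Real.norm_eq_abs]
        exact key _ _ _ _ (hFFa m) t
    have iF : IntegrableOn (fun t => F (fun j => zc (δ T) (h j) t)) (Set.Icc 0 T) := (cF _ _ _ hFc).continuousOn.integrableOn_compact isCompact_Icc
    have iA : IntegrableOn (fun t => η * (16 / Real.pi * Ar k H (δ T) t)) (Set.Icc 0 T) := (hCT.1.const_mul _).const_mul _
    have iΦ : IntegrableOn (fun t => Φ (jf (δ T) t)) (Set.Icc 0 T) := by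
      refine (iF.norm.add iA).mono hmeas (Eventually.of_forall fun t => ?_)
      refine le_trans ?_ (le_abs_self _)
      rw [Pi.add_apply, Real.norm_eq_abs, Real.norm_eq_abs]
      have h3 := key _ _ _ _ hFa t
      have h4 := abs_sub_abs_le_abs_sub (Φ (jf (δ T) t)) (F fun j => zc (δ T) (h j) t)
      linarith
    rw [← mul_sub, ← integral_sub iΦ iF, abs_mul, abs_of_nonneg hc0]
    have h5 : |∫ t in Set.Icc 0 T, (Φ (jf (δ T) t) - F (fun j => zc (δ T) (h j) t))| ≤ ∫ t in Set.Icc 0 T, η * (16 / Real.pi * Ar k H (δ T) t) := by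
      rw [← Real.norm_eq_abs]
      refine norm_integral_le_of_norm_le iA (Eventually.of_forall fun t => ?_)
      rw [Real.norm_eq_abs]
      exact key _ _ _ _ hFa t
    rw [integral_const_mul, integral_const_mul] at h5
    calc c * |∫ t in Set.Icc 0 T, (Φ (jf (δ T) t) - F (fun j => zc (δ T) (h j) t))| ≤ c * (η * (16 / Real.pi * ∫ t in Set.Icc 0 T, Ar k H (δ T) t)) :=
          mul_le_mul_of_nonneg_left h5 hc0
      _ = η * (16 / Real.pi * (c * ∫ t in Set.Icc 0 T, Ar k H (δ T) t)) := by ring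
      _ ≤ η * (16 / Real.pi * C) := by
          refine mul_le_mul_of_nonneg_left (mul_le_mul_of_nonneg_left hCT.2 (by positivity)) hη0.le

end

end Pool.Agent.X111.FL
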