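import Pool.Agent.X111.FL.Lin

set_option autoImplicit false
set_option linter.unusedSectionVars false

/-! Derivatives are approximable: moments of homogeneous functions of jets of zeta near the critical line. -/

namespace Pool.Agent.X111.FL

open MeasureTheory ProbabilityTheory Filter Topology
open Pool.Agent.Y755
open Pool.Agent.Y753.NL
open Pool.Agent.Y753.SHR
open Pool.Agent.H306R2 (aF aF_pos)

lemma an_D1 {H : ℝ} {f : ℂ → ℂ} (hf : DifferentiableOn ℂ f (D1 H)) (j : ℕ) : AnalyticOnNhd ℂ (iteratedDeriv j f) (D1 H) := by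
  rw [iteratedDeriv_eq_iterate]
  exact (hf.analyticOnNhd (D1_open H)).iterated_deriv j

/-- the second difference -/
lemma two_diff {H : ℝ} {f : ℂ → ℂ} (hf : DifferentiableOn ℂ f (D1 H)) {S : ℝ} (hS : ∀ z ∈ D1 H, ‖f z‖ ≤ S) {z0 : ℂ} {ρ : ℝ} (hρ : 0 < ρ)
    (hb : Metric.closedBall z0 (2 * ρ) ⊆ D1 H) (j : ℕ) {w : ℂ} (hw : ‖w‖ ≤ ρ) :
    ‖iteratedDeriv j f (z0 + w) - iteratedDeriv j f z0 - w * iteratedDeriv (j + 1) f z0‖ ≤ ((j + 2).factorial * S / ρ ^ (j + 2)) * ‖w‖ ^ 2 := by
  obtain ⟨C, hC⟩ : ∃ C : ℝ, C = (j + 2).factorial * S / ρ ^ (j + 2) := ⟨_, rfl⟩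
  rw [← hC]
  have hsub : Metric.closedBall z0 ‖w‖ ⊆ Metric.closedBall z0 ρ := Metric.closedBall_subset_closedBall hw
  have hin : Metric.closedBall z0 ρ ⊆ D1 H := (Metric.closedBall_subset_closedBall (by linarith)).trans hb
  have hest : ∀ z ∈ Metric.closedBall z0 ρ, ‖iteratedDeriv (j + 2) f z‖ ≤ C := by
    intro z hz
    have h1 : Metric.closedBall z ρ ⊆ D1 H := by
      refine Set.Subset.trans (fun y hy => ?_) hb
      rw [Metric.mem_closedBall] at hy hz ⊢
      linarith [dist_triangle y z z0]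
    have h2 := Complex.norm_iteratedDeriv_le_of_forall_mem_sphere_norm_le (n := j + 2) hρ (hf.diffContOnCl_ball h1)
      (fun y hy => hS y (h1 (Metric.sphere_subset_closedBall hy)))
    rw [hC]
    exact h2
  have hC0 : 0 ≤ C := (norm_nonneg _).trans (hest z0 (Metric.mem_closedBall_self hρ.le))
  have hder : ∀ i : ℕ, ∀ z ∈ D1 H, HasDerivAt (iteratedDeriv i f) (iteratedDeriv (i + 1) f z) z := by
    intro i z hz
    have h1 := ((an_D1 hf i) z hz).differentiableAt.hasDerivAt
    rwa [← iteratedDeriv_succ] at h1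
  have hconv : Convex ℝ (Metric.closedBall z0 ‖w‖) := convex_closedBall _ _
  have h0m : z0 ∈ Metric.closedBall z0 ‖w‖ := Metric.mem_closedBall_self (norm_nonneg _)
  have hwm : z0 + w ∈ Metric.closedBall z0 ‖w‖ := by
    rw [Metric.mem_closedBall, dist_eq_norm, add_sub_cancel_left]
  -- the first derivative
  have h1 : ∀ z ∈ Metric.closedBall z0 ‖w‖, ‖iteratedDeriv (j + 1) f z - iteratedDeriv (j + 1) f z0‖ ≤ C * ‖w‖ := by
    intro z hz
    have h2 := hconv.norm_image_sub_le_of_norm_hasDerivWithin_le (f := iteratedDeriv (j + 1) f) (f' := iteratedDeriv (j + 2) f) (C := C)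
      (fun y hy => (hder (j + 1) y (hin (hsub hy))).hasDerivWithinAt) (fun y hy => hest y (hsub hy)) h0m hz
    refine h2.trans (mul_le_mul_of_nonneg_left ?_ hC0)
    rwa [Metric.mem_closedBall, dist_eq_norm] at hz
  have h3 := hconv.norm_image_sub_le_of_norm_hasDerivWithin_le (f := fun z => iteratedDeriv j f z - z * iteratedDeriv (j + 1) f z0)
    (f' := fun z => iteratedDeriv (j + 1) f z - iteratedDeriv (j + 1) f z0) (C := C * ‖w‖)
    (fun y hy => by
      have h4 := ((hder j y (hin (hsub hy))).sub ((hasDerivAt_id y).mul_const (iteratedDeriv (j + 1) f z0))).hasDerivWithinAt (s := Metric.closedBall z0 ‖w‖)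
      simp only [one_mul] at h4
      exact h4) h1 h0m hwm
  have e1 : iteratedDeriv j f (z0 + w) - iteratedDeriv j f z0 - w * iteratedDeriv (j + 1) f z0 =
      (iteratedDeriv j f (z0 + w) - (z0 + w) * iteratedDeriv (j + 1) f z0) - (iteratedDeriv j f z0 - z0 * iteratedDeriv (j + 1) f z0) := by ring
  rw [e1]
  refine h3.trans (le_of_eq ?_)
  rw [add_sub_cancel_left]
  ring

/-- derivatives are approximable -/
theorem LA_jet {H : ℝ} (j : ℕ) : ∀ a : ℝ, |a| < H + 1 → LA H (fun f => iteratedDeriv j f (Complex.I * a)) := by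
  induction j with
  | zero =>
    intro a ha
    simp_rw [iteratedDeriv_zero]
    exact LA_eval ha
  | succ j ih =>
    intro a ha
    obtain ⟨ρ, hρ, hb⟩ : ∃ ρ : ℝ, 0 < ρ ∧ Metric.closedBall (Complex.I * a) (2 * ρ) ⊆ D1 H := by
      have h1 : D1 H ∈ 𝓝 (Complex.I * (a : ℂ)) := (D1_open H).mem_nhds ⟨by simp, by simpa using ha⟩
      obtain ⟨r, hr, hr2⟩ := Metric.nhds_basis_closedBall.mem_iff.mp h1
      exact ⟨r / 2, by positivity, by rw [mul_div_cancel₀ r two_ne_zero]; exact hr2⟩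
    refine LA_lim fun ε hε => ?_
    obtain ⟨Q, hQ⟩ : ∃ Q : ℝ, Q = (j + 2).factorial / ρ ^ (j + 2) := ⟨_, rfl⟩
    have hQ0 : 0 < Q := by rw [hQ]; positivity
    obtain ⟨η, hη⟩ : ∃ η : ℝ, η = min ρ (min (ε / Q) ((H + 1 - |a|) / 2)) := ⟨_, rfl⟩
    have hη0 : 0 < η := by
      rw [hη]
      exact lt_min hρ (lt_min (by positivity) (by linarith))
    have hη1 : η ≤ ρ := by rw [hη]; exact min_le_left _ _
    have hη2 : η ≤ ε / Q := by rw [hη]; exact (min_le_right _ _).trans (min_le_left _ _)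
    have hη3 : η ≤ (H + 1 - |a|) / 2 := by rw [hη]; exact (min_le_right _ _).trans (min_le_right _ _)
    have ha2 : |a + η| < H + 1 := by
      refine lt_of_le_of_lt (abs_add_le _ _) ?_
      rw [abs_of_pos hη0]
      linarith
    have hIη : Complex.I * (η : ℂ) ≠ 0 := mul_ne_zero Complex.I_ne_zero (by exact_mod_cast hη0.ne')
    refine ⟨fun f => (Complex.I * (η : ℂ))⁻¹ * iteratedDeriv j f (Complex.I * ((a + η : ℝ) : ℂ)) + -(Complex.I * (η : ℂ))⁻¹ * iteratedDeriv j f (Complex.I * a),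
      LA_add (LA_smul (ih _ ha2) _) (LA_smul (ih _ ha) _), fun f S hf hS => ?_⟩
    have h1 := two_diff hf hS hρ hb j (w := Complex.I * η) (by
      rw [norm_mul, Complex.norm_I, one_mul, Complex.norm_real, Real.norm_of_nonneg hη0.le]
      exact hη1)
    have hwn : ‖Complex.I * (η : ℂ)‖ = η := by
      rw [norm_mul, Complex.norm_I, one_mul, Complex.norm_real, Real.norm_of_nonneg hη0.le]
    have e1 : iteratedDeriv (j + 1) f (Complex.I * a) - ((Complex.I * (η : ℂ))⁻¹ * iteratedDeriv j f (Complex.I * ((a + η : ℝ) : ℂ)) +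
        -(Complex.I * (η : ℂ))⁻¹ * iteratedDeriv j f (Complex.I * a)) =
        -((Complex.I * (η : ℂ))⁻¹ * (iteratedDeriv j f (Complex.I * a + Complex.I * η) - iteratedDeriv j f (Complex.I * a) -
          Complex.I * η * iteratedDeriv (j + 1) f (Complex.I * a))) := by
      have e2 : Complex.I * ((a + η : ℝ) : ℂ) = Complex.I * a + Complex.I * η := by push_cast; ring
      rw [e2]
      have e3 := inv_mul_cancel₀ hIη
      linear_combination (-iteratedDeriv (j + 1) f (Complex.I * a)) * e3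
    rw [e1, norm_neg, norm_mul, norm_inv, hwn]
    rw [hwn] at h1
    have hS0 : 0 ≤ S := (norm_nonneg _).trans (hS _ (hb (Metric.mem_closedBall_self (by positivity))))
    calc η⁻¹ * _ ≤ η⁻¹ * (((j + 2).factorial * S / ρ ^ (j + 2)) * η ^ 2) := mul_le_mul_of_nonneg_left h1 (by positivity)
      _ = η * Q * S := by rw [hQ]; field_simp
      _ ≤ ε * S := by
          refine mul_le_mul_of_nonneg_right ?_ hS0
          rw [le_div_iff₀ hQ0] at hη2
          exact hη2

/-- derivatives of a function in a scaled variable -/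
lemma iter_affine (g : ℂ → ℂ) (b c : ℂ) (j : ℕ) : ∀ z : ℂ, iteratedDeriv j (fun z => g (b + c * z)) z = c ^ j * iteratedDeriv j g (b + c * z) := by
  induction j with
  | zero =>
    intro z
    simp
  | succ j ih =>
    intro z
    rw [iteratedDeriv_succ]
    have h1 : iteratedDeriv j (fun z => g (b + c * z)) = fun z => c ^ j * iteratedDeriv j g (b + c * z) := funext ih
    rw [h1, deriv_const_mul_field]
    have h2 : (fun z => iteratedDeriv j g (b + c * z)) = fun z => (fun y => iteratedDeriv j g (b + y)) (c * z) := rfl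
    rw [h2, deriv_comp_mul_left c (fun y => iteratedDeriv j g (b + y)) z, deriv_comp_const_add, ← iteratedDeriv_succ, smul_eq_mul, pow_succ]
    ring

lemma jf_iter (δ t a : ℝ) (j : ℕ) : iteratedDeriv j (jf δ t) (Complex.I * a) =
    (δ : ℂ) ^ j * iteratedDeriv j riemannZeta (1 / 2 + δ + ((t + a * δ : ℝ) : ℂ) * Complex.I) := by
  unfold jf
  rw [iter_affine riemannZeta (1 / 2 + δ + t * Complex.I) δ j]
  congr 2
  push_cast
  ring

/-- **Moments of homogeneous functions of jets.** -/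
theorem jets {k : ℝ} (hk : 0 < k) (hk2 : k ≤ 2) {δ : ℝ → ℝ} (hδ : Tendsto δ atTop (𝓝 0))
    (hδL : Tendsto (fun T => δ T * Real.log T) atTop atTop) {m : ℕ} (a : Fin m → ℝ) (j : Fin m → ℕ) {F : (Fin m → ℂ) → ℝ} (hF : Continuous F)
    (hom : ∀ (c : ℂ) (v : Fin m → ℂ), F (fun i => c * v i) = ‖c‖ ^ (2 * k) * F v) :
    Tendsto (fun T => (2 * δ T) ^ (k ^ 2) / T * ∫ t in Set.Icc 0 T,
      F (fun i => (δ T : ℂ) ^ (j i) * iteratedDeriv (j i) riemannZeta (1 / 2 + δ T + ((t + a i * δ T : ℝ) : ℂ) * Complex.I))) atTop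
      (𝓝 (aF k * ∫ ω, F (fun i => iteratedDeriv (j i) (fi k ω) (Complex.I * a i)) ∂PG)) := by
  have hH : 0 ≤ ∑ i, |a i| := Finset.sum_nonneg fun i _ => abs_nonneg _
  have ha : ∀ i, |a i| < (∑ i, |a i|) + 1 := by
    intro i
    have h0 : |a i| ≤ ∑ i, |a i| := Finset.single_le_sum (f := fun i => |a i|) (fun i _ => abs_nonneg _) (Finset.mem_univ i)
    linarith
  have h1 := main hk hk2 hδ hδL hH (Apx_lin hH (fun i => LA_jet (j i) (a i) (ha i)) hF hom)
  simp_rw [jf_iter] at h1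
  exact h1

end Pool.Agent.X111.FL
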