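import Pool.Agent.X111.FL.Jet

set_option autoImplicit false
set_option linter.unusedSectionVars false

/-! The joint moments of zeta and its first derivative of real orders. -/

namespace Pool.Agent.X111.FL

open MeasureTheory ProbabilityTheory Filter Topology Asymptotics
open Pool.Agent.Y755
open Pool.Agent.Y753.NL
open Pool.Agent.Y753.SHR
open Pool.Agent.H306R2 (aF aF_pos)
open Pool.Agent.X111.JD (ga nn nn_cont nn_int)

lemma gf_zero (ω : ℕ → ℝ × ℝ) : gf ω 0 = 0 := by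
  unfold gf
  simp

lemma gf_sq {ω : ℕ → ℝ × ℝ} (hω : Gd ω) {w : ℂ} (hw : ‖w‖ ≤ 1 / 2) : ‖gf ω w - w * nn (ω 0)‖ ≤ 4 * mj (1 / 2) ω * ‖w‖ ^ 2 := by
  have hs := gf_summable hω (w := w) (by linarith)
  have hm := Gd_sum hω (r := 1 / 2) (by norm_num) (by norm_num)
  have e1 : gf ω w - w * nn (ω 0) = ∑' n : ℕ, nn (ω (n + 1)) * (w ^ (n + 1 + 1) / (Real.sqrt (((n + 1 : ℕ) : ℝ) + 1) : ℂ)) := by
    unfold gf
    rw [hs.tsum_eq_zero_add]
    simp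
    ring
  rw [e1]
  have hm2 : Summable fun n : ℕ => 4 * ‖w‖ ^ 2 * ((1 / 2 : ℝ) ^ (n + 1 + 1) * ‖nn (ω (n + 1))‖) :=
    ((summable_nat_add_iff 1).mpr hm).mul_left _
  refine (tsum_of_norm_bounded hm2.hasSum fun n => ?_).trans ?_
  · have h1 := coef_norm (w := w) (r := ‖w‖) le_rfl (n + 1)
    rw [norm_mul, mul_comm]
    have h2 : ‖w‖ ^ (n + 1 + 1) ≤ 4 * ‖w‖ ^ 2 * (1 / 2 : ℝ) ^ (n + 1 + 1) := by
      have h3 : ‖w‖ ^ n ≤ (1 / 2 : ℝ) ^ n := pow_le_pow_left₀ (norm_nonneg _) hw n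
      have h4 : 0 ≤ ‖w‖ ^ 2 := by positivity
      calc ‖w‖ ^ (n + 1 + 1) = ‖w‖ ^ 2 * ‖w‖ ^ n := by ring
        _ ≤ ‖w‖ ^ 2 * (1 / 2 : ℝ) ^ n := mul_le_mul_of_nonneg_left h3 h4
        _ = 4 * ‖w‖ ^ 2 * (1 / 2 : ℝ) ^ (n + 1 + 1) := by ring
    rw [← mul_assoc]
    exact mul_le_mul_of_nonneg_right (h1.trans h2) (norm_nonneg _)
  · rw [tsum_mul_left]
    have h5 : ∑' n : ℕ, ((1 / 2 : ℝ) ^ (n + 1 + 1) * ‖nn (ω (n + 1))‖) ≤ mj (1 / 2) ω := by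
      unfold mj
      rw [hm.tsum_eq_zero_add]
      have : 0 ≤ (1 / 2 : ℝ) ^ (0 + 1) * ‖nn (ω 0)‖ := by positivity
      linarith
    calc 4 * ‖w‖ ^ 2 * ∑' n : ℕ, ((1 / 2 : ℝ) ^ (n + 1 + 1) * ‖nn (ω (n + 1))‖) ≤ 4 * ‖w‖ ^ 2 * mj (1 / 2) ω := mul_le_mul_of_nonneg_left h5 (by positivity)
      _ = 4 * mj (1 / 2) ω * ‖w‖ ^ 2 := by ring

lemma gf_deriv {ω : ℕ → ℝ × ℝ} (hω : Gd ω) : HasDerivAt (gf ω) (nn (ω 0)) 0 := by
  rw [hasDerivAt_iff_isLittleO_nhds_zero]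
  have h1 : (fun h : ℂ => gf ω (0 + h) - gf ω 0 - h • nn (ω 0)) =O[𝓝 0] fun h => h ^ 2 := by
    refine IsBigO.of_bound (4 * mj (1 / 2) ω) ?_
    filter_upwards [Metric.closedBall_mem_nhds (0:ℂ) (show (0:ℝ) < 1 / 2 by norm_num)] with w hw
    rw [mem_closedBall_zero_iff] at hw
    rw [zero_add, gf_zero, sub_zero, smul_eq_mul, norm_pow]
    exact gf_sq hω hw
  refine h1.trans_isLittleO ?_
  exact isLittleO_pow_id one_lt_two

lemma fi_zero (k : ℝ) (ω : ℕ → ℝ × ℝ) : fi k ω 0 = 1 := by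
  unfold fi
  simp [gf_zero]

lemma fi_deriv (k : ℝ) {ω : ℕ → ℝ × ℝ} (hω : Gd ω) : HasDerivAt (fi k ω) ((nn (ω 0) - k) / 2) 0 := by
  have h1 : HasDerivAt (fun z : ℂ => z / (z + 2)) (1 / 2) 0 := by
    have := (hasDerivAt_id (0:ℂ)).div ((hasDerivAt_id (0:ℂ)).add_const 2) (by simp)
    refine this.congr_deriv ?_
    simp
    norm_num
  have h2 : HasDerivAt (fun z : ℂ => gf ω (z / (z + 2))) (nn (ω 0) * (1 / 2)) 0 := by
    have h3 : HasDerivAt (gf ω) (nn (ω 0)) ((0:ℂ) / (0 + 2)) := by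
      rw [zero_div]
      exact gf_deriv hω
    exact h3.comp (0:ℂ) h1
  have h4 : HasDerivAt (fun z : ℂ => (1 + z / 2) ^ (-(k : ℂ))) (-(k : ℂ) / 2) 0 := by
    have h5 : HasDerivAt (fun z : ℂ => 1 + z / 2) (1 / 2) 0 := ((hasDerivAt_id (0:ℂ)).div_const 2).const_add 1
    have h6 := h5.cpow_const (c := -(k : ℂ)) (by simp)
    refine h6.congr_deriv ?_
    simp
    ring
  have h7 := h4.mul h2.cexp
  refine h7.congr_deriv ?_
  simp [gf_zero]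
  ring

/-- **The joint moments of zeta and its derivative.** -/
theorem one {k : ℝ} (hk : 0 < k) (hk2 : k ≤ 2) {δ : ℝ → ℝ} (hδ : Tendsto δ atTop (𝓝 0))
    (hδL : Tendsto (fun T => δ T * Real.log T) atTop atTop) {m : ℝ} (hm0 : 0 ≤ m) (hmk : m ≤ k) :
    Tendsto (fun T => (2 * δ T) ^ (k ^ 2 + 2 * m) / T * ∫ t in Set.Icc 0 T,
      ‖riemannZeta (1 / 2 + δ T + t * Complex.I)‖ ^ (2 * k - 2 * m) * ‖deriv riemannZeta (1 / 2 + δ T + t * Complex.I)‖ ^ (2 * m)) atTop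
      (𝓝 (aF k * ∫ p : ℝ × ℝ, ((p.1 - k) ^ 2 + p.2 ^ 2) ^ m ∂(ga.prod ga))) := by
  obtain ⟨F, hF⟩ : ∃ F : (Fin 2 → ℂ) → ℝ, F = fun v => ‖v 0‖ ^ (2 * k - 2 * m) * (2 * ‖v 1‖) ^ (2 * m) := ⟨_, rfl⟩
  have hFc : Continuous F := by
    rw [hF]
    refine Continuous.mul ?_ ?_
    · exact (continuous_apply 0).norm.rpow_const fun _ => Or.inr (by linarith)
    · exact (continuous_const.mul (continuous_apply 1).norm).rpow_const fun _ => Or.inr (by linarith)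
  have hFh : ∀ (c : ℂ) (v : Fin 2 → ℂ), F (fun i => c * v i) = ‖c‖ ^ (2 * k) * F v := by
    intro c v
    rw [hF]
    simp only [norm_mul]
    have e1 : ‖c‖ ^ (2 * k) = ‖c‖ ^ (2 * k - 2 * m) * ‖c‖ ^ (2 * m) := by
      rw [← Real.rpow_add_of_nonneg (norm_nonneg _) (by linarith) (by linarith)]
      congr 1
      ring
    have e2 : 2 * (‖c‖ * ‖v 1‖) = ‖c‖ * (2 * ‖v 1‖) := by ring
    rw [e1, e2, Real.mul_rpow (norm_nonneg _) (norm_nonneg _), Real.mul_rpow (norm_nonneg c) (by positivity)]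
    ring
  have h1 := jets hk hk2 hδ hδL (fun _ : Fin 2 => (0:ℝ)) (fun i : Fin 2 => (i : ℕ)) hFc hFh
  have hlim : ∫ ω, F (fun i => iteratedDeriv ((fun i : Fin 2 => (i : ℕ)) i) (fi k ω) (Complex.I * ((fun _ : Fin 2 => (0:ℝ)) i : ℝ))) ∂PG =
      ∫ p : ℝ × ℝ, ((p.1 - k) ^ 2 + p.2 ^ 2) ^ m ∂(ga.prod ga) := by
    have hc : Continuous fun p : ℝ × ℝ => ((p.1 - k) ^ 2 + p.2 ^ 2) ^ m := by
      refine Continuous.rpow_const (by fun_prop) fun _ => Or.inr hm0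
    rw [← PG_eval 0, integral_map (measurable_pi_apply 0).aemeasurable hc.aestronglyMeasurable]
    refine integral_congr_ae ?_
    filter_upwards [Gd_ae] with ω hω
    rw [hF]
    simp only [Fin.val_zero, Fin.val_one, iteratedDeriv_zero, iteratedDeriv_one, Complex.ofReal_zero, mul_zero, fi_zero, norm_one, Real.one_rpow, one_mul]
    rw [(fi_deriv k hω).deriv, norm_div, Complex.norm_ofNat, mul_div_cancel₀ _ two_ne_zero]
    have e2 : ‖nn (ω 0) - k‖ ^ 2 = ((ω 0).1 - k) ^ 2 + (ω 0).2 ^ 2 := by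
      rw [← Complex.normSq_eq_norm_sq, Complex.normSq_apply]
      unfold nn
      simp
      ring
    rw [← e2, Real.rpow_mul (norm_nonneg _), Real.rpow_two]
  rw [hlim] at h1
  refine h1.congr' ?_
  filter_upwards [pos_path hδL] with T hd
  have e3 : (2 * δ T) ^ (k ^ 2 + 2 * m) = (2 * δ T) ^ (k ^ 2) * (2 * δ T) ^ (2 * m) := Real.rpow_add (by positivity) _ _
  rw [e3, mul_div_right_comm, mul_assoc, ← integral_const_mul ((2 * δ T) ^ (2 * m))]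
  congr 1
  refine integral_congr_ae (Eventually.of_forall fun t => ?_)
  rw [hF]
  simp only [Fin.val_zero, Fin.val_one, iteratedDeriv_zero, iteratedDeriv_one, pow_zero, one_mul, pow_one, zero_mul, add_zero]
  rw [norm_mul, Complex.norm_real, Real.norm_of_nonneg hd.le, ← mul_assoc, Real.mul_rpow (by positivity) (norm_nonneg _)]
  ring

end Pool.Agent.X111.FL
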