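import Pool.Agent.X111.FL.Hom
import Pool.Agent.H402R2.SubMean

set_option autoImplicit false
set_option linter.unusedSectionVars false

/-! Local suprema near the critical line are bounded by area integrals. -/

namespace Pool.Agent.X111.FL

open MeasureTheory ProbabilityTheory Filter Topology
open Pool.Agent.Y755
open Pool.Agent.Y753.NL
open Pool.Agent.Y753.SHR
open Pool.Agent.X111.JD (zc zc_norm zc_cont)
open Pool.Agent.X111.DM (unif_up)

/-- zeta near a point of the line, in the scale `δ` -/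
noncomputable def jf (δ t : ℝ) (z : ℂ) : ℂ := riemannZeta (1 / 2 + δ + t * Complex.I + δ * z)

lemma jf_line (δ t a : ℝ) : jf δ t (Complex.I * a) = zc δ a t := by
  unfold jf zc
  congr 1
  push_cast
  ring

/-- the open box -/
def D1 (H : ℝ) : Set ℂ := {z | |z.re| < 1 / 2 ∧ |z.im| < H + 1}

/-- the closed box -/
def D2 (H : ℝ) : Set ℂ := Set.Icc (-(3/4 : ℝ)) (3/4) ×ℂ Set.Icc (-(H + 2)) (H + 2)

lemma D1_open (H : ℝ) : IsOpen (D1 H) := by
  have h1 : IsOpen {z : ℂ | |z.re| < 1 / 2} := isOpen_lt (continuous_abs.comp Complex.continuous_re) continuous_const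
  have h2 : IsOpen {z : ℂ | |z.im| < H + 1} := isOpen_lt (continuous_abs.comp Complex.continuous_im) continuous_const
  exact h1.inter h2

lemma D2_compact (H : ℝ) : IsCompact (D2 H) := isCompact_Icc.reProdIm isCompact_Icc

lemma mem_D2 {H : ℝ} {z : ℂ} : z ∈ D2 H ↔ |z.re| ≤ 3 / 4 ∧ |z.im| ≤ H + 2 := by
  unfold D2
  rw [Complex.mem_reProdIm, Set.mem_Icc, Set.mem_Icc, abs_le, abs_le]

lemma ball_D2 {H : ℝ} {w : ℂ} (hw : w ∈ D1 H) : Metric.ball w (1 / 4) ⊆ D2 H := by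
  intro z hz
  rw [Metric.mem_ball, dist_eq_norm] at hz
  have h1 := Complex.abs_re_le_norm (z - w)
  have h2 := Complex.abs_im_le_norm (z - w)
  rw [Complex.sub_re] at h1
  rw [Complex.sub_im] at h2
  have h3 := hw.1
  have h4 := hw.2
  rw [mem_D2]
  constructor
  · calc |z.re| = |(z.re - w.re) + w.re| := by ring_nf
      _ ≤ |z.re - w.re| + |w.re| := abs_add_le _ _
      _ ≤ 3 / 4 := by linarith
  · calc |z.im| = |(z.im - w.im) + w.im| := by ring_nf
      _ ≤ |z.im - w.im| + |w.im| := abs_add_le _ _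
      _ ≤ H + 2 := by linarith

lemma jf_ne {δ : ℝ} (hδ0 : 0 < δ) (hδ : δ < 1 / 4) {H : ℝ} {z : ℂ} (hz : z ∈ D2 H) (t : ℝ) : (1 / 2 + δ + t * Complex.I + δ * z : ℂ) ≠ 1 := by
  intro h
  have h1 := congrArg Complex.re h
  simp at h1
  have h2 := (abs_le.mp (mem_D2.mp hz).1).2
  nlinarith

lemma jf_cont {δ : ℝ} (hδ0 : 0 < δ) (hδ : δ < 1 / 4) (H : ℝ) : ContinuousOn (fun x : ℂ × ℝ => jf δ x.2 x.1) (D2 H ×ˢ Set.univ) := by
  rintro ⟨z, t⟩ ⟨hz, _⟩
  refine ContinuousAt.continuousWithinAt ?_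
  have h2 : ContinuousAt (fun s : ℂ => riemannZeta s) (1 / 2 + δ + t * Complex.I + δ * z) :=
    (differentiableAt_riemannZeta (jf_ne hδ0 hδ hz t)).continuousAt
  exact h2.comp (f := fun x : ℂ × ℝ => (1 / 2 + δ + x.2 * Complex.I + δ * x.1 : ℂ)) (x := (z, t)) (by fun_prop)

lemma jf_contz {δ : ℝ} (hδ0 : 0 < δ) (hδ : δ < 1 / 4) (H t : ℝ) : ContinuousOn (jf δ t) (D2 H) := by
  have h1 := (jf_cont hδ0 hδ H).comp (f := fun z : ℂ => (z, t)) (by fun_prop) (s := D2 H) (fun z hz => ⟨hz, Set.mem_univ _⟩)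
  exact h1

lemma jf_diff {δ : ℝ} (hδ0 : 0 < δ) (hδ : δ < 1 / 4) (H t : ℝ) {U : Set ℂ} (hU : U ⊆ D2 H) : DifferentiableOn ℂ (jf δ t) U := by
  intro z hz
  have h2 : DifferentiableAt ℂ riemannZeta (1 / 2 + δ + t * Complex.I + δ * z) := differentiableAt_riemannZeta (jf_ne hδ0 hδ (hU hz) t)
  have h3 : DifferentiableAt ℂ (fun z : ℂ => (1 / 2 + δ + t * Complex.I + δ * z : ℂ)) z := by fun_prop
  exact (h2.comp z h3).differentiableWithinAt

lemma D1_D2 (H : ℝ) : D1 H ⊆ D2 H := by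
  intro z hz
  rw [mem_D2]
  exact ⟨by linarith [hz.1], by linarith [hz.2]⟩

/-- the area integral -/
noncomputable def Ar (k H δ t : ℝ) : ℝ := ∫ z in D2 H, ‖jf δ t z‖ ^ (2 * k)

lemma Ar_int {k : ℝ} (hk : 0 < k) {δ : ℝ} (hδ0 : 0 < δ) (hδ : δ < 1 / 4) (H t : ℝ) : IntegrableOn (fun z => ‖jf δ t z‖ ^ (2 * k)) (D2 H) := by
  refine ContinuousOn.integrableOn_compact (D2_compact H) ?_
  exact (jf_contz hδ0 hδ H t).norm.rpow_const fun z _ => Or.inr (by positivity)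

lemma Ar_nonneg (k H δ t : ℝ) : 0 ≤ Ar k H δ t := integral_nonneg fun z => Real.rpow_nonneg (norm_nonneg _) _

/-- the supremum bound -/
lemma sup_le {k : ℝ} (hk : 0 < k) {δ : ℝ} (hδ0 : 0 < δ) (hδ : δ < 1 / 4) (H t : ℝ) {w : ℂ} (hw : w ∈ D1 H) :
    ‖jf δ t w‖ ^ (2 * k) ≤ 16 / Real.pi * Ar k H δ t := by
  have h1 := Pool.Agent.H402R2.SubMean.rpow_mul_le_lintegral (g := jf δ t) (w := w) (ρ := 1 / 4) (p := 2 * k) (by norm_num) (by positivity)
    (jf_diff hδ0 hδ H t (ball_D2 hw))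
  have h2 : ∫⁻ z in Metric.ball w (1 / 4), ‖jf δ t z‖ₑ ^ (2 * k) ≤ ∫⁻ z in D2 H, ‖jf δ t z‖ₑ ^ (2 * k) := lintegral_mono_set (ball_D2 hw)
  have h3 : ∫⁻ z in D2 H, ‖jf δ t z‖ₑ ^ (2 * k) = ENNReal.ofReal (Ar k H δ t) := by
    unfold Ar
    rw [ofReal_integral_eq_lintegral_ofReal (Ar_int hk hδ0 hδ H t) (Eventually.of_forall fun z => Real.rpow_nonneg (norm_nonneg _) _)]
    refine lintegral_congr fun z => ?_
    rw [← ofReal_norm, ENNReal.ofReal_rpow_of_nonneg (norm_nonneg _) (by positivity)]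
  rw [h3] at h2
  have h4 := (ENNReal.ofReal_le_ofReal_iff (Ar_nonneg k H δ t)).mp (h1.trans h2)
  have hpi := Real.pi_pos
  rw [div_mul_eq_mul_div, le_div_iff₀ hpi]
  nlinarith

/-- the mean values of the area integrals -/
theorem Ar_mean {k : ℝ} (hk : 0 < k) (hk2 : k ≤ 2) {δ : ℝ → ℝ} (hδ : Tendsto δ atTop (𝓝 0))
    (hδL : Tendsto (fun T => δ T * Real.log T) atTop atTop) {H : ℝ} (hH : 0 ≤ H) :
    ∃ C : ℝ, 0 ≤ C ∧ ∀ᶠ T : ℝ in atTop, IntegrableOn (fun t => Ar k H (δ T) t) (Set.Icc 0 T) ∧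
      (2 * δ T) ^ (k ^ 2) / T * ∫ t in Set.Icc 0 T, Ar k H (δ T) t ≤ C := by
  obtain ⟨C, hC, h1⟩ := unif_up hk hk2 hδ hδL (m := 1 / 4) (H + 2) (by norm_num)
  refine ⟨(volume (D2 H)).toReal * C, by positivity, ?_⟩
  filter_upwards [h1, pos_path hδL, hδ.eventually (gt_mem_nhds (show (0:ℝ) < 1 / 4 by norm_num)), eventually_gt_atTop 0] with T h1 hd hd2 hT
  obtain ⟨c, hc⟩ : ∃ c : ℝ, c = (2 * δ T) ^ (k ^ 2) / T := ⟨_, rfl⟩
  have hc0 : 0 ≤ c := by rw [hc]; positivity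
  have hcont : ContinuousOn (fun x : ℂ × ℝ => ‖jf (δ T) x.2 x.1‖ ^ (2 * k)) (D2 H ×ˢ Set.Icc 0 T) :=
    ((jf_cont hd hd2 H).mono (Set.prod_mono_right (Set.subset_univ _))).norm.rpow_const fun z _ => Or.inr (by positivity)
  have hprod : Integrable (fun x : ℂ × ℝ => ‖jf (δ T) x.2 x.1‖ ^ (2 * k)) ((volume.restrict (D2 H)).prod (volume.restrict (Set.Icc 0 T))) := by
    rw [Measure.prod_restrict]
    exact hcont.integrableOn_compact ((D2_compact H).prod isCompact_Icc)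
  have hsw : ∫ t in Set.Icc 0 T, Ar k H (δ T) t = ∫ z in D2 H, ∫ t in Set.Icc 0 T, ‖jf (δ T) t z‖ ^ (2 * k) := by
    unfold Ar
    exact (integral_integral_swap (f := fun (z : ℂ) (t : ℝ) => ‖jf (δ T) t z‖ ^ (2 * k)) hprod).symm
  refine ⟨?_, ?_⟩
  · exact hprod.swap.integral_prod_left
  · rw [← hc, hsw, ← integral_const_mul]
    have hfin : volume (D2 H) < ⊤ := (D2_compact H).measure_lt_top
    have h2 : ∫ z in D2 H, c * ∫ t in Set.Icc 0 T, ‖jf (δ T) t z‖ ^ (2 * k) ≤ ∫ _z in D2 H, C := by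
      refine setIntegral_mono_on (hprod.integral_prod_left.const_mul c) (integrableOn_const hfin.ne) (D2_compact H).measurableSet fun z hz => ?_
      have h3 := mem_D2.mp hz
      have h4 := abs_le.mp h3.1
      have h5 := h1 (1 + z) (by rw [Complex.add_re, Complex.one_re]; linarith) (by rw [Complex.add_re, Complex.one_re]; linarith)
        (by rw [Complex.add_im, Complex.one_im, zero_add]; exact h3.2)
      refine le_trans (le_of_eq ?_) h5
      rw [hc, mul_one_div]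
      congr 1
      refine integral_congr_ae (Eventually.of_forall fun t => ?_)
      show ‖jf (δ T) t z‖ ^ (2 * k) = ‖riemannZeta (1 / 2 + (1 + z) * δ T + Complex.I * t)‖ ^ (2 * k)
      unfold jf
      congr 3
      ring
    refine h2.trans (le_of_eq ?_)
    rw [setIntegral_const, smul_eq_mul, measureReal_def]

end Pool.Agent.X111.FL
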