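import Pool.Agent.X111.JD.Gau

set_option autoImplicit false
set_option linter.unusedSectionVars false

/-! The Gaussian power series with covariance kernel `- log (1 - z conj w)`. -/

namespace Pool.Agent.X111.FL

open MeasureTheory ProbabilityTheory Filter Topology
open Pool.Agent.X111.JD (ga ga_exp nn nn_cont nn_le nn_int)

/-- the law of the coefficients -/
noncomputable def PG : Measure (ℕ → ℝ × ℝ) := Measure.infinitePi fun _ => ga.prod ga

instance : IsProbabilityMeasure PG := by unfold PG; infer_instance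

lemma indep : iIndepFun (fun (n : ℕ) (ω : ℕ → ℝ × ℝ) => ω n) PG :=
  iIndepFun_infinitePi (P := fun _ : ℕ => ga.prod ga) (X := fun (_ : ℕ) (x : ℝ × ℝ) => x) (fun _ => measurable_id)

lemma PG_eval (n : ℕ) : Measure.map (fun ω : ℕ → ℝ × ℝ => ω n) PG = ga.prod ga :=
  Measure.infinitePi_map_eval (fun _ : ℕ => ga.prod ga) n

lemma two_exp (A B : ℂ) : ∫ p, Complex.exp (A * nn p + B * (starRingEnd ℂ) (nn p)) ∂(ga.prod ga) = Complex.exp (A * B) := by
  have e1 : ∀ p : ℝ × ℝ, Complex.exp (A * nn p + B * (starRingEnd ℂ) (nn p)) =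
      Complex.exp ((A + B) * p.1) * Complex.exp ((Complex.I * (A - B)) * p.2) := by
    intro p
    rw [← Complex.exp_add]
    congr 1
    unfold nn
    simp only [map_add, map_mul, Complex.conj_ofReal, Complex.conj_I]
    ring
  simp_rw [e1]
  rw [integral_prod_mul (fun u : ℝ => Complex.exp ((A + B) * u)) (fun u : ℝ => Complex.exp ((Complex.I * (A - B)) * u)),
    ga_exp, ga_exp, ← Complex.exp_add]
  congr 1
  have hI : Complex.I ^ 2 = -1 := Complex.I_sq
  ring_nf
  rw [hI]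
  ring

lemma trunc_exp (A B : ℕ → ℂ) (N : ℕ) : ∫ ω, Complex.exp (∑ n ∈ Finset.range N, (A n * nn (ω n) + B n * (starRingEnd ℂ) (nn (ω n)))) ∂PG =
    Complex.exp (∑ n ∈ Finset.range N, A n * B n) := by
  have hc : ∀ n : ℕ, Continuous fun p : ℝ × ℝ => Complex.exp (A n * nn p + B n * (starRingEnd ℂ) (nn p)) := fun n =>
    Complex.continuous_exp.comp ((continuous_const.mul nn_cont).add (continuous_const.mul (Complex.continuous_conj.comp nn_cont)))
  have h1 := (indep.precomp (g := fun i : Fin N => (i : ℕ)) Fin.val_injective).integral_fun_prod_comp (𝕜 := ℂ)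
    (f := fun (i : Fin N) (p : ℝ × ℝ) => Complex.exp (A i * nn p + B i * (starRingEnd ℂ) (nn p)))
    (fun i => (measurable_pi_apply _).aemeasurable) (fun i => (hc i).aestronglyMeasurable)
  have h2 : ∀ ω : ℕ → ℝ × ℝ, Complex.exp (∑ n ∈ Finset.range N, (A n * nn (ω n) + B n * (starRingEnd ℂ) (nn (ω n)))) =
      ∏ i : Fin N, Complex.exp (A i * nn (ω i) + B i * (starRingEnd ℂ) (nn (ω i))) := by
    intro ω
    rw [Complex.exp_sum, Finset.prod_range (fun n => Complex.exp (A n * nn (ω n) + B n * (starRingEnd ℂ) (nn (ω n))))]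
  simp_rw [h2]
  rw [h1, Complex.exp_sum, Finset.prod_range (fun n => Complex.exp (A n * B n))]
  refine Finset.prod_congr rfl fun i _ => ?_
  rw [← two_exp, ← PG_eval i, integral_map (measurable_pi_apply _).aemeasurable (hc i).aestronglyMeasurable]

lemma exp_sub_one_le {y : ℝ} : Real.exp y ≤ 1 + y * Real.exp y := by
  have h1 := Real.add_one_le_exp (-y)
  have h2 : Real.exp (-y) * Real.exp y = 1 := by rw [← Real.exp_add]; simp
  nlinarith [Real.exp_pos y]

/-- the random sums are finite -/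
lemma sum_ae {b : ℕ → ℝ} (hb0 : ∀ n, 0 ≤ b n) (hb : Summable b) : ∀ᵐ ω ∂PG, Summable fun n => b n * ‖nn (ω n)‖ := by
  have hc : ∀ n : ℕ, Measurable fun ω : ℕ → ℝ × ℝ => ENNReal.ofReal (b n * ‖nn (ω n)‖) := fun n =>
    (measurable_const.mul ((nn_cont.measurable.comp (measurable_pi_apply n)).norm)).ennreal_ofReal
  have hM : ∫⁻ p, ENNReal.ofReal ‖nn p‖ ∂(ga.prod ga) ≠ ⊤ := by
    have h1 : ∫⁻ p, ENNReal.ofReal ‖nn p‖ ∂(ga.prod ga) ≤ ∫⁻ p, ENNReal.ofReal (Real.exp (1 * ‖nn p‖)) ∂(ga.prod ga) := by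
      refine lintegral_mono fun p => ENNReal.ofReal_le_ofReal ?_
      rw [one_mul]
      have := Real.add_one_le_exp ‖nn p‖
      linarith
    refine ne_top_of_le_ne_top ?_ h1
    rw [← ofReal_integral_eq_lintegral_ofReal (nn_int 1 zero_le_one) (Eventually.of_forall fun p => (Real.exp_pos _).le)]
    exact ENNReal.ofReal_ne_top
  have h1 : ∫⁻ ω, ∑' n, ENNReal.ofReal (b n * ‖nn (ω n)‖) ∂PG ≠ ⊤ := by
    rw [lintegral_tsum fun n => (hc n).aemeasurable]
    have h2 : ∀ n, ∫⁻ ω, ENNReal.ofReal (b n * ‖nn (ω n)‖) ∂PG = ENNReal.ofReal (b n) * ∫⁻ p, ENNReal.ofReal ‖nn p‖ ∂(ga.prod ga) := by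
      intro n
      simp_rw [ENNReal.ofReal_mul (hb0 n)]
      rw [lintegral_const_mul' _ _ ENNReal.ofReal_ne_top, ← PG_eval n, lintegral_map nn_cont.norm.measurable.ennreal_ofReal (measurable_pi_apply n)]
    simp_rw [h2]
    rw [ENNReal.tsum_mul_right]
    refine ENNReal.mul_ne_top ?_ hM
    exact hb.tsum_ofReal_ne_top
  filter_upwards [ae_lt_top (Measurable.tsum hc) h1] with ω hω
  have h3 := ENNReal.summable_toReal hω.ne
  refine h3.congr fun n => ?_
  rw [ENNReal.toReal_ofReal (mul_nonneg (hb0 n) (norm_nonneg _))]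

lemma sum_meas {b : ℕ → ℝ} (hb0 : ∀ n, 0 ≤ b n) (hb : Summable b) :
    AEStronglyMeasurable (fun ω : ℕ → ℝ × ℝ => ∑' n, b n * ‖nn (ω n)‖) PG := by
  refine aestronglyMeasurable_of_tendsto_ae atTop (f := fun N (ω : ℕ → ℝ × ℝ) => ∑ n ∈ Finset.range N, b n * ‖nn (ω n)‖) (fun N => ?_) ?_
  · exact (Finset.measurable_sum _ fun n _ => (measurable_const.mul ((nn_cont.measurable.comp (measurable_pi_apply n)).norm))).aestronglyMeasurable
  · filter_upwards [sum_ae hb0 hb] with ω hω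
    exact hω.hasSum.tendsto_sum_nat

/-- the exponential moments of the random sums -/
lemma sum_exp {b : ℕ → ℝ} (hb0 : ∀ n, 0 ≤ b n) (hb : Summable b) : Integrable (fun ω : ℕ → ℝ × ℝ => Real.exp (∑' n, b n * ‖nn (ω n)‖)) PG := by
  have hc : ∀ n : ℕ, Continuous fun p : ℝ × ℝ => ENNReal.ofReal (Real.exp (b n * ‖nn p‖)) := fun n =>
    ENNReal.continuous_ofReal.comp (Real.continuous_exp.comp (continuous_const.mul nn_cont.norm))
  obtain ⟨c0, hc0⟩ : ∃ c0 : ℝ, c0 = ∑' n, b n := ⟨_, rfl⟩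
  have hbc : ∀ n, b n ≤ c0 := fun n => by rw [hc0]; exact hb.le_tsum n fun j _ => hb0 j
  have hc00 : 0 ≤ c0 := (hb0 0).trans (hbc 0)
  have hi : ∀ c : ℝ, 0 ≤ c → Integrable (fun p : ℝ × ℝ => Real.exp (c * ‖nn p‖)) (ga.prod ga) := nn_int
  have hi2 : Integrable (fun p : ℝ × ℝ => ‖nn p‖ * Real.exp (c0 * ‖nn p‖)) (ga.prod ga) := by
    refine (hi (c0 + 1) (by linarith)).mono (nn_cont.norm.mul (Real.continuous_exp.comp (continuous_const.mul nn_cont.norm))).aestronglyMeasurable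
      (Eventually.of_forall fun p => ?_)
    rw [Real.norm_of_nonneg (by positivity), Real.norm_of_nonneg (Real.exp_pos _).le, add_mul, Real.exp_add, one_mul, mul_comm]
    refine mul_le_mul_of_nonneg_left ?_ (Real.exp_pos _).le
    have := Real.add_one_le_exp ‖nn p‖
    linarith
  obtain ⟨M, hM⟩ : ∃ M : ℝ, M = ∫ p, ‖nn p‖ * Real.exp (c0 * ‖nn p‖) ∂(ga.prod ga) := ⟨_, rfl⟩
  have hM0 : 0 ≤ M := by rw [hM]; exact integral_nonneg fun p => by positivity
  have hfac : ∀ n, ∫⁻ ω, ENNReal.ofReal (Real.exp (b n * ‖nn (ω n)‖)) ∂PG ≤ ENNReal.ofReal (Real.exp (b n * M)) := by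
    intro n
    have e1 : ∫⁻ ω, ENNReal.ofReal (Real.exp (b n * ‖nn (ω n)‖)) ∂PG = ∫⁻ p, ENNReal.ofReal (Real.exp (b n * ‖nn p‖)) ∂(ga.prod ga) := by
      rw [← PG_eval n, lintegral_map (hc n).measurable (measurable_pi_apply n)]
    rw [e1, ← ofReal_integral_eq_lintegral_ofReal (hi _ (hb0 n)) (Eventually.of_forall fun p => (Real.exp_pos _).le)]
    refine ENNReal.ofReal_le_ofReal ?_
    have h1 : ∫ p, Real.exp (b n * ‖nn p‖) ∂(ga.prod ga) ≤ ∫ p, (1 + b n * (‖nn p‖ * Real.exp (c0 * ‖nn p‖))) ∂(ga.prod ga) := by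
      refine integral_mono (hi _ (hb0 n)) ((integrable_const _).add (hi2.const_mul _)) fun p => ?_
      show Real.exp (b n * ‖nn p‖) ≤ 1 + b n * (‖nn p‖ * Real.exp (c0 * ‖nn p‖))
      refine exp_sub_one_le.trans ?_
      have h2 : Real.exp (b n * ‖nn p‖) ≤ Real.exp (c0 * ‖nn p‖) :=
        Real.exp_le_exp.mpr (mul_le_mul_of_nonneg_right (hbc n) (norm_nonneg _))
      have h3 : 0 ≤ b n * ‖nn p‖ := mul_nonneg (hb0 n) (norm_nonneg _)
      nlinarith
    refine h1.trans ?_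
    rw [integral_add (integrable_const _) (hi2.const_mul _), integral_const_mul, ← hM]
    simp only [integral_const, probReal_univ, smul_eq_mul, one_mul]
    have := Real.add_one_le_exp (b n * M)
    linarith
  have hN : ∀ N : ℕ, ∫⁻ ω, ENNReal.ofReal (Real.exp (∑ n ∈ Finset.range N, b n * ‖nn (ω n)‖)) ∂PG ≤ ENNReal.ofReal (Real.exp (c0 * M)) := by
    intro N
    have e1 : ∀ ω : ℕ → ℝ × ℝ, ENNReal.ofReal (Real.exp (∑ n ∈ Finset.range N, b n * ‖nn (ω n)‖)) =
        ∏ n ∈ Finset.range N, ENNReal.ofReal (Real.exp (b n * ‖nn (ω n)‖)) := by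
      intro ω
      rw [Real.exp_sum, ENNReal.ofReal_prod_of_nonneg fun n _ => (Real.exp_pos _).le]
    simp_rw [e1]
    have hind : iIndepFun (fun (n : ℕ) (ω : ℕ → ℝ × ℝ) => ENNReal.ofReal (Real.exp (b n * ‖nn (ω n)‖))) PG :=
      indep.comp (fun n (p : ℝ × ℝ) => ENNReal.ofReal (Real.exp (b n * ‖nn p‖))) fun n => (hc n).measurable
    rw [lintegral_prod_eq_prod_lintegral_of_indepFun _ _ hind fun n => (hc n).measurable.comp (measurable_pi_apply n)]
    refine (Finset.prod_le_prod' fun n _ => hfac n).trans ?_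
    rw [← ENNReal.ofReal_prod_of_nonneg fun n _ => (Real.exp_pos _).le, ← Real.exp_sum, ← Finset.sum_mul]
    refine ENNReal.ofReal_le_ofReal (Real.exp_le_exp.mpr (mul_le_mul_of_nonneg_right ?_ hM0))
    rw [hc0]
    exact hb.sum_le_tsum _ fun n _ => hb0 n
  have hmeas : AEStronglyMeasurable (fun ω : ℕ → ℝ × ℝ => Real.exp (∑' n, b n * ‖nn (ω n)‖)) PG :=
    Real.continuous_exp.comp_aestronglyMeasurable (sum_meas hb0 hb)
  refine ⟨hmeas, ?_⟩
  rw [hasFiniteIntegral_iff_ofReal (Eventually.of_forall fun ω => (Real.exp_pos _).le)]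
  have h1 : ∫⁻ ω, ENNReal.ofReal (Real.exp (∑' n, b n * ‖nn (ω n)‖)) ∂PG =
      ∫⁻ ω, liminf (fun N => ENNReal.ofReal (Real.exp (∑ n ∈ Finset.range N, b n * ‖nn (ω n)‖))) atTop ∂PG := by
    refine lintegral_congr_ae ?_
    filter_upwards [sum_ae hb0 hb] with ω hω
    have h2 : Tendsto (fun N => ENNReal.ofReal (Real.exp (∑ n ∈ Finset.range N, b n * ‖nn (ω n)‖))) atTop
        (𝓝 (ENNReal.ofReal (Real.exp (∑' n, b n * ‖nn (ω n)‖)))) :=
      ENNReal.tendsto_ofReal ((Real.continuous_exp.tendsto _).comp hω.hasSum.tendsto_sum_nat)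
    exact h2.liminf_eq.symm
  rw [h1]
  refine lt_of_le_of_lt (lintegral_liminf_le fun N => ?_) ?_
  · exact (Real.measurable_exp.comp (Finset.measurable_sum _ fun n _ =>
      (measurable_const.mul ((nn_cont.measurable.comp (measurable_pi_apply n)).norm)))).ennreal_ofReal
  · refine lt_of_le_of_lt (liminf_le_of_le (f := atTop) (by isBoundedDefault) (a := ENNReal.ofReal (Real.exp (c0 * M))) ?_) ENNReal.ofReal_lt_top
    intro b' hb'
    obtain ⟨N, hN'⟩ := hb'.exists
    exact hN'.trans (hN N)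

end Pool.Agent.X111.FL
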