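import Pool.Agent.X111.FL.Field

set_option autoImplicit false
set_option linter.unusedSectionVars false

/-! The Gaussian power series with covariance kernel `- log (1 - z conj w)`: values, exponential moments. -/

namespace Pool.Agent.X111.FL

open MeasureTheory ProbabilityTheory Filter Topology
open Pool.Agent.X111.JD (ga ga_exp nn nn_cont nn_le nn_int)

/-- the Gaussian power series `∑ ξ_n w^n / √n` -/
noncomputable def gf (ω : ℕ → ℝ × ℝ) (w : ℂ) : ℂ := ∑' n : ℕ, nn (ω n) * (w ^ (n + 1) / (Real.sqrt (n + 1) : ℂ))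

/-- the majorant -/
noncomputable def mj (r : ℝ) (ω : ℕ → ℝ × ℝ) : ℝ := ∑' n : ℕ, r ^ (n + 1) * ‖nn (ω n)‖

lemma geo_summable {r : ℝ} (hr0 : 0 ≤ r) (hr : r < 1) : Summable fun n : ℕ => r ^ (n + 1) :=
  (summable_nat_add_iff 1).mpr (summable_geometric_of_lt_one hr0 hr)

lemma sqrt_ge (n : ℕ) : 1 ≤ Real.sqrt ((n : ℝ) + 1) := by
  rw [Real.one_le_sqrt]
  linarith [(Nat.cast_nonneg n : (0:ℝ) ≤ n)]

lemma coef_norm {w : ℂ} {r : ℝ} (hw : ‖w‖ ≤ r) (n : ℕ) : ‖w ^ (n + 1) / (Real.sqrt (n + 1) : ℂ)‖ ≤ r ^ (n + 1) := by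
  rw [norm_div, norm_pow, Complex.norm_real, Real.norm_of_nonneg (Real.sqrt_nonneg _)]
  have h1 := sqrt_ge n
  rw [div_le_iff₀ (by linarith)]
  have h2 : ‖w‖ ^ (n + 1) ≤ r ^ (n + 1) := pow_le_pow_left₀ (norm_nonneg _) hw _
  have h3 : 0 ≤ r ^ (n + 1) := pow_nonneg ((norm_nonneg _).trans hw) _
  nlinarith

lemma term_norm {w : ℂ} {r : ℝ} (hw : ‖w‖ ≤ r) (ω : ℕ → ℝ × ℝ) (n : ℕ) :
    ‖nn (ω n) * (w ^ (n + 1) / (Real.sqrt (n + 1) : ℂ))‖ ≤ r ^ (n + 1) * ‖nn (ω n)‖ := by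
  rw [norm_mul, mul_comm]
  exact mul_le_mul_of_nonneg_right (coef_norm hw n) (norm_nonneg _)

/-- the good coefficients -/
def Gd (ω : ℕ → ℝ × ℝ) : Prop := ∀ m : ℕ, Summable fun n : ℕ => (1 - 1 / ((m : ℝ) + 2)) ^ (n + 1) * ‖nn (ω n)‖

lemma rm_pos (m : ℕ) : 0 ≤ 1 - 1 / ((m : ℝ) + 2) := by
  have : 1 / ((m : ℝ) + 2) ≤ 1 := by
    rw [div_le_one (by positivity)]
    linarith [(Nat.cast_nonneg m : (0:ℝ) ≤ m)]
  linarith

lemma rm_lt (m : ℕ) : 1 - 1 / ((m : ℝ) + 2) < 1 := by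
  have : 0 < 1 / ((m : ℝ) + 2) := by positivity
  linarith

lemma Gd_ae : ∀ᵐ ω ∂PG, Gd ω := by
  unfold Gd
  rw [ae_all_iff]
  intro m
  exact sum_ae (fun n => pow_nonneg (rm_pos m) _) (geo_summable (rm_pos m) (rm_lt m))

lemma Gd_sum {ω : ℕ → ℝ × ℝ} (h : Gd ω) {r : ℝ} (hr0 : 0 ≤ r) (hr : r < 1) : Summable fun n : ℕ => r ^ (n + 1) * ‖nn (ω n)‖ := by
  have h1 : Tendsto (fun m : ℕ => 1 - 1 / ((m : ℝ) + 2)) atTop (𝓝 1) := by
    have h2 : Tendsto (fun m : ℕ => 1 / ((m : ℝ) + 2)) atTop (𝓝 0) := by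
      refine (tendsto_const_nhds.div_atTop (tendsto_atTop_add_const_right _ 2 tendsto_natCast_atTop_atTop))
    have := h2.const_sub 1
    rwa [sub_zero] at this
  obtain ⟨m, hm⟩ := (h1.eventually (lt_mem_nhds hr)).exists
  refine (h m).of_nonneg_of_le (fun n => by positivity) fun n => ?_
  exact mul_le_mul_of_nonneg_right (pow_le_pow_left₀ hr0 hm.le _) (norm_nonneg _)

lemma gf_summable {ω : ℕ → ℝ × ℝ} (h : Gd ω) {w : ℂ} (hw : ‖w‖ < 1) : Summable fun n : ℕ => nn (ω n) * (w ^ (n + 1) / (Real.sqrt (n + 1) : ℂ)) :=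
  (Gd_sum h (norm_nonneg w) hw).of_norm_bounded fun n => term_norm le_rfl ω n

lemma gf_norm {ω : ℕ → ℝ × ℝ} (h : Gd ω) {r : ℝ} (hr0 : 0 ≤ r) (hr : r < 1) {w : ℂ} (hw : ‖w‖ ≤ r) : ‖gf ω w‖ ≤ mj r ω := by
  unfold gf mj
  exact tsum_of_norm_bounded (Gd_sum h hr0 hr).hasSum fun n => term_norm hw ω n

lemma gf_diff {ω : ℕ → ℝ × ℝ} (h : Gd ω) : DifferentiableOn ℂ (gf ω) (Metric.ball 0 1) := by
  intro w hw
  rw [mem_ball_zero_iff] at hw
  obtain ⟨r, hr1, hr2⟩ := exists_between hw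
  have hr0 : 0 ≤ r := (norm_nonneg _).trans hr1.le
  have h1 : DifferentiableOn ℂ (gf ω) (Metric.ball 0 r) := by
    refine Complex.differentiableOn_tsum_of_summable_norm (Gd_sum h hr0 hr2) (fun n => ?_) Metric.isOpen_ball fun n z hz => ?_
    · fun_prop
    · rw [mem_ball_zero_iff] at hz
      exact term_norm hz.le ω n
  exact (h1.differentiableAt (Metric.isOpen_ball.mem_nhds (by rw [mem_ball_zero_iff]; exact hr1))).differentiableWithinAt

lemma mj_nonneg (r : ℝ) (hr0 : 0 ≤ r) (ω : ℕ → ℝ × ℝ) : 0 ≤ mj r ω := tsum_nonneg fun n => by positivity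

lemma mj_exp {r : ℝ} (hr0 : 0 ≤ r) (hr : r < 1) (c : ℝ) : Integrable (fun ω : ℕ → ℝ × ℝ => Real.exp (c * mj r ω)) PG := by
  have h1 : Integrable (fun ω : ℕ → ℝ × ℝ => Real.exp (|c| * mj r ω)) PG := by
    have h2 := sum_exp (b := fun n => |c| * r ^ (n + 1)) (fun n => by positivity) ((geo_summable hr0 hr).mul_left _)
    refine h2.congr (Eventually.of_forall fun ω => ?_)
    show Real.exp (∑' n, |c| * r ^ (n + 1) * ‖nn (ω n)‖) = Real.exp (|c| * mj r ω)
    unfold mj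
    rw [← tsum_mul_left]
    congr 2
    funext n
    ring
  have hm : AEStronglyMeasurable (fun ω : ℕ → ℝ × ℝ => mj r ω) PG := sum_meas (b := fun n => r ^ (n + 1)) (fun n => by positivity) (geo_summable hr0 hr)
  refine h1.mono (Real.continuous_exp.comp_aestronglyMeasurable (hm.const_mul c)) (Eventually.of_forall fun ω => ?_)
  rw [Real.norm_of_nonneg (Real.exp_pos _).le, Real.norm_of_nonneg (Real.exp_pos _).le]
  exact Real.exp_le_exp.mpr (mul_le_mul_of_nonneg_right (le_abs_self c) (mj_nonneg r hr0 ω))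

/-- a common radius -/
lemma ex_rad {n : ℕ} (w : Fin n → ℂ) (hw : ∀ j, ‖w j‖ < 1) : ∃ r : ℝ, 0 ≤ r ∧ r < 1 ∧ ∀ j, ‖w j‖ ≤ r := by
  refine ⟨((Finset.univ.sup fun j => ‖w j‖₊ : NNReal) : ℝ), NNReal.coe_nonneg _, ?_, fun j => ?_⟩
  · have : (Finset.univ.sup fun j => ‖w j‖₊ : NNReal) < 1 := by
      rw [Finset.sup_lt_iff (by exact one_pos)]
      intro j _
      exact_mod_cast hw j
    exact_mod_cast this
  · have : ‖w j‖₊ ≤ Finset.univ.sup fun j => ‖w j‖₊ := Finset.le_sup (f := fun j => ‖w j‖₊) (Finset.mem_univ j)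
    exact_mod_cast this

lemma gf_meas (w : ℂ) (hw : ‖w‖ < 1) : AEStronglyMeasurable (fun ω => gf ω w) PG := by
  refine aestronglyMeasurable_of_tendsto_ae atTop (f := fun N (ω : ℕ → ℝ × ℝ) => ∑ n ∈ Finset.range N, nn (ω n) * (w ^ (n + 1) / (Real.sqrt (n + 1) : ℂ))) (fun N => ?_) ?_
  · exact (Finset.measurable_sum _ fun n _ => ((nn_cont.measurable.comp (measurable_pi_apply n)).mul_const _)).aestronglyMeasurable
  · filter_upwards [Gd_ae] with ω hω
    exact (gf_summable hω hw).hasSum.tendsto_sum_nat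

/-- the mixed exponential moments -/
theorem gf_mixed {n : ℕ} (w : Fin n → ℂ) (hw : ∀ j, ‖w j‖ < 1) (x y : Fin n → ℝ) :
    ∫ ω, Complex.exp (∑ j, x j * gf ω (w j)) * (starRingEnd ℂ) (Complex.exp (∑ j, y j * gf ω (w j))) ∂PG =
    Complex.exp (∑ j, ∑ l, ((x j * y l : ℝ) : ℂ) * -Complex.log (1 - w j * (starRingEnd ℂ) (w l))) := by
  obtain ⟨r, hr0, hr1, hwr⟩ := ex_rad w hw
  obtain ⟨A, hA⟩ : ∃ A : ℕ → ℂ, A = fun m : ℕ => ∑ j, (x j : ℂ) * (w j ^ (m + 1) / (Real.sqrt (m + 1) : ℂ)) := ⟨_, rfl⟩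
  obtain ⟨B, hB⟩ : ∃ B : ℕ → ℂ, B = fun m : ℕ => ∑ j, (y j : ℂ) * (starRingEnd ℂ) (w j ^ (m + 1) / (Real.sqrt (m + 1) : ℂ)) := ⟨_, rfl⟩
  obtain ⟨c, hc⟩ : ∃ c : ℝ, c = (∑ j, |x j|) + ∑ j, |y j| := ⟨_, rfl⟩
  have hAn : ∀ m, ‖A m‖ ≤ (∑ j, |x j|) * r ^ (m + 1) := by
    intro m
    rw [hA, Finset.sum_mul]
    refine (norm_sum_le _ _).trans (Finset.sum_le_sum fun j _ => ?_)
    rw [norm_mul, Complex.norm_real, Real.norm_eq_abs]
    exact mul_le_mul_of_nonneg_left (coef_norm (hwr j) m) (abs_nonneg _)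
  have hBn : ∀ m, ‖B m‖ ≤ (∑ j, |y j|) * r ^ (m + 1) := by
    intro m
    rw [hB, Finset.sum_mul]
    refine (norm_sum_le _ _).trans (Finset.sum_le_sum fun j _ => ?_)
    rw [norm_mul, Complex.norm_real, Real.norm_eq_abs, RCLike.norm_conj]
    exact mul_le_mul_of_nonneg_left (coef_norm (hwr j) m) (abs_nonneg _)
  -- the left side
  have hL : Tendsto (fun N => ∫ ω, Complex.exp (∑ m ∈ Finset.range N, (A m * nn (ω m) + B m * (starRingEnd ℂ) (nn (ω m)))) ∂PG) atTop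
      (𝓝 (∫ ω, Complex.exp (∑ j, x j * gf ω (w j)) * (starRingEnd ℂ) (Complex.exp (∑ j, y j * gf ω (w j))) ∂PG)) := by
    refine tendsto_integral_of_dominated_convergence (fun ω => Real.exp (c * mj r ω)) (fun N => ?_) (mj_exp hr0 hr1 c) (fun N => ?_) ?_
    · refine Complex.continuous_exp.comp_aestronglyMeasurable (Measurable.aestronglyMeasurable ?_)
      refine Finset.measurable_sum _ fun m _ => ?_
      have h1 := nn_cont.measurable.comp (measurable_pi_apply (X := fun _ : ℕ => ℝ × ℝ) m)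
      exact (h1.const_mul _).add ((Complex.continuous_conj.measurable.comp h1).const_mul _)
    · filter_upwards [Gd_ae] with ω hω
      rw [Complex.norm_exp]
      refine Real.exp_le_exp.mpr ((Complex.re_le_norm _).trans ((norm_sum_le _ _).trans ?_))
      have h1 : ∀ m ∈ Finset.range N, ‖A m * nn (ω m) + B m * (starRingEnd ℂ) (nn (ω m))‖ ≤ c * (r ^ (m + 1) * ‖nn (ω m)‖) := by
        intro m _
        refine (norm_add_le _ _).trans ?_
        rw [norm_mul, norm_mul, RCLike.norm_conj, hc, add_mul, ← mul_assoc, ← mul_assoc]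
        exact add_le_add (mul_le_mul_of_nonneg_right (hAn m) (norm_nonneg _)) (mul_le_mul_of_nonneg_right (hBn m) (norm_nonneg _))
      refine (Finset.sum_le_sum h1).trans ?_
      rw [← Finset.mul_sum]
      have hc0 : 0 ≤ c := by rw [hc]; positivity
      refine mul_le_mul_of_nonneg_left ?_ hc0
      unfold mj
      exact (Gd_sum hω hr0 hr1).sum_le_tsum _ fun m _ => by positivity
    · filter_upwards [Gd_ae] with ω hω
      rw [← Complex.exp_conj, ← Complex.exp_add]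
      refine (Complex.continuous_exp.tendsto _).comp ?_
      have h1 : HasSum (fun m => A m * nn (ω m)) (∑ j, x j * gf ω (w j)) := by
        have h2 : HasSum (fun m => ∑ j, x j * (nn (ω m) * (w j ^ (m + 1) / (Real.sqrt (m + 1) : ℂ)))) (∑ j, x j * gf ω (w j)) :=
          hasSum_sum fun j _ => (gf_summable hω (hw j)).hasSum.mul_left _
        refine h2.congr_fun fun m => ?_
        rw [hA, Finset.sum_mul]
        refine Finset.sum_congr rfl fun j _ => ?_
        ring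
      have h3 : HasSum (fun m => B m * (starRingEnd ℂ) (nn (ω m))) ((starRingEnd ℂ) (∑ j, y j * gf ω (w j))) := by
        have h2 : HasSum (fun m => ∑ j, y j * (nn (ω m) * (w j ^ (m + 1) / (Real.sqrt (m + 1) : ℂ)))) (∑ j, y j * gf ω (w j)) :=
          hasSum_sum fun j _ => (gf_summable hω (hw j)).hasSum.mul_left _
        have h4 := h2.map (starRingEnd ℂ) Complex.continuous_conj
        refine h4.congr_fun fun m => ?_
        rw [hB, Finset.sum_mul]
        simp only [Function.comp_apply, map_sum, map_mul, Complex.conj_ofReal]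
        refine Finset.sum_congr rfl fun j _ => ?_
        ring
      exact (h1.add h3).tendsto_sum_nat
  -- the right side
  have hR : Tendsto (fun N => ∫ ω, Complex.exp (∑ m ∈ Finset.range N, (A m * nn (ω m) + B m * (starRingEnd ℂ) (nn (ω m)))) ∂PG) atTop
      (𝓝 (Complex.exp (∑ j, ∑ l, ((x j * y l : ℝ) : ℂ) * -Complex.log (1 - w j * (starRingEnd ℂ) (w l))))) := by
    simp_rw [trunc_exp]
    refine (Complex.continuous_exp.tendsto _).comp ?_
    have h1 : HasSum (fun m : ℕ => ∑ j, ∑ l, ((x j * y l : ℝ) : ℂ) * ((w j * (starRingEnd ℂ) (w l)) ^ (m + 1) / (m + 1)))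
        (∑ j, ∑ l, ((x j * y l : ℝ) : ℂ) * -Complex.log (1 - w j * (starRingEnd ℂ) (w l))) := by
      refine hasSum_sum fun j _ => hasSum_sum fun l _ => HasSum.mul_left _ ?_
      refine Complex.hasSum_taylorSeries_neg_log' ?_
      rw [norm_mul, RCLike.norm_conj]
      have := hw j
      have := hw l
      have := norm_nonneg (w j)
      have := norm_nonneg (w l)
      nlinarith
    have h2 : HasSum (fun m => A m * B m) (∑ j, ∑ l, ((x j * y l : ℝ) : ℂ) * -Complex.log (1 - w j * (starRingEnd ℂ) (w l))) := by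
      refine h1.congr_fun fun m => ?_
      rw [hA, hB, Finset.sum_mul_sum]
      refine Finset.sum_congr rfl fun j _ => Finset.sum_congr rfl fun l _ => ?_
      rw [map_div₀, map_pow, Complex.conj_ofReal]
      have h3 : ((Real.sqrt ((m : ℝ) + 1) : ℝ) : ℂ) * ((Real.sqrt ((m : ℝ) + 1) : ℝ) : ℂ) = (m : ℂ) + 1 := by
        rw [← Complex.ofReal_mul, Real.mul_self_sqrt (by positivity)]
        push_cast
        rfl
      rw [mul_mul_mul_comm, div_mul_div_comm, h3, mul_pow]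
      push_cast
      ring
    exact h2.tendsto_sum_nat
  exact tendsto_nhds_unique hL hR

end Pool.Agent.X111.FL
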