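import Pool.Agent.X111.FL.Zlaw

set_option autoImplicit false
set_option linter.unusedSectionVars false

/-! Moments of homogeneous functions of the values of zeta at finitely many points of a line near the critical line. -/

namespace Pool.Agent.X111.FL

open MeasureTheory ProbabilityTheory Filter Topology
open Pool.Agent.Y755
open Pool.Agent.Y753.NL
open Pool.Agent.Y753.SHR
open Pool.Agent.H306R2 (aF aF_pos)
open Pool.Agent.X111.JD (zc zc_norm zc_cont PT PT_fin PT_integral PT_integrable law cg mu sd)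

/-- approximation of limits -/
lemma three_eps {A : ℝ → ℝ} {L : ℝ} (h : ∀ ε : ℝ, 0 < ε → ∃ (B E : ℝ → ℝ) (b e : ℝ), Tendsto B atTop (𝓝 b) ∧ Tendsto E atTop (𝓝 e) ∧ e < ε ∧
    |b - L| < ε ∧ ∀ᶠ T in atTop, |A T - B T| ≤ E T) : Tendsto A atTop (𝓝 L) := by
  rw [Metric.tendsto_nhds]
  intro ε hε
  obtain ⟨B, E, b, e, hB, hE, he, hb, hAB⟩ := h (ε / 3) (by positivity)
  rw [Metric.tendsto_nhds] at hB
  filter_upwards [hB (ε / 3) (by positivity), hE.eventually (gt_mem_nhds he), hAB] with T h1 h2 h3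
  rw [Real.dist_eq] at h1 ⊢
  have e1 : A T - L = (A T - B T) + (B T - b) + (b - L) := by ring
  rw [e1]
  calc |(A T - B T) + (B T - b) + (b - L)| ≤ |A T - B T| + |B T - b| + |b - L| := abs_add_three _ _ _
    _ < ε := by linarith

/-- a continuous homogeneous function is bounded by a multiple of the norm -/
lemma hom_bd {n : ℕ} {k : ℝ} (hk : 0 < k) {F : (Fin n → ℂ) → ℝ} (hF : Continuous F)
    (hom : ∀ (c : ℂ) (v : Fin n → ℂ), F (fun j => c * v j) = ‖c‖ ^ (2 * k) * F v) : ∃ C : ℝ, 0 ≤ C ∧ ∀ v, |F v| ≤ C * ‖v‖ ^ (2 * k) := by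
  obtain ⟨C, hC⟩ := (isCompact_closedBall (0 : Fin n → ℂ) 1).exists_bound_of_continuousOn hF.continuousOn
  refine ⟨max C 0, le_max_right _ _, fun v => ?_⟩
  rcases eq_or_ne v 0 with h | h
  · have h1 : F v = 0 := by
      have := hom 0 v
      rw [norm_zero, Real.zero_rpow (by positivity), zero_mul] at this
      rw [← this]
      congr 1
      rw [h]
      funext j
      simp
    rw [h1, abs_zero]
    positivity
  · have hv : 0 < ‖v‖ := norm_pos_iff.mpr h
    have hvc : (‖v‖ : ℂ) ≠ 0 := by exact_mod_cast hv.ne'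
    have h1 := hom (‖v‖ : ℂ) (fun j => (‖v‖ : ℂ)⁻¹ * v j)
    have e1 : (fun j => (‖v‖ : ℂ) * ((‖v‖ : ℂ)⁻¹ * v j)) = v := by
      funext j
      rw [mul_inv_cancel_left₀ hvc]
    rw [e1, Complex.norm_real, norm_norm] at h1
    rw [h1, abs_mul, abs_of_nonneg (by positivity), mul_comm]
    refine mul_le_mul_of_nonneg_right ?_ (by positivity)
    refine le_trans ?_ (le_max_left _ _)
    rw [← Real.norm_eq_abs]
    refine hC _ ?_
    rw [mem_closedBall_zero_iff, pi_norm_le_iff_of_nonneg zero_le_one]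
    intro j
    rw [norm_mul, norm_inv, Complex.norm_real, norm_norm, inv_mul_le_iff₀ hv, mul_one]
    exact norm_le_pi_norm v j

/-- the cutoff -/
noncomputable def ct {n : ℕ} (K : ℝ) (v : Fin n → ℂ) : ℝ := min 1 (max 0 (K + 1 - ‖v‖))

lemma ct_cont {n : ℕ} (K : ℝ) : Continuous (ct K : (Fin n → ℂ) → ℝ) := by
  unfold ct
  fun_prop

lemma ct_nn {n : ℕ} (K : ℝ) (v : Fin n → ℂ) : 0 ≤ ct K v := le_min zero_le_one (le_max_left _ _)

lemma ct_le {n : ℕ} (K : ℝ) (v : Fin n → ℂ) : ct K v ≤ 1 := min_le_left _ _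

lemma ct_zero {n : ℕ} {K : ℝ} {v : Fin n → ℂ} (h : K + 1 ≤ ‖v‖) : ct K v = 0 := by
  unfold ct
  rw [max_eq_left (by linarith), min_eq_right (by norm_num)]

lemma ct_one {n : ℕ} {K : ℝ} {v : Fin n → ℂ} (h : ‖v‖ ≤ K) : ct K v = 1 := by
  unfold ct
  rw [max_eq_right (by linarith), min_eq_left (by linarith)]

/-- the truncated function -/
noncomputable def gk {n : ℕ} {k : ℝ} {F : (Fin n → ℂ) → ℝ} (hF : Continuous F) {C : ℝ} (hC0 : 0 ≤ C) (hk : 0 < k) (hC : ∀ v, |F v| ≤ C * ‖v‖ ^ (2 * k))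
    (K : ℕ) : BoundedContinuousFunction (Fin n → ℂ) ℝ :=
  BoundedContinuousFunction.ofNormedAddCommGroup (fun v => F v * ct K v) (hF.mul (ct_cont K)) (C * ((K : ℝ) + 1) ^ (2 * k)) (fun v => by
    rw [norm_mul, Real.norm_eq_abs, Real.norm_of_nonneg (ct_nn _ _)]
    rcases le_or_gt ((K : ℝ) + 1) ‖v‖ with h | h
    · rw [ct_zero h, mul_zero]
      positivity
    · calc |F v| * ct K v ≤ |F v| * 1 := mul_le_mul_of_nonneg_left (ct_le _ _) (abs_nonneg _)
        _ = |F v| := mul_one _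
        _ ≤ C * ‖v‖ ^ (2 * k) := hC v
        _ ≤ C * ((K : ℝ) + 1) ^ (2 * k) := by
            refine mul_le_mul_of_nonneg_left (Real.rpow_le_rpow (norm_nonneg _) h.le (by positivity)) hC0)

/-- the test function of large ratios -/
noncomputable def ps (K : ℕ) : BoundedContinuousFunction ℂ ℝ :=
  BoundedContinuousFunction.ofNormedAddCommGroup (fun x : ℂ => min 1 (max 0 (2 - K * ‖x‖))) (by fun_prop) 1 (fun x => by
    rw [Real.norm_of_nonneg (le_min zero_le_one (le_max_left _ _))]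
    exact min_le_left _ _)

lemma ps_apply (K : ℕ) (x : ℂ) : ps K x = min 1 (max 0 (2 - K * ‖x‖)) := rfl

lemma ps_nn (K : ℕ) (x : ℂ) : 0 ≤ ps K x := le_min zero_le_one (le_max_left _ _)

lemma ps_le (K : ℕ) (x : ℂ) : ps K x ≤ 1 := min_le_left _ _

lemma ps_one {K : ℕ} {x : ℂ} (h : K * ‖x‖ ≤ 1) : ps K x = 1 := by
  rw [ps_apply, max_eq_right (by linarith), min_eq_left (by linarith)]

lemma ps_lim (μ : ProbabilityMeasure ℂ) : Tendsto (fun K : ℕ => ∫ z, ps K (Complex.exp z) ∂(μ : Measure ℂ)) atTop (𝓝 0) := by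
  have e1 : (0:ℝ) = ∫ _z : ℂ, (0:ℝ) ∂(μ : Measure ℂ) := by simp
  rw [e1]
  refine tendsto_integral_of_dominated_convergence (fun _ => 1) (fun K => ((ps K).continuous.comp Complex.continuous_exp).aestronglyMeasurable)
    (integrable_const _) (fun K => Eventually.of_forall fun v => ?_) (Eventually.of_forall fun v => ?_)
  · rw [Real.norm_of_nonneg (ps_nn _ _)]
    exact ps_le _ _
  · obtain ⟨K0, hK0⟩ := exists_nat_ge (2 / ‖Complex.exp v‖)
    refine tendsto_const_nhds.congr' ?_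
    filter_upwards [eventually_ge_atTop K0] with K hK
    have h1 : (K0 : ℝ) ≤ K := by exact_mod_cast hK
    have h2 : 0 < ‖Complex.exp v‖ := norm_pos_iff.mpr (Complex.exp_ne_zero v)
    have h3 : 2 ≤ K * ‖Complex.exp v‖ := by
      rw [div_le_iff₀ h2] at hK0
      nlinarith
    rw [ps_apply, max_eq_left (by linarith), min_eq_right (by norm_num)]

/-- the integrability of the limit -/
lemma lim_int {n : ℕ} {k : ℝ} (hk : 0 < k) (h : Fin n → ℝ) {F : (Fin n → ℂ) → ℝ} (hF : Continuous F) {C : ℝ} (hC0 : 0 ≤ C)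
    (hC : ∀ v, |F v| ≤ C * ‖v‖ ^ (2 * k)) : ∃ g : (ℕ → ℝ × ℝ) → ℝ, Integrable g PG ∧ (∀ᵐ ω ∂PG, |F (fun j => Complex.exp (lgv k h ω j))| ≤ g ω) ∧
      AEStronglyMeasurable (fun ω => F (fun j => Complex.exp (lgv k h ω j))) PG := by
  obtain ⟨C', r, hr0, hr1, hC', hb⟩ := lgv_norm k h
  refine ⟨fun ω => C * Real.exp (2 * k * C') * Real.exp (2 * k * n * mj r ω), (mj_exp hr0 hr1 _).const_mul _, ?_, ?_⟩
  · filter_upwards [Gd_ae] with ω hω
    refine (hC _).trans ?_
    rw [mul_assoc]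
    refine mul_le_mul_of_nonneg_left ?_ hC0
    have h1 : ‖fun j => Complex.exp (lgv k h ω j)‖ ≤ Real.exp (C' + n * mj r ω) := by
      rw [pi_norm_le_iff_of_nonneg (Real.exp_pos _).le]
      intro j
      rw [Complex.norm_exp]
      refine Real.exp_le_exp.mpr ((Complex.re_le_norm _).trans (le_trans ?_ (hb ω hω)))
      exact Finset.single_le_sum (f := fun j => ‖lgv k h ω j‖) (fun _ _ => norm_nonneg _) (Finset.mem_univ j)
    refine (Real.rpow_le_rpow (norm_nonneg _) h1 (by positivity)).trans (le_of_eq ?_)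
    rw [← Real.exp_mul, ← Real.exp_add]
    congr 1
    ring
  · have co : Continuous (fun v : EE (Fin n) => v.ofLp) := PiLp.continuous_ofLp 2 (fun _ : Fin n => ℂ)
    have cc : Continuous (fun v : EE (Fin n) => F (fun j => Complex.exp (v.ofLp j))) :=
      hF.comp (continuous_pi fun j => Complex.continuous_exp.comp ((continuous_apply j).comp co))
    exact (cc.measurable.comp_aemeasurable (lgv_meas k h)).aestronglyMeasurable

/-- **Homogeneous functions of finitely many values.** -/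
theorem homog {k : ℝ} (hk : 0 < k) (hk2 : k ≤ 2) {δ : ℝ → ℝ} (hδ : Tendsto δ atTop (𝓝 0))
    (hδL : Tendsto (fun T => δ T * Real.log T) atTop atTop) {n : ℕ} (h : Fin n → ℝ) {F : (Fin n → ℂ) → ℝ} (hF : Continuous F)
    (hom : ∀ (c : ℂ) (v : Fin n → ℂ), F (fun j => c * v j) = ‖c‖ ^ (2 * k) * F v) :
    Tendsto (fun T => (2 * δ T) ^ (k ^ 2) / T * ∫ t in Set.Icc 0 T, F (fun j => zc (δ T) (h j) t)) atTop
      (𝓝 (aF k * ∫ ω, F (fun j => Complex.exp (lgv k h ω j)) ∂PG)) := by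
  obtain ⟨C, hC0, hC⟩ := hom_bd hk hF hom
  have ha := aF_pos hk
  -- the limits of the truncations
  have hB : ∀ K : ℕ, Tendsto (fun T => (2 * δ T) ^ (k ^ 2) / T * ∫ t in Set.Icc 0 T, za (δ T) 0 t ^ (2 * k) *
      gk hF hC0 hk hC K (fun j => zc (δ T) (h j) t / zc (δ T) 0 t)) atTop
      (𝓝 (aF k * ∫ ω, gk hF hC0 hk hC K (fun j => Complex.exp (lgv k h ω j)) ∂PG)) :=
    fun K => lawz hk hk2 hδ hδL h (gk hF hC0 hk hC K)
  have hE : ∀ K : ℕ, Tendsto (fun T => C * ∑ i, ((2 * δ T) ^ (k ^ 2) / T * ∫ t in Set.Icc 0 T, za (δ T) (h i) t ^ (2 * k) *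
      ps K (zc (δ T) 0 t / zc (δ T) (h i) t))) atTop
      (𝓝 (C * ∑ i, (aF k * ∫ z, ps K (Complex.exp z) ∂(cg (mu k (0 - h i)) (sd (0 - h i)) : Measure ℂ)))) :=
    fun K => (tendsto_finsetSum _ fun i _ => law hk hk2 hδ hδL (h i) 0 (ps K)).const_mul C
  have hE0 : Tendsto (fun K : ℕ => C * ∑ i, (aF k * ∫ z, ps K (Complex.exp z) ∂(cg (mu k (0 - h i)) (sd (0 - h i)) : Measure ℂ))) atTop (𝓝 0) := by
    have h1 : Tendsto (fun K : ℕ => C * ∑ i, (aF k * ∫ z, ps K (Complex.exp z) ∂(cg (mu k (0 - h i)) (sd (0 - h i)) : Measure ℂ))) atTop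
        (𝓝 (C * ∑ _i : Fin n, (aF k * 0))) := (tendsto_finsetSum _ fun i _ => (ps_lim _).const_mul _).const_mul C
    simpa using h1
  -- the limit of the limits
  obtain ⟨g, hg1, hg2, hg3⟩ := lim_int hk h hF hC0 hC
  have hL : Tendsto (fun K : ℕ => aF k * ∫ ω, gk hF hC0 hk hC K (fun j => Complex.exp (lgv k h ω j)) ∂PG) atTop
      (𝓝 (aF k * ∫ ω, F (fun j => Complex.exp (lgv k h ω j)) ∂PG)) := by
    refine Tendsto.const_mul _ ?_
    refine tendsto_integral_of_dominated_convergence g (fun K => ?_) hg1 (fun K => ?_) (Eventually.of_forall fun ω => ?_)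
    · have co : Continuous (fun v : EE (Fin n) => v.ofLp) := PiLp.continuous_ofLp 2 (fun _ : Fin n => ℂ)
      have cc : Continuous (fun v : EE (Fin n) => gk hF hC0 hk hC K (fun j => Complex.exp (v.ofLp j))) :=
        (gk hF hC0 hk hC K).continuous.comp (continuous_pi fun j => Complex.continuous_exp.comp ((continuous_apply j).comp co))
      exact (cc.measurable.comp_aemeasurable (lgv_meas k h)).aestronglyMeasurable
    · filter_upwards [hg2] with ω hω
      show ‖F (fun j => Complex.exp (lgv k h ω j)) * ct K (fun j => Complex.exp (lgv k h ω j))‖ ≤ g ω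
      rw [norm_mul, Real.norm_eq_abs, Real.norm_of_nonneg (ct_nn _ _)]
      exact (mul_le_of_le_one_right (abs_nonneg _) (ct_le _ _)).trans hω
    · obtain ⟨K0, hK0⟩ := exists_nat_ge ‖fun j => Complex.exp (lgv k h ω j)‖
      refine tendsto_const_nhds.congr' ?_
      filter_upwards [eventually_ge_atTop K0] with K hK
      have h1 : (K0 : ℝ) ≤ K := by exact_mod_cast hK
      show F (fun j => Complex.exp (lgv k h ω j)) = F (fun j => Complex.exp (lgv k h ω j)) * ct K (fun j => Complex.exp (lgv k h ω j))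
      rw [ct_one (by linarith), mul_one]
  refine three_eps fun ε hε => ?_
  rw [Metric.tendsto_nhds] at hL
  obtain ⟨K, hK1, hK2⟩ := ((hE0.eventually (gt_mem_nhds hε)).and (hL ε hε)).exists
  rw [Real.dist_eq] at hK2
  refine ⟨_, _, _, _, hB K, hE K, hK1, hK2, ?_⟩
  filter_upwards [pos_path hδL, hδ.eventually (gt_mem_nhds (show (0:ℝ) < 1 / 2 by norm_num)), eventually_gt_atTop 0] with T hd hd2 hT
  obtain ⟨c, hc⟩ : ∃ c : ℝ, c = (2 * δ T) ^ (k ^ 2) / T := ⟨_, rfl⟩
  have hc0 : 0 ≤ c := by rw [hc]; positivity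
  rw [← hc]
  have cz : ∀ u, Continuous (zc (δ T) u) := zc_cont hd2
  have ca : ∀ u, Continuous fun t => za (δ T) u t ^ (2 * k) := fun u => (za_cont hd2 u).rpow_const fun t => Or.inr (by positivity)
  have ia : ∀ u, IntegrableOn (fun t => za (δ T) u t ^ (2 * k)) (Set.Icc 0 T) := fun u => (ca u).continuousOn.integrableOn_compact isCompact_Icc
  have i1 : IntegrableOn (fun t => F (fun j => zc (δ T) (h j) t)) (Set.Icc 0 T) :=
    (hF.comp (continuous_pi fun j => cz (h j))).continuousOn.integrableOn_compact isCompact_Icc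
  have mr : Measurable fun t => fun j => zc (δ T) (h j) t / zc (δ T) 0 t := measurable_pi_lambda _ fun j => (cz (h j)).measurable.div (cz 0).measurable
  have i2 : IntegrableOn (fun t => za (δ T) 0 t ^ (2 * k) * gk hF hC0 hk hC K (fun j => zc (δ T) (h j) t / zc (δ T) 0 t)) (Set.Icc 0 T) := by
    refine ((ia 0).mul_const (C * ((K : ℝ) + 1) ^ (2 * k))).mono (((ca 0).measurable.mul ((gk hF hC0 hk hC K).continuous.measurable.comp mr)).aestronglyMeasurable)
      (Eventually.of_forall fun t => ?_)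
    rw [norm_mul, norm_mul]
    refine mul_le_mul_of_nonneg_left ?_ (norm_nonneg _)
    rw [Real.norm_of_nonneg (show 0 ≤ C * ((K : ℝ) + 1) ^ (2 * k) by positivity)]
    refine ((gk hF hC0 hk hC K).norm_coe_le_norm _).trans ?_
    exact BoundedContinuousFunction.norm_ofNormedAddCommGroup_le _ (by positivity) _
  have i3 : ∀ i, IntegrableOn (fun t => za (δ T) (h i) t ^ (2 * k) * ps K (zc (δ T) 0 t / zc (δ T) (h i) t)) (Set.Icc 0 T) := by
    intro i
    refine Integrable.mono (ia (h i)) (((ca (h i)).measurable.mul ((ps K).continuous.measurable.comp ((cz 0).measurable.div (cz (h i)).measurable))).aestronglyMeasurable)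
      (Eventually.of_forall fun t => ?_)
    rw [norm_mul, Real.norm_of_nonneg (ps_nn _ _)]
    exact mul_le_of_le_one_right (norm_nonneg _) (ps_le _ _)
  rw [← mul_sub, ← integral_sub i1 i2, abs_mul, abs_of_nonneg hc0, ← Finset.mul_sum, ← integral_finsetSum _ fun i _ => i3 i, ← mul_assoc, mul_comm C c,
    mul_assoc, ← integral_const_mul]
  refine mul_le_mul_of_nonneg_left ?_ hc0
  rw [← Real.norm_eq_abs]
  refine norm_integral_le_of_norm_le ((integrable_finsetSum _ fun i _ => i3 i).const_mul C) (ae_restrict_of_ae ?_)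
  have hall : ∀ᵐ t : ℝ, ∀ j, riemannZeta (1 / 2 + δ T + ((t + h j * δ T : ℝ) : ℂ) * Complex.I) ≠ 0 := by
    rw [ae_all_iff]
    exact fun j => zeros_ae (δ T) (h j * δ T)
  filter_upwards [zeros_ae (δ T) (0 * δ T), hall] with t z0 z1
  have y0 : zc (δ T) 0 t ≠ 0 := z0
  have y1 : ∀ j, zc (δ T) (h j) t ≠ 0 := z1
  obtain ⟨v, hv⟩ : ∃ v : Fin n → ℂ, v = fun j => zc (δ T) (h j) t / zc (δ T) 0 t := ⟨_, rfl⟩
  have eF : F (fun j => zc (δ T) (h j) t) = za (δ T) 0 t ^ (2 * k) * F v := by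
    rw [← zc_norm, ← hom, hv]
    congr 1
    funext j
    rw [mul_div_cancel₀ _ y0]
  rw [← hv, eF]
  show ‖za (δ T) 0 t ^ (2 * k) * F v - za (δ T) 0 t ^ (2 * k) * (F v * ct K v)‖ ≤ _
  have e2 : za (δ T) 0 t ^ (2 * k) * F v - za (δ T) 0 t ^ (2 * k) * (F v * ct K v) = za (δ T) 0 t ^ (2 * k) * F v * (1 - ct K v) := by ring
  have hz : 0 ≤ za (δ T) 0 t := za_nonneg _ _ _
  rw [e2, norm_mul, norm_mul, Real.norm_of_nonneg (Real.rpow_nonneg hz _), Real.norm_of_nonneg (by linarith [ct_le (K : ℝ) v] : 0 ≤ 1 - ct K v),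
    Real.norm_eq_abs]
  have hsum : 0 ≤ ∑ i, za (δ T) (h i) t ^ (2 * k) * ps K (zc (δ T) 0 t / zc (δ T) (h i) t) :=
    Finset.sum_nonneg fun i _ => mul_nonneg (Real.rpow_nonneg (za_nonneg _ _ _) _) (ps_nn _ _)
  rcases le_or_gt ‖v‖ K with hvK | hvK
  · rw [ct_one hvK, sub_self, mul_zero]
    exact mul_nonneg hC0 hsum
  · -- the largest coordinate
    have hex : ∃ i, ‖v‖ = ‖v i‖ := by
      by_contra hcon
      push Not at hcon
      have h1 : ‖v‖ < ‖v‖ := by
        have h2 : 0 < ‖v‖ := lt_of_le_of_lt (Nat.cast_nonneg K) hvK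
        refine (pi_norm_lt_iff h2).mpr fun i => ?_
        exact lt_of_le_of_ne (norm_le_pi_norm v i) (hcon i).symm
      exact lt_irrefl _ h1
    obtain ⟨i, hi⟩ := hex
    have e3 : za (δ T) 0 t * ‖v i‖ = za (δ T) (h i) t := by
      rw [hv, ← zc_norm, ← zc_norm]
      simp only
      rw [norm_div, mul_div_cancel₀ _ (norm_ne_zero_iff.mpr y0)]
    have hps : ps K (zc (δ T) 0 t / zc (δ T) (h i) t) = 1 := by
      refine ps_one ?_
      have e4 : ‖zc (δ T) 0 t / zc (δ T) (h i) t‖ = ‖v‖⁻¹ := by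
        rw [hi, hv]
        simp only
        rw [norm_div, norm_div, inv_div]
      rw [e4, mul_inv_le_iff₀ (lt_of_le_of_lt (Nat.cast_nonneg K) hvK), one_mul]
      exact hvK.le
    calc za (δ T) 0 t ^ (2 * k) * |F v| * (1 - ct K v) ≤ za (δ T) 0 t ^ (2 * k) * |F v| * 1 :=
          mul_le_mul_of_nonneg_left (by linarith [ct_nn (K : ℝ) v]) (mul_nonneg (Real.rpow_nonneg hz _) (abs_nonneg _))
      _ ≤ za (δ T) 0 t ^ (2 * k) * (C * ‖v‖ ^ (2 * k)) := by
          rw [mul_one]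
          exact mul_le_mul_of_nonneg_left (hC v) (Real.rpow_nonneg hz _)
      _ = C * (za (δ T) 0 t * ‖v i‖) ^ (2 * k) := by
          rw [hi, Real.mul_rpow hz (norm_nonneg _)]
          ring
      _ = C * (za (δ T) (h i) t ^ (2 * k) * ps K (zc (δ T) 0 t / zc (δ T) (h i) t)) := by rw [e3, hps, mul_one]
      _ ≤ C * ∑ i, za (δ T) (h i) t ^ (2 * k) * ps K (zc (δ T) 0 t / zc (δ T) (h i) t) := by
          refine mul_le_mul_of_nonneg_left ?_ hC0
          exact Finset.single_le_sum (f := fun i => za (δ T) (h i) t ^ (2 * k) * ps K (zc (δ T) 0 t / zc (δ T) (h i) t))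
            (fun i _ => mul_nonneg (Real.rpow_nonneg (za_nonneg _ _ _) _) (ps_nn _ _)) (Finset.mem_univ i)

end Pool.Agent.X111.FL
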