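import Pool.Agent.X111.FL.Main

set_option autoImplicit false
set_option linter.unusedSectionVars false

/-! Approximable linear functionals, and homogeneous functions of them. -/

namespace Pool.Agent.X111.FL

open MeasureTheory ProbabilityTheory Filter Topology

/-- the value of a discrete measure on the line -/
noncomputable def dm (μ : ℝ →₀ ℂ) (f : ℂ → ℂ) : ℂ := μ.sum fun x c => c * f (Complex.I * x)

/-- approximable linear functionals -/
def LA (H : ℝ) (l : (ℂ → ℂ) → ℂ) : Prop := ∀ ε : ℝ, 0 < ε → ∃ μ : ℝ →₀ ℂ, (∀ x ∈ μ.support, |x| < H + 1) ∧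
  ∀ (f : ℂ → ℂ) (S : ℝ), DifferentiableOn ℂ f (D1 H) → (∀ z ∈ D1 H, ‖f z‖ ≤ S) → ‖l f - dm μ f‖ ≤ ε * S

lemma LA_eval {H a : ℝ} (ha : |a| < H + 1) : LA H (fun f => f (Complex.I * a)) := by
  intro ε hε
  refine ⟨Finsupp.single a 1, fun x hx => ?_, fun f S _ hS => ?_⟩
  · have := Finsupp.support_single_subset hx
    rw [Finset.mem_singleton] at this
    rw [this]
    exact ha
  · unfold dm
    rw [Finsupp.sum_single_index (by simp), one_mul, sub_self, norm_zero]
    have h0 : Complex.I * a ∈ D1 H := ⟨by simp, by simpa using ha⟩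
    exact mul_nonneg hε.le ((norm_nonneg _).trans (hS _ h0))

lemma dm_add (μ ν : ℝ →₀ ℂ) (f : ℂ → ℂ) : dm (μ + ν) f = dm μ f + dm ν f := by
  unfold dm
  exact Finsupp.sum_add_index' (by simp) (fun x a b => by ring)

lemma dm_smul (c : ℂ) (μ : ℝ →₀ ℂ) (f : ℂ → ℂ) : dm (c • μ) f = c * dm μ f := by
  unfold dm
  rw [Finsupp.sum_smul_index' (by simp), Finsupp.sum, Finsupp.sum, Finset.mul_sum]
  refine Finset.sum_congr rfl fun x _ => ?_
  rw [smul_eq_mul]
  ring

lemma LA_smul {H : ℝ} {l : (ℂ → ℂ) → ℂ} (hl : LA H l) (c : ℂ) : LA H (fun f => c * l f) := by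
  intro ε hε
  obtain ⟨μ, h1, h2⟩ := hl (ε / (‖c‖ + 1)) (by positivity)
  refine ⟨c • μ, fun x hx => h1 x (Finsupp.support_smul hx), fun f S hf hS => ?_⟩
  have h0 : (0 : ℂ) ∈ D1 H ∨ ¬ (0 : ℂ) ∈ D1 H := em _
  rw [dm_smul, ← mul_sub, norm_mul]
  have h3 := h2 f S hf hS
  have h4 : 0 ≤ ε / (‖c‖ + 1) * S := (norm_nonneg _).trans h3
  calc ‖c‖ * ‖l f - dm μ f‖ ≤ (‖c‖ + 1) * (ε / (‖c‖ + 1) * S) := mul_le_mul (by linarith) h3 (norm_nonneg _) (by positivity)
    _ = ε * S := by field_simp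

lemma LA_add {H : ℝ} {l m : (ℂ → ℂ) → ℂ} (hl : LA H l) (hm : LA H m) : LA H (fun f => l f + m f) := by
  intro ε hε
  obtain ⟨μ, h1, h2⟩ := hl (ε / 2) (by positivity)
  obtain ⟨ν, g1, g2⟩ := hm (ε / 2) (by positivity)
  refine ⟨μ + ν, fun x hx => ?_, fun f S hf hS => ?_⟩
  · classical
    rcases Finset.mem_union.mp (Finsupp.support_add hx) with h | h
    · exact h1 x h
    · exact g1 x h
  · rw [dm_add]
    have e1 : l f + m f - (dm μ f + dm ν f) = (l f - dm μ f) + (m f - dm ν f) := by ring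
    rw [e1]
    refine (norm_add_le _ _).trans ?_
    have := h2 f S hf hS
    have := g2 f S hf hS
    linarith

lemma LA_lim {H : ℝ} {l : (ℂ → ℂ) → ℂ} (h : ∀ ε : ℝ, 0 < ε → ∃ m : (ℂ → ℂ) → ℂ, LA H m ∧ ∀ (f : ℂ → ℂ) (S : ℝ), DifferentiableOn ℂ f (D1 H) →
    (∀ z ∈ D1 H, ‖f z‖ ≤ S) → ‖l f - m f‖ ≤ ε * S) : LA H l := by
  intro ε hε
  obtain ⟨m, hm, h1⟩ := h (ε / 2) (by positivity)
  obtain ⟨μ, g1, g2⟩ := hm (ε / 2) (by positivity)
  refine ⟨μ, g1, fun f S hf hS => ?_⟩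
  have e1 : l f - dm μ f = (l f - m f) + (m f - dm μ f) := by ring
  rw [e1]
  refine (norm_add_le _ _).trans ?_
  have := h1 f S hf hS
  have := g2 f S hf hS
  linarith

lemma dm_bd {H : ℝ} {μ : ℝ →₀ ℂ} (h : ∀ x ∈ μ.support, |x| < H + 1) {f : ℂ → ℂ} {S : ℝ} (hS : ∀ z ∈ D1 H, ‖f z‖ ≤ S) :
    ‖dm μ f‖ ≤ (∑ x ∈ μ.support, ‖μ x‖) * S := by
  unfold dm
  rw [Finsupp.sum, Finset.sum_mul]
  refine (norm_sum_le _ _).trans (Finset.sum_le_sum fun x hx => ?_)
  rw [norm_mul]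
  refine mul_le_mul_of_nonneg_left (hS _ ⟨?_, ?_⟩) (norm_nonneg _)
  · simp
  · simpa using h x hx

/-- homogeneous functions of approximable linear functionals are approximable -/
theorem Apx_lin {k H : ℝ} (hH : 0 ≤ H) {m : ℕ} {l : Fin m → (ℂ → ℂ) → ℂ} (hl : ∀ i, LA H (l i)) {F : (Fin m → ℂ) → ℝ} (hF : Continuous F)
    (hom : ∀ (c : ℂ) (v : Fin m → ℂ), F (fun j => c * v j) = ‖c‖ ^ (2 * k) * F v) : Apx k H (fun f => F (fun i => l i f)) := by
  classical
  intro ε hε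
  -- bounds for the functionals
  have hbd : ∃ M : ℝ, 0 ≤ M ∧ ∀ (f : ℂ → ℂ) (S : ℝ), DifferentiableOn ℂ f (D1 H) → (∀ z ∈ D1 H, ‖f z‖ ≤ S) → ∀ i, ‖l i f‖ ≤ M * S := by
    choose μ h1 h2 using fun i => hl i 1 one_pos
    refine ⟨∑ i, (1 + ∑ x ∈ (μ i).support, ‖μ i x‖), by positivity, fun f S hf hS i => ?_⟩
    have h0 : (0:ℂ) ∈ D1 H := by
      refine ⟨?_, ?_⟩ <;> simp
      linarith
    have hS0 : 0 ≤ S := (norm_nonneg _).trans (hS _ h0)
    have h3 := h2 i f S hf hS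
    have h4 := dm_bd (h1 i) hS
    have h5 : ‖l i f‖ ≤ (1 + ∑ x ∈ (μ i).support, ‖μ i x‖) * S := by
      have := norm_add_le (l i f - dm (μ i) f) (dm (μ i) f)
      rw [sub_add_cancel] at this
      linarith
    refine h5.trans (mul_le_mul_of_nonneg_right ?_ hS0)
    exact Finset.single_le_sum (f := fun i => 1 + ∑ x ∈ (μ i).support, ‖μ i x‖) (fun i _ => by positivity) (Finset.mem_univ i)
  obtain ⟨M, hM0, hM⟩ := hbd
  -- uniform continuity
  have hu := (isCompact_closedBall (0 : Fin m → ℂ) (M + 1)).uniformContinuousOn_of_continuous hF.continuousOn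
  rw [Metric.uniformContinuousOn_iff] at hu
  obtain ⟨η, hη, hu⟩ := hu ε hε
  obtain ⟨θ, hθ⟩ : ∃ θ : ℝ, θ = min (η / 2) 1 := ⟨_, rfl⟩
  have hθ0 : 0 < θ := by rw [hθ]; positivity
  have hθ1 : θ ≤ η / 2 := by rw [hθ]; exact min_le_left _ _
  have hθ2 : θ ≤ 1 := by rw [hθ]; exact min_le_right _ _
  choose μ h1 h2 using fun i => hl i θ hθ0
  obtain ⟨s, hs⟩ : ∃ s : Finset ℝ, s = Finset.univ.biUnion fun i => (μ i).support := ⟨_, rfl⟩
  have hsub : ∀ i, (μ i).support ⊆ s := fun i => by rw [hs]; exact Finset.subset_biUnion_of_mem (fun i => (μ i).support) (Finset.mem_univ i)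
  refine ⟨s.card, fun j => (s.equivFin.symm j : ℝ), fun v => F (fun i => ∑ j, μ i (s.equivFin.symm j : ℝ) * v j), ?_, ?_, ?_⟩
  · exact hF.comp (continuous_pi fun i => continuous_finsetSum _ fun j _ => continuous_const.mul (continuous_apply j))
  · intro c v
    show F (fun i => ∑ j, μ i (s.equivFin.symm j : ℝ) * (c * v j)) = ‖c‖ ^ (2 * k) * F (fun i => ∑ j, μ i (s.equivFin.symm j : ℝ) * v j)
    rw [← hom]
    congr 1
    funext i
    rw [Finset.mul_sum]
    exact Finset.sum_congr rfl fun j _ => by ring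
  · intro f S hf hS
    have h0 : (0:ℂ) ∈ D1 H := by
      refine ⟨?_, ?_⟩ <;> simp
      linarith
    have hS0 : 0 ≤ S := (norm_nonneg _).trans (hS _ h0)
    have hd : ∀ i, ∑ j, μ i (s.equivFin.symm j : ℝ) * f (Complex.I * ((s.equivFin.symm j : ℝ) : ℂ)) = dm (μ i) f := by
      intro i
      rw [s.equivFin.symm.sum_comp (fun x : s => μ i (x : ℝ) * f (Complex.I * ((x : ℝ) : ℂ))), Finset.sum_coe_sort s (fun x => μ i x * f (Complex.I * (x : ℂ)))]
      unfold dm
      exact (Finsupp.sum_of_support_subset (μ i) (hsub i) (fun (x : ℝ) (c : ℂ) => c * f (Complex.I * x)) fun x _ => zero_mul _).symm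
    simp_rw [hd]
    rcases hS0.eq_or_lt with hS1 | hS1
    · -- the zero function
      have h3 : (fun i => l i f) = fun i => dm (μ i) f := by
        funext i
        have h4 := h2 i f S hf hS
        rw [← hS1, mul_zero] at h4
        exact sub_eq_zero.mp (norm_le_zero_iff.mp h4)
      rw [h3, sub_self, abs_zero]
      positivity
    · have hSc : (S : ℂ) ≠ 0 := by exact_mod_cast hS1.ne'
      have e1 : ∀ v : Fin m → ℂ, F v = S ^ (2 * k) * F (fun i => (S : ℂ)⁻¹ * v i) := by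
        intro v
        have := hom (S : ℂ) (fun i => (S : ℂ)⁻¹ * v i)
        rw [Complex.norm_real, Real.norm_of_nonneg hS1.le] at this
        rw [← this]
        congr 1
        funext i
        rw [mul_inv_cancel_left₀ hSc]
      rw [e1 fun i => l i f, e1 fun i => dm (μ i) f, ← mul_sub, abs_mul, abs_of_nonneg (by positivity), mul_comm ε]
      refine mul_le_mul_of_nonneg_left ?_ (by positivity)
      have hn : ∀ x : ℂ, ‖(S : ℂ)⁻¹ * x‖ = ‖x‖ / S := by
        intro x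
        rw [norm_mul, norm_inv, Complex.norm_real, Real.norm_of_nonneg hS1.le, inv_mul_eq_div]
      have b1 : (fun i => (S : ℂ)⁻¹ * l i f) ∈ Metric.closedBall (0 : Fin m → ℂ) (M + 1) := by
        rw [mem_closedBall_zero_iff, pi_norm_le_iff_of_nonneg (by positivity)]
        intro i
        rw [hn, div_le_iff₀ hS1]
        have := hM f S hf hS i
        nlinarith
      have b2 : (fun i => (S : ℂ)⁻¹ * dm (μ i) f) ∈ Metric.closedBall (0 : Fin m → ℂ) (M + 1) := by
        rw [mem_closedBall_zero_iff, pi_norm_le_iff_of_nonneg (by positivity)]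
        intro i
        rw [hn, div_le_iff₀ hS1]
        have g1 := hM f S hf hS i
        have g2 := h2 i f S hf hS
        rw [norm_sub_rev] at g2
        have g3 := norm_add_le (dm (μ i) f - l i f) (l i f)
        rw [sub_add_cancel] at g3
        nlinarith
      have h7 := hu _ b1 _ b2 (by
        rw [dist_eq_norm]
        refine lt_of_le_of_lt ((pi_norm_le_iff_of_nonneg (by positivity : (0:ℝ) ≤ η / 2)).mpr fun i => ?_) (by linarith)
        show ‖(S : ℂ)⁻¹ * l i f - (S : ℂ)⁻¹ * dm (μ i) f‖ ≤ η / 2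
        rw [← mul_sub, hn, div_le_iff₀ hS1]
        have g2 := h2 i f S hf hS
        nlinarith)
      rw [Real.dist_eq] at h7
      exact h7.le

end Pool.Agent.X111.FL
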