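import Pool.Agent.X111.FL.Path

set_option autoImplicit false
set_option linter.unusedSectionVars false

/-! Local maxima and local moments of zeta near the critical line. -/

namespace Pool.Agent.X111.FL

open MeasureTheory ProbabilityTheory Filter Topology
open Pool.Agent.Y755
open Pool.Agent.Y753.NL
open Pool.Agent.Y753.SHR
open Pool.Agent.H306R2 (aF aF_pos)

lemma line_D2 (H : ℝ) (a : Set.Icc (-H) H) : Complex.I * ((a : ℝ) : ℂ) ∈ D2 H := by
  have h1 : |(a : ℝ)| ≤ H := abs_le.mpr a.2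
  have h2 : (Complex.I * ((a : ℝ) : ℂ)).re = 0 := by simp
  have h3 : (Complex.I * ((a : ℝ) : ℂ)).im = a := by simp
  rw [mem_D2, h2, h3, abs_zero]
  exact ⟨by norm_num, by linarith⟩

lemma pth_jf {δ : ℝ} (hδ0 : 0 < δ) (hδ : δ < 1 / 4) (H t : ℝ) (a : Set.Icc (-H) H) : pth H (jf δ t) a = jf δ t (Complex.I * ((a : ℝ) : ℂ)) := by
  refine ContinuousMap.mkD_apply_of_continuous ?_
  exact (jf_contz hδ0 hδ H t).comp_continuous (by fun_prop) fun a => line_D2 H a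

lemma pth_fi (k : ℝ) {ω : ℕ → ℝ × ℝ} (hω : Gd ω) (H : ℝ) (a : Set.Icc (-H) H) : pth H (fi k ω) a = fi k ω (Complex.I * ((a : ℝ) : ℂ)) := by
  refine ContinuousMap.mkD_apply_of_continuous ?_
  exact (fi_diff k hω (H := H)).continuousOn.comp_continuous (by fun_prop) fun a => line_D2 H a

/-- **Moments of local maxima.** -/
theorem maxima {k : ℝ} (hk : 0 < k) (hk2 : k ≤ 2) {δ : ℝ → ℝ} (hδ : Tendsto δ atTop (𝓝 0))
    (hδL : Tendsto (fun T => δ T * Real.log T) atTop atTop) {H : ℝ} (hH : 0 ≤ H) :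
    Tendsto (fun T => (2 * δ T) ^ (k ^ 2) / T * ∫ t in Set.Icc 0 T, (⨆ a : Set.Icc (-H) H, ‖jf (δ T) t (Complex.I * ((a : ℝ) : ℂ))‖) ^ (2 * k)) atTop
      (𝓝 (aF k * ∫ ω, (⨆ a : Set.Icc (-H) H, ‖fi k ω (Complex.I * ((a : ℝ) : ℂ))‖) ^ (2 * k) ∂PG)) := by
  have h1 := paths hk hk2 hδ hδL hH (Φ := fun u => ‖u‖ ^ (2 * k)) (continuous_norm.rpow_const fun _ => Or.inr (by positivity)) fun c u => by
    rw [norm_smul, Real.mul_rpow (norm_nonneg _) (norm_nonneg _)]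
  have hne : Nonempty (Set.Icc (-H) H) := ⟨⟨0, by constructor <;> linarith⟩⟩
  have e1 : ∫ ω, ‖pth H (fi k ω)‖ ^ (2 * k) ∂PG = ∫ ω, (⨆ a : Set.Icc (-H) H, ‖fi k ω (Complex.I * ((a : ℝ) : ℂ))‖) ^ (2 * k) ∂PG := by
    refine integral_congr_ae ?_
    filter_upwards [Gd_ae] with ω hω
    rw [ContinuousMap.norm_eq_iSup_norm]
    simp_rw [pth_fi k hω]
  rw [e1] at h1
  refine h1.congr' ?_
  filter_upwards [pos_path hδL, hδ.eventually (gt_mem_nhds (show (0:ℝ) < 1 / 4 by norm_num))] with T hd hd2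
  congr 1
  refine integral_congr_ae (Eventually.of_forall fun t => ?_)
  show ‖pth H (jf (δ T) t)‖ ^ (2 * k) = _
  rw [ContinuousMap.norm_eq_iSup_norm]
  simp_rw [pth_jf hd hd2]

/-- Lebesgue measure on the segment -/
noncomputable def mI (H : ℝ) : Measure (Set.Icc (-H) H) := Measure.comap Subtype.val volume

instance (H : ℝ) : IsFiniteMeasure (mI H) := by
  refine ⟨?_⟩
  unfold mI
  rw [(MeasurableEmbedding.subtype_coe measurableSet_Icc).comap_apply]
  rw [Set.image_univ, Subtype.range_coe]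
  exact isCompact_Icc.measure_lt_top

/-- the local `L^b` norm -/
lemma lb_cont {H b m : ℝ} (hb : 0 < b) (hm : 0 < m) :
    Continuous fun u : C(Set.Icc (-H) H, ℂ) => (∫ a, ‖u a‖ ^ b ∂(mI H)) ^ m := by
  refine Continuous.rpow_const ?_ fun _ => Or.inr hm.le
  refine continuous_iff_continuousAt.mpr fun u => ?_
  show Tendsto (fun u : C(Set.Icc (-H) H, ℂ) => ∫ a, ‖u a‖ ^ b ∂(mI H)) (𝓝 u) (𝓝 (∫ a, ‖u a‖ ^ b ∂(mI H)))
  refine tendsto_integral_filter_of_dominated_convergence (fun _ => (‖u‖ + 1) ^ b) ?_ ?_ ?_ ?_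
  · exact Eventually.of_forall fun v => (v.continuous.norm.rpow_const fun _ => Or.inr hb.le).aestronglyMeasurable
  · filter_upwards [Metric.ball_mem_nhds u one_pos] with v hv
    refine Eventually.of_forall fun a => ?_
    rw [Real.norm_of_nonneg (by positivity)]
    refine Real.rpow_le_rpow (norm_nonneg _) ?_ hb.le
    have h1 := v.norm_coe_le_norm a
    have h2 : ‖v‖ ≤ ‖u‖ + 1 := by
      rw [Metric.mem_ball, dist_eq_norm] at hv
      have := norm_add_le (v - u) u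
      rw [sub_add_cancel] at this
      linarith
    linarith
  · exact integrable_const _
  · refine Eventually.of_forall fun a => ?_
    exact (((continuous_eval_const a).norm.rpow_const fun _ => Or.inr hb.le).tendsto u)

/-- **Moments of local moments.** -/
theorem locmom {k : ℝ} (hk : 0 < k) (hk2 : k ≤ 2) {δ : ℝ → ℝ} (hδ : Tendsto δ atTop (𝓝 0))
    (hδL : Tendsto (fun T => δ T * Real.log T) atTop atTop) {H : ℝ} (hH : 0 ≤ H) {b m : ℝ} (hb : 0 < b) (hm : 0 < m) (hbm : b * m = 2 * k) :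
    Tendsto (fun T => (2 * δ T) ^ (k ^ 2) / T * ∫ t in Set.Icc 0 T, (∫ a in Set.Icc (-H) H, ‖jf (δ T) t (Complex.I * (a : ℂ))‖ ^ b) ^ m) atTop
      (𝓝 (aF k * ∫ ω, (∫ a in Set.Icc (-H) H, ‖fi k ω (Complex.I * (a : ℂ))‖ ^ b) ^ m ∂PG)) := by
  have h1 := paths hk hk2 hδ hδL hH (Φ := fun u => (∫ a, ‖u a‖ ^ b ∂(mI H)) ^ m) (lb_cont hb hm) fun c u => by
    have e1 : ∀ a : Set.Icc (-H) H, ‖(c • u) a‖ ^ b = ‖c‖ ^ b * ‖u a‖ ^ b := by
      intro a
      rw [ContinuousMap.smul_apply, norm_smul, Real.mul_rpow (norm_nonneg _) (norm_nonneg _)]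
    simp_rw [e1]
    rw [integral_const_mul, Real.mul_rpow (by positivity) (integral_nonneg fun a => by positivity), ← Real.rpow_mul (norm_nonneg _), hbm]
  have hsub : ∀ g : ℝ → ℝ, ∫ a : Set.Icc (-H) H, g a ∂(mI H) = ∫ a in Set.Icc (-H) H, g a := fun g => integral_subtype_comap measurableSet_Icc g
  have e1 : ∫ ω, (∫ a : Set.Icc (-H) H, ‖pth H (fi k ω) a‖ ^ b ∂(mI H)) ^ m ∂PG = ∫ ω, (∫ a in Set.Icc (-H) H, ‖fi k ω (Complex.I * (a : ℂ))‖ ^ b) ^ m ∂PG := by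
    refine integral_congr_ae ?_
    filter_upwards [Gd_ae] with ω hω
    simp_rw [pth_fi k hω]
    rw [hsub fun a => ‖fi k ω (Complex.I * (a : ℂ))‖ ^ b]
  rw [e1] at h1
  refine h1.congr' ?_
  filter_upwards [pos_path hδL, hδ.eventually (gt_mem_nhds (show (0:ℝ) < 1 / 4 by norm_num))] with T hd hd2
  congr 1
  refine integral_congr_ae (Eventually.of_forall fun t => ?_)
  show (∫ a : Set.Icc (-H) H, ‖pth H (jf (δ T) t) a‖ ^ b ∂(mI H)) ^ m = _
  simp_rw [pth_jf hd hd2]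
  rw [hsub fun a => ‖jf (δ T) t (Complex.I * (a : ℂ))‖ ^ b]

end Pool.Agent.X111.FL
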