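import Pool.Agent.X111.FL.Jet

set_option autoImplicit false
set_option linter.unusedSectionVars false

/-! Continuous homogeneous functionals of the path of zeta on a segment of a line near the critical line. -/

namespace Pool.Agent.X111.FL

open MeasureTheory ProbabilityTheory Filter Topology
open Pool.Agent.Y755
open Pool.Agent.Y753.NL
open Pool.Agent.Y753.SHR
open Pool.Agent.H306R2 (aF aF_pos)

/-- the path on the line -/
noncomputable def pth (H : ℝ) (f : ℂ → ℂ) : C(Set.Icc (-H) H, ℂ) :=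
  ContinuousMap.mkD (fun a : Set.Icc (-H) H => f (Complex.I * ((a : ℝ) : ℂ))) 0

/-- the compact set of paths -/
def Kc (H : ℝ) : Set C(Set.Icc (-H) H, ℂ) := {u | (∀ a, ‖u a‖ ≤ 1) ∧ ∀ a b, ‖u a - u b‖ ≤ 4 * dist a b}

lemma Kc_compact (H : ℝ) : IsCompact (Kc H) := by
  refine ArzelaAscoli.isCompact_of_equicontinuous (Kc H) ?_ ?_
  · have e1 : ContinuousMap.toFun '' Kc H = {g : Set.Icc (-H) H → ℂ | (∀ a, ‖g a‖ ≤ 1) ∧ ∀ a b, ‖g a - g b‖ ≤ 4 * dist a b} := by
      ext g
      constructor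
      · rintro ⟨u, hu, rfl⟩
        exact hu
      · intro hg
        have hc : Continuous g := by
          have : LipschitzWith 4 g := LipschitzWith.of_dist_le_mul fun a b => by
            rw [dist_eq_norm]
            exact_mod_cast hg.2 a b
          exact this.continuous
        exact ⟨⟨g, hc⟩, hg, rfl⟩
    rw [e1]
    refine IsCompact.of_isClosed_subset (isCompact_univ_pi fun _ : Set.Icc (-H) H => isCompact_closedBall (0:ℂ) 1) ?_ ?_
    · have h1 : IsClosed {g : Set.Icc (-H) H → ℂ | ∀ a, ‖g a‖ ≤ 1} := by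
        rw [Set.ofPred_forall]
        exact isClosed_iInter fun a => isClosed_le (continuous_apply a).norm continuous_const
      have h2 : IsClosed {g : Set.Icc (-H) H → ℂ | ∀ a b, ‖g a - g b‖ ≤ 4 * dist a b} := by
        simp only [Set.ofPred_forall]
        exact isClosed_iInter fun a => isClosed_iInter fun b => isClosed_le ((continuous_apply a).sub (continuous_apply b)).norm continuous_const
      exact h1.inter h2
    · intro g hg a _
      rw [mem_closedBall_zero_iff]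
      exact hg.1 a
  · refine Metric.equicontinuous_of_continuity_modulus (fun x => 4 * x) ?_ _ fun a b u => ?_
    · have : Tendsto (fun x : ℝ => 4 * x) (𝓝 0) (𝓝 (4 * 0)) := tendsto_id.const_mul 4
      rwa [mul_zero] at this
    · rw [dist_eq_norm]
      exact u.2.2 a b

/-- the grid -/
lemma ex_grid {H η : ℝ} (hη : 0 < η) : ∃ (n : ℕ) (x : Fin n → Set.Icc (-H) H), ∀ a, ∃ j, dist a (x j) < η := by
  obtain ⟨t, -, htf, ht⟩ := (isCompact_univ : IsCompact (Set.univ : Set (Set.Icc (-H) H))).finite_cover_balls hη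
  refine ⟨htf.toFinset.card, fun j => (htf.toFinset.equivFin.symm j : Set.Icc (-H) H), fun a => ?_⟩
  have h1 := ht (Set.mem_univ a)
  simp only [Set.mem_iUnion, Metric.mem_ball] at h1
  obtain ⟨y, hy, hay⟩ := h1
  refine ⟨htf.toFinset.equivFin ⟨y, htf.mem_toFinset.mpr hy⟩, ?_⟩
  show dist a ((htf.toFinset.equivFin.symm (htf.toFinset.equivFin ⟨y, htf.mem_toFinset.mpr hy⟩) : htf.toFinset) : Set.Icc (-H) H) < η
  rw [Equiv.symm_apply_apply]
  exact hay

/-- the hat functions -/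
noncomputable def hat {H : ℝ} (η : ℝ) (y a : Set.Icc (-H) H) : ℝ := max 0 (η - dist a y)

lemma hat_cont {H : ℝ} (η : ℝ) (y : Set.Icc (-H) H) : Continuous (hat η y) := by
  unfold hat
  exact continuous_const.max (continuous_const.sub (continuous_id.dist continuous_const))

lemma hat_nn {H : ℝ} (η : ℝ) (y a : Set.Icc (-H) H) : 0 ≤ hat η y a := le_max_left _ _

lemma hat_sum_pos {H η : ℝ} {n : ℕ} {x : Fin n → Set.Icc (-H) H} (hx : ∀ a, ∃ j, dist a (x j) < η) (a : Set.Icc (-H) H) : 0 < ∑ j, hat η (x j) a := by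
  obtain ⟨j, hj⟩ := hx a
  refine Finset.sum_pos' (fun i _ => hat_nn _ _ _) ⟨j, Finset.mem_univ _, ?_⟩
  unfold hat
  exact lt_max_of_lt_right (by linarith)

/-- the interpolation functions -/
noncomputable def hw {H η : ℝ} {n : ℕ} {x : Fin n → Set.Icc (-H) H} (hx : ∀ a, ∃ j, dist a (x j) < η) (j : Fin n) : C(Set.Icc (-H) H, ℂ) :=
  ⟨fun a => ((hat η (x j) a / ∑ i, hat η (x i) a : ℝ) : ℂ), Complex.continuous_ofReal.comp
    ((hat_cont η (x j)).div (continuous_finsetSum _ fun i _ => hat_cont η (x i)) fun a => (hat_sum_pos hx a).ne')⟩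

lemma hw_err {H η L : ℝ} {n : ℕ} {x : Fin n → Set.Icc (-H) H} (hx : ∀ a, ∃ j, dist a (x j) < η) (hL : 0 ≤ L) (hη : 0 < η) (u : C(Set.Icc (-H) H, ℂ))
    (hu : ∀ a b, ‖u a - u b‖ ≤ L * dist a b) : ‖u - ∑ j, u (x j) • hw hx j‖ ≤ L * η := by
  rw [ContinuousMap.norm_le _ (by positivity)]
  intro a
  have hD := hat_sum_pos hx a
  obtain ⟨D, hDD⟩ : ∃ D : ℝ, D = ∑ i, hat η (x i) a := ⟨_, rfl⟩
  rw [← hDD] at hD
  have e1 : (u - ∑ j, u (x j) • hw hx j) a = ∑ j, ((hat η (x j) a / D : ℝ) : ℂ) * (u a - u (x j)) := by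
    rw [ContinuousMap.sub_apply, ContinuousMap.sum_apply]
    have e2 : ∑ j, ((hat η (x j) a / D : ℝ) : ℂ) * (u a - u (x j)) = (∑ j, ((hat η (x j) a / D : ℝ) : ℂ)) * u a -
        ∑ j, ((hat η (x j) a / D : ℝ) : ℂ) * u (x j) := by
      rw [Finset.sum_mul, ← Finset.sum_sub_distrib]
      exact Finset.sum_congr rfl fun j _ => by ring
    have e3 : ∑ j, ((hat η (x j) a / D : ℝ) : ℂ) = 1 := by
      rw [← Complex.ofReal_sum, ← Finset.sum_div, ← hDD, div_self hD.ne']
      simp
    rw [e2, e3, one_mul]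
    congr 1
    refine Finset.sum_congr rfl fun j _ => ?_
    rw [ContinuousMap.smul_apply, smul_eq_mul, mul_comm]
    unfold hw
    rw [ContinuousMap.coe_mk, ← hDD]
  rw [e1]
  refine (norm_sum_le _ _).trans ?_
  have h1 : ∀ j ∈ Finset.univ, ‖((hat η (x j) a / D : ℝ) : ℂ) * (u a - u (x j))‖ ≤ (hat η (x j) a / D) * (L * η) := by
    intro j _
    rw [norm_mul, Complex.norm_real, Real.norm_of_nonneg (div_nonneg (hat_nn _ _ _) hD.le)]
    rcases le_or_gt (dist a (x j)) η with h | h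
    · refine mul_le_mul_of_nonneg_left ((hu a (x j)).trans (mul_le_mul_of_nonneg_left h hL)) (div_nonneg (hat_nn _ _ _) hD.le)
    · have : hat η (x j) a = 0 := by
        unfold hat
        exact max_eq_left (by linarith)
      rw [this]
      simp
  refine (Finset.sum_le_sum h1).trans (le_of_eq ?_)
  rw [← Finset.sum_mul, ← Finset.sum_div, ← hDD, div_self hD.ne', one_mul]

/-- the path of a bounded holomorphic function -/
lemma pth_lip {H S : ℝ} {f : ℂ → ℂ} (hf : DifferentiableOn ℂ f (D1 H)) (hS : ∀ z ∈ D1 H, ‖f z‖ ≤ S) :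
    Continuous (fun a : Set.Icc (-H) H => f (Complex.I * ((a : ℝ) : ℂ))) ∧
    ∀ a b : Set.Icc (-H) H, ‖f (Complex.I * ((a : ℝ) : ℂ)) - f (Complex.I * ((b : ℝ) : ℂ))‖ ≤ (4 * S) * dist a b := by
  have hin : ∀ a : ℝ, a ∈ Set.Icc (-H) H → Metric.closedBall (Complex.I * (a : ℂ)) (1 / 4) ⊆ D1 H := by
    intro a ha z hz
    rw [Metric.mem_closedBall, dist_eq_norm] at hz
    have h1 := Complex.abs_re_le_norm (z - Complex.I * a)
    have h2 := Complex.abs_im_le_norm (z - Complex.I * a)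
    simp at h1 h2
    have h3 := abs_le.mpr ha
    refine ⟨by linarith, ?_⟩
    calc |z.im| = |(z.im - a) + a| := by ring_nf
      _ ≤ |z.im - a| + |a| := abs_add_le _ _
      _ < H + 1 := by linarith
  obtain ⟨V, hV⟩ : ∃ V : Set ℂ, V = {z : ℂ | z.re = 0 ∧ |z.im| ≤ H} := ⟨_, rfl⟩
  have hVc : Convex ℝ V := by
    have h1 : V = {z : ℂ | z.re = 0} ∩ (Complex.im ⁻¹' Set.Icc (-H) H) := by
      rw [hV]
      ext z
      simp only [Set.mem_ofPred_eq, Set.mem_inter_iff, Set.mem_preimage, Set.mem_Icc, abs_le]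
    rw [h1]
    refine Convex.inter ?_ ?_
    · have h2 : {z : ℂ | z.re = 0} = Complex.reLm ⁻¹' {0} := by
        ext z
        simp
      rw [h2]
      exact (convex_singleton 0).linear_preimage _
    · exact (convex_Icc (-H) H).linear_preimage Complex.imLm
  have hVin : ∀ z ∈ V, Metric.closedBall z (1 / 4) ⊆ D1 H := by
    intro z hz
    rw [hV] at hz
    have e1 : z = Complex.I * ((z.im : ℝ) : ℂ) := by
      apply Complex.ext
      · simp [hz.1]
      · simp
    rw [e1]
    exact hin _ (abs_le.mp hz.2)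
  have hmem : ∀ a : Set.Icc (-H) H, Complex.I * ((a : ℝ) : ℂ) ∈ V := by
    intro a
    rw [hV]
    refine ⟨by simp, ?_⟩
    simpa using abs_le.mpr a.2
  have hlip : ∀ x ∈ V, ∀ y ∈ V, ‖f y - f x‖ ≤ (4 * S) * ‖y - x‖ := by
    intro x hx y hy
    refine hVc.norm_image_sub_le_of_norm_hasDerivWithin_le (f := f) (f' := deriv f) (fun z hz => ?_) (fun z hz => ?_) hx hy
    · exact ((hf.differentiableAt ((D1_open H).mem_nhds (hVin z hz (Metric.mem_closedBall_self (by norm_num))))).hasDerivAt).hasDerivWithinAt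
    · have h2 := Complex.norm_deriv_le_of_forall_mem_sphere_norm_le (R := 1 / 4) (by norm_num) (hf.diffContOnCl_ball (hVin z hz))
        (fun y hy => hS y (hVin z hz (Metric.sphere_subset_closedBall hy)))
      refine h2.trans (le_of_eq ?_)
      ring
  refine ⟨?_, fun a b => ?_⟩
  · have h1 : ContinuousOn f (D1 H) := hf.continuousOn
    refine h1.comp_continuous (by fun_prop) fun a => hVin _ (hmem a) (Metric.mem_closedBall_self (by norm_num))
  · have h1 := hlip _ (hmem b) _ (hmem a)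
    refine h1.trans (le_of_eq ?_)
    rw [← mul_sub, norm_mul, Complex.norm_I, one_mul, ← Complex.ofReal_sub, Complex.norm_real, Subtype.dist_eq, Real.dist_eq, Real.norm_eq_abs]

/-- continuous homogeneous functionals of the path are approximable -/
theorem Apx_path {k H : ℝ} (hk : 0 < k) (hH : 0 ≤ H) {Φ : C(Set.Icc (-H) H, ℂ) → ℝ} (hΦ : Continuous Φ)
    (hom : ∀ (c : ℂ) u, Φ (c • u) = ‖c‖ ^ (2 * k) * Φ u) : Apx k H (fun f => Φ (pth H f)) := by
  intro ε hε
  have h1 := (Kc_compact H).uniformContinuousAt_of_continuousAt Φ (fun a _ => hΦ.continuousAt) (Metric.dist_mem_uniformity hε)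
  obtain ⟨η, hη, h2⟩ := Metric.mem_uniformity_dist.mp h1
  obtain ⟨θ, hθ⟩ : ∃ θ : ℝ, θ = η / 8 := ⟨_, rfl⟩
  have hθ0 : 0 < θ := by rw [hθ]; positivity
  obtain ⟨n, x, hx⟩ := ex_grid (H := H) hθ0
  refine ⟨n, fun j => (x j : ℝ), fun v => Φ (∑ j, v j • hw hx j), ?_, ?_, ?_⟩
  · exact hΦ.comp (continuous_finsetSum _ fun j _ => (continuous_apply j).smul continuous_const)
  · intro c v
    show Φ (∑ j, (c * v j) • hw hx j) = ‖c‖ ^ (2 * k) * Φ (∑ j, v j • hw hx j)
    rw [← hom, Finset.smul_sum]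
    congr 1
    exact Finset.sum_congr rfl fun j _ => by rw [smul_smul]
  · intro f S hf hS
    have h0 : (0:ℂ) ∈ D1 H := by
      refine ⟨?_, ?_⟩ <;> simp
      linarith
    have hS0 : 0 ≤ S := (norm_nonneg _).trans (hS _ h0)
    obtain ⟨hc, hl⟩ := pth_lip hf hS
    have hp : ∀ a, pth H f a = f (Complex.I * ((a : ℝ) : ℂ)) := fun a => ContinuousMap.mkD_apply_of_continuous hc
    have hin : ∀ a : Set.Icc (-H) H, Complex.I * ((a : ℝ) : ℂ) ∈ D1 H := by
      intro a
      refine ⟨by simp, ?_⟩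
      have := abs_le.mpr a.2
      simp
      linarith
    have e0 : ∑ j, f (Complex.I * ((x j : ℝ) : ℂ)) • hw hx j = ∑ j, pth H f (x j) • hw hx j := by
      simp_rw [hp]
    show |Φ (pth H f) - Φ (∑ j, f (Complex.I * ((x j : ℝ) : ℂ)) • hw hx j)| ≤ ε * S ^ (2 * k)
    rw [e0]
    rcases hS0.eq_or_lt with hS1 | hS1
    · have h3 : pth H f = 0 := by
        ext a
        rw [hp]
        have := hS _ (hin a)
        rw [← hS1] at this
        exact norm_le_zero_iff.mp this
      have h4 : ∑ j, (0 : C(Set.Icc (-H) H, ℂ)) (x j) • hw hx j = 0 := by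
        ext a
        rw [ContinuousMap.sum_apply]
        simp
      rw [h3, h4, sub_self, abs_zero]
      positivity
    · have hSc : (S : ℂ) ≠ 0 := by exact_mod_cast hS1.ne'
      have e1 : ∀ u : C(Set.Icc (-H) H, ℂ), Φ u = S ^ (2 * k) * Φ ((S : ℂ)⁻¹ • u) := by
        intro u
        have := hom (S : ℂ) ((S : ℂ)⁻¹ • u)
        rw [Complex.norm_real, Real.norm_of_nonneg hS1.le, smul_smul, mul_inv_cancel₀ hSc, one_smul] at this
        exact this
      rw [e1 (pth H f), e1 (∑ j, pth H f (x j) • hw hx j), ← mul_sub, abs_mul, abs_of_nonneg (by positivity), mul_comm ε]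
      refine mul_le_mul_of_nonneg_left ?_ (by positivity)
      have hn : ‖(S : ℂ)⁻¹‖ = S⁻¹ := by rw [norm_inv, Complex.norm_real, Real.norm_of_nonneg hS1.le]
      have hK : (S : ℂ)⁻¹ • pth H f ∈ Kc H := by
        refine ⟨fun a => ?_, fun a b => ?_⟩
        · rw [ContinuousMap.smul_apply, norm_smul, hn, hp, inv_mul_le_iff₀ hS1, mul_one]
          exact hS _ (hin a)
        · rw [ContinuousMap.smul_apply, ContinuousMap.smul_apply, ← smul_sub, norm_smul, hn, hp, hp, inv_mul_le_iff₀ hS1]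
          refine (hl a b).trans (le_of_eq ?_)
          ring
      have hd : dist ((S : ℂ)⁻¹ • pth H f) ((S : ℂ)⁻¹ • ∑ j, pth H f (x j) • hw hx j) < η := by
        have e5 : (S : ℂ)⁻¹ • pth H f - (S : ℂ)⁻¹ • ∑ j, pth H f (x j) • hw hx j = (S : ℂ)⁻¹ • (pth H f - ∑ j, pth H f (x j) • hw hx j) := by
          ext a
          simp only [ContinuousMap.sub_apply, ContinuousMap.smul_apply, smul_eq_mul]
          ring
        rw [dist_eq_norm, e5, norm_smul, hn, inv_mul_lt_iff₀ hS1]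
        have h4 := hw_err hx (L := 4 * S) (by positivity) hθ0 (pth H f) fun a b => by rw [hp, hp]; exact hl a b
        refine lt_of_le_of_lt h4 ?_
        rw [hθ]
        nlinarith
      have h5 := h2 hd hK
      rw [← Real.dist_eq]
      exact (le_of_lt h5)

/-- **Continuous homogeneous functionals of the path.** -/
theorem paths {k : ℝ} (hk : 0 < k) (hk2 : k ≤ 2) {δ : ℝ → ℝ} (hδ : Tendsto δ atTop (𝓝 0))
    (hδL : Tendsto (fun T => δ T * Real.log T) atTop atTop) {H : ℝ} (hH : 0 ≤ H) {Φ : C(Set.Icc (-H) H, ℂ) → ℝ} (hΦ : Continuous Φ)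
    (hom : ∀ (c : ℂ) u, Φ (c • u) = ‖c‖ ^ (2 * k) * Φ u) :
    Tendsto (fun T => (2 * δ T) ^ (k ^ 2) / T * ∫ t in Set.Icc 0 T, Φ (pth H (jf (δ T) t))) atTop
      (𝓝 (aF k * ∫ ω, Φ (pth H (fi k ω)) ∂PG)) :=
  main hk hk2 hδ hδL hH (Apx_path hk hH hΦ hom)

end Pool.Agent.X111.FL
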