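import Pool.Agent.X111.FL.VLaw

set_option autoImplicit false
set_option linter.unusedSectionVars false

/-! The law of the exponential of a complex vector from its mixed exponential moments: the theorem. -/

namespace Pool.Agent.X111.FL

open MeasureTheory ProbabilityTheory Filter Topology
open Pool.Agent.X111.JD (mo mo_cont mo_norm VN VN_cont ee ee_cont cf mo_VN VN_lim VN_norm pow_unif)

variable {ι : Type} [Fintype ι] [DecidableEq ι]

/-- **The law of the exponential.** -/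
theorem lawv {P : ℝ → Measure ℝ} (hP : ∀ T, IsFiniteMeasure (P T)) {X : ℝ → ℝ → ι → ℂ} (hX : ∀ T, Measurable (X T))
    {k a : ℝ} (hk : 0 < k) (ha : 0 < a) {ρ : ProbabilityMeasure (EE ι)}
    (hρ : ∀ c : ℝ, Integrable (fun v : EE ι => Real.exp (c * ∑ j, ‖v j‖)) (ρ : Measure (EE ι)))
    (hint : ∀ N : ℕ, ∀ p : ι → ℕ, 0 < N → ((∑ j, p j : ℕ) : ℝ) < k * N → ∀ᶠ T in atTop,
      Integrable (fun t => ‖Complex.exp (∑ j, (p j : ℂ) / N * X T t j)‖ ^ 2) (P T))
    (h : ∀ N : ℕ, ∀ p q : ι → ℕ, 0 < N → ((∑ j, p j : ℕ) : ℝ) < k * N → ((∑ j, q j : ℕ) : ℝ) < k * N →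
      Tendsto (fun T => ∫ t, ev N p q (X T t) ∂(P T)) atTop (𝓝 (a * ∫ v : EE ι, ev N p q v.ofLp ∂(ρ : Measure (EE ι)))))
    (G : BoundedContinuousFunction (ι → ℂ) ℝ) :
    Tendsto (fun T => ∫ t, G (fun j => Complex.exp (X T t j)) ∂(P T)) atTop
      (𝓝 (a * ∫ v : EE ι, G (fun j => Complex.exp (v.ofLp j)) ∂(ρ : Measure (EE ι)))) := by
  have _ := hP
  have co : Continuous (fun v : EE ι => v.ofLp) := PiLp.continuous_ofLp 2 (fun _ : ι => ℂ)
  obtain ⟨n, hn⟩ : ∃ n : ℕ, n = Fintype.card ι := ⟨_, rfl⟩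
  obtain ⟨d, hd⟩ : ∃ d : ℕ → ℕ, d = fun N : ℕ => ⌊k * ((N : ℝ) + 1) / (2 * (n + 1))⌋₊ := ⟨_, rfl⟩
  have hdk : ∀ N : ℕ, ∀ p : ι → ℕ, (∀ j, p j ≤ d N) → ((∑ j, p j : ℕ) : ℝ) < k * ((N + 1 : ℕ) : ℝ) := by
    intro N p hp
    have h1 : ((∑ j, p j : ℕ) : ℝ) ≤ n * (k * ((N : ℝ) + 1) / (2 * (n + 1))) := by
      have h2 : ∑ j, p j ≤ n * d N := by
        refine (Finset.sum_le_card_nsmul _ _ _ fun j _ => hp j).trans (le_of_eq ?_)
        rw [Finset.card_univ, hn, smul_eq_mul]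
      have h3 : ((∑ j, p j : ℕ) : ℝ) ≤ n * d N := by exact_mod_cast h2
      refine h3.trans (mul_le_mul_of_nonneg_left ?_ (Nat.cast_nonneg n))
      rw [hd]
      exact Nat.floor_le (by positivity)
    have h4 : (n:ℝ) * (k * ((N : ℝ) + 1) / (2 * (n + 1))) ≤ k * ((N : ℝ) + 1) / 2 := by
      rw [← mul_div_assoc, div_le_div_iff₀ (by positivity) (by norm_num)]
      have : 0 < k * ((N:ℝ) + 1) := by positivity
      nlinarith
    push_cast at h1 ⊢
    have : 0 < k * ((N : ℝ) + 1) := by positivity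
    linarith
  have hdlim : ∀ i : ℕ, ∀ᶠ N in atTop, i ≤ d N := by
    intro i
    have h1 : Tendsto (fun N : ℕ => k * ((N : ℝ) + 1) / (2 * (n + 1))) atTop atTop :=
      ((tendsto_atTop_add_const_right _ 1 tendsto_natCast_atTop_atTop).const_mul_atTop hk).atTop_div_const (by positivity)
    filter_upwards [h1.eventually_ge_atTop (i : ℝ)] with N hN
    rw [hd]
    exact Nat.le_floor hN
  have hdlim' : ∀ p : ι → ℕ, ∀ᶠ N in atTop, ∀ j, p j ≤ d N := by
    intro p
    rw [eventually_all]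
    exact fun j => hdlim (p j)
  -- integrability of the exponential monomials
  have hee : ∀ N : ℕ, ∀ p q : ι → ℕ, 0 < N → ((∑ j, p j : ℕ) : ℝ) < k * N → ((∑ j, q j : ℕ) : ℝ) < k * N →
      ∀ᶠ T in atTop, Integrable (fun t => ev N p q (X T t)) (P T) := by
    intro N p q hN hp hq
    filter_upwards [hint N p hN hp, hint N q hN hq] with T h1 h2
    refine (h1.add h2).mono (((ev_cont N p q).measurable.comp (hX T)).aestronglyMeasurable) (Eventually.of_forall fun t => ?_)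
    rw [ev_eq, norm_mul, RCLike.norm_conj]
    simp only [Pi.add_apply]
    rw [Real.norm_of_nonneg (by positivity)]
    generalize ‖Complex.exp (∑ j, (p j : ℂ) / N * X T t j)‖ = x
    generalize ‖Complex.exp (∑ j, (q j : ℂ) / N * X T t j)‖ = y
    nlinarith [sq_nonneg (x - y), sq_nonneg (x + y)]
  -- the moments for fixed N
  have hmom : ∀ N : ℕ, ∀ p q : ι → ℕ, (∀ j, p j ≤ d N) → (∀ j, q j ≤ d N) →
      (∀ᶠ T in atTop, Integrable (fun t => mm p q (VV (N + 1) (X T t))) (P T)) ∧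
      Tendsto (fun T => ∫ t, mm p q (VV (N + 1) (X T t)) ∂(P T)) atTop
      (𝓝 (a * ∫ v : EE ι, mm p q (VV (N + 1) v.ofLp) ∂(ρ : Measure (EE ι)))) := by
    intro N p q hp hq
    have hpq : ∀ x ∈ ix p q, ((∑ j, (x j).1 : ℕ) : ℝ) < k * ((N + 1 : ℕ) : ℝ) ∧ ((∑ j, (x j).2 : ℕ) : ℝ) < k * ((N + 1 : ℕ) : ℝ) := by
      intro x hx
      obtain ⟨h1, h2⟩ := ix_le hx
      exact ⟨hdk N _ fun j => (h1 j).trans (hp j), hdk N _ fun j => (h2 j).trans (hq j)⟩
    have hall : ∀ᶠ T in atTop, ∀ x ∈ ix p q, Integrable (fun t => ev (N + 1) (fun j => (x j).1) (fun j => (x j).2) (X T t)) (P T) := by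
      rw [Finset.eventually_all]
      intro x hx
      exact hee (N + 1) _ _ (Nat.succ_pos _) (hpq x hx).1 (hpq x hx).2
    refine ⟨?_, ?_⟩
    · filter_upwards [hall] with T hT
      simp_rw [mm_VV]
      exact integrable_finsetSum _ fun x hx => (hT x hx).const_mul _
    have e1 : a * ∫ v : EE ι, mm p q (VV (N + 1) v.ofLp) ∂(ρ : Measure (EE ι)) =
        ∑ x ∈ ix p q, (∏ j, cf (N + 1) (p j) (q j) (x j).1 (x j).2) *
          (a * ∫ v : EE ι, ev (N + 1) (fun j => (x j).1) (fun j => (x j).2) v.ofLp ∂(ρ : Measure (EE ι))) := by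
      simp_rw [mm_VV]
      rw [integral_finsetSum]
      · rw [Finset.mul_sum]
        refine Finset.sum_congr rfl fun x _ => ?_
        rw [integral_const_mul]
        ring
      · exact fun x _ => (ev_int hρ _ _ _).const_mul _
    rw [e1]
    have h1 : Tendsto (fun T => ∑ x ∈ ix p q, (∏ j, cf (N + 1) (p j) (q j) (x j).1 (x j).2) *
        ∫ t, ev (N + 1) (fun j => (x j).1) (fun j => (x j).2) (X T t) ∂(P T)) atTop
        (𝓝 (∑ x ∈ ix p q, (∏ j, cf (N + 1) (p j) (q j) (x j).1 (x j).2) *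
          (a * ∫ v : EE ι, ev (N + 1) (fun j => (x j).1) (fun j => (x j).2) v.ofLp ∂(ρ : Measure (EE ι))))) :=
      tendsto_finsetSum _ fun x hx => (h (N + 1) _ _ (Nat.succ_pos _) (hpq x hx).1 (hpq x hx).2).const_mul _
    refine h1.congr' ?_
    filter_upwards [hall] with T hT
    simp_rw [mm_VV]
    rw [integral_finsetSum]
    · refine Finset.sum_congr rfl fun x _ => ?_
      rw [integral_const_mul]
    · exact fun x hx => (hT x hx).const_mul _
  -- the good heights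
  have hfin : ∀ N : ℕ, ∀ Q : (ι → ℕ) → (ι → ℕ) → ℝ → Prop, (∀ p q, (∀ j, p j ≤ d N) → (∀ j, q j ≤ d N) → ∀ᶠ T in atTop, Q p q T) →
      ∀ᶠ T in atTop, ∀ p q, (∀ j, p j ≤ d N) → (∀ j, q j ≤ d N) → Q p q T := by
    intro N Q hQ
    have h1 : ∀ᶠ T in atTop, ∀ p ∈ Fintype.piFinset (fun _ : ι => Finset.range (d N + 1)), ∀ q ∈ Fintype.piFinset (fun _ : ι => Finset.range (d N + 1)), Q p q T := by
      rw [Finset.eventually_all]
      intro p hp
      rw [Finset.eventually_all]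
      intro q hq
      rw [Fintype.mem_piFinset] at hp hq
      refine hQ p q (fun j => ?_) (fun j => ?_)
      · have := Finset.mem_range.mp (hp j)
        omega
      · have := Finset.mem_range.mp (hq j)
        omega
    filter_upwards [h1] with T hT p q hp hq
    refine hT p ?_ q ?_
    · rw [Fintype.mem_piFinset]
      exact fun j => Finset.mem_range.mpr (by have := hp j; omega)
    · rw [Fintype.mem_piFinset]
      exact fun j => Finset.mem_range.mpr (by have := hq j; omega)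
  have hQ : ∀ N : ℕ, ∀ᶠ T in atTop, (P T Set.univ ≠ 0) ∧
      (∀ p q : ι → ℕ, (∀ j, p j ≤ d N) → (∀ j, q j ≤ d N) → Integrable (fun t => mm p q (VV (N + 1) (X T t))) (P T)) ∧
      ∀ p q : ι → ℕ, (∀ j, p j ≤ d N) → (∀ j, q j ≤ d N) →
        ‖(∫ t, mm p q (VV (N + 1) (X T t)) ∂(P T)) - a * ∫ v : EE ι, mm p q (VV (N + 1) v.ofLp) ∂(ρ : Measure (EE ι))‖ ≤ 1 / ((N : ℝ) + 1) := by
    intro N
    have q1 : ∀ᶠ T in atTop, P T Set.univ ≠ 0 := by
      have h0 := (hmom 0 0 0 (fun _ => Nat.zero_le _) (fun _ => Nat.zero_le _)).2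
      have e0 : ∀ z : ι → ℂ, mm 0 0 z = 1 := fun z => by unfold mm mo; simp
      simp_rw [e0] at h0
      simp only [integral_const, mul_one, probReal_univ, Complex.real_smul, Complex.ofReal_one] at h0
      have ha' : (a : ℂ) ≠ 0 := by exact_mod_cast ha.ne'
      have h1 := h0.eventually_ne ha'
      filter_upwards [h1] with T hT h2
      apply hT
      rw [measureReal_def, h2]
      simp
    have q2 := hfin N (fun p q T => Integrable (fun t => mm p q (VV (N + 1) (X T t))) (P T)) fun p q hp hq => (hmom N p q hp hq).1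
    have q3 := hfin N (fun p q T => ‖(∫ t, mm p q (VV (N + 1) (X T t)) ∂(P T)) -
      a * ∫ v : EE ι, mm p q (VV (N + 1) v.ofLp) ∂(ρ : Measure (EE ι))‖ ≤ 1 / ((N : ℝ) + 1)) fun p q hp hq => by
        have h1 := (hmom N p q hp hq).2
        rw [Metric.tendsto_nhds] at h1
        filter_upwards [h1 (1 / ((N : ℝ) + 1)) (by positivity)] with T hT
        rw [dist_eq_norm] at hT
        exact hT.le
    filter_upwards [q1, q2, q3] with T h1 h2 h3
    exact ⟨h1, h2, h3⟩
  refine tendsto_of_subseq_tendsto fun ns hns => ?_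
  have hsel : ∀ N : ℕ, ∃ n : ℕ, (P (ns n) Set.univ ≠ 0) ∧
      (∀ p q : ι → ℕ, (∀ j, p j ≤ d N) → (∀ j, q j ≤ d N) → Integrable (fun t => mm p q (VV (N + 1) (X (ns n) t))) (P (ns n))) ∧
      ∀ p q : ι → ℕ, (∀ j, p j ≤ d N) → (∀ j, q j ≤ d N) →
        ‖(∫ t, mm p q (VV (N + 1) (X (ns n) t)) ∂(P (ns n))) - a * ∫ v : EE ι, mm p q (VV (N + 1) v.ofLp) ∂(ρ : Measure (EE ι))‖ ≤ 1 / ((N : ℝ) + 1) :=
    fun N => (hns.eventually (hQ N)).exists
  choose ms hms using hsel
  refine ⟨ms, ?_⟩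
  obtain ⟨S, hS⟩ : ∃ S : ℕ → ℝ, S = fun N => ns (ms N) := ⟨_, rfl⟩
  have hS1 : ∀ N, P (S N) Set.univ ≠ 0 := fun N => by rw [hS]; exact (hms N).1
  have hS2 : ∀ N, ∀ p q : ι → ℕ, (∀ j, p j ≤ d N) → (∀ j, q j ≤ d N) → Integrable (fun t => mm p q (VV (N + 1) (X (S N) t))) (P (S N)) :=
    fun N => by rw [hS]; exact (hms N).2.1
  have hS3 : ∀ N, ∀ p q : ι → ℕ, (∀ j, p j ≤ d N) → (∀ j, q j ≤ d N) →
      ‖(∫ t, mm p q (VV (N + 1) (X (S N) t)) ∂(P (S N))) - a * ∫ v : EE ι, mm p q (VV (N + 1) v.ofLp) ∂(ρ : Measure (EE ι))‖ ≤ 1 / ((N : ℝ) + 1) :=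
    fun N => by rw [hS]; exact (hms N).2.2
  have hgoal : Tendsto (fun N => ∫ t, G (fun j => Complex.exp (X (S N) t j)) ∂(P (S N))) atTop
      (𝓝 (a * ∫ v : EE ι, G (fun j => Complex.exp (v.ofLp j)) ∂(ρ : Measure (EE ι)))) := by
    -- limits of the moments
    have hM : ∀ p q : ι → ℕ, Tendsto (fun N => ∫ t, mm p q (VV (N + 1) (X (S N) t)) ∂(P (S N))) atTop (𝓝 (a * ∫ v : EE ι, mm p q v.ofLp ∂(ρ : Measure (EE ι)))) := by
      intro p q
      have h1 := (mm_VV_lim hρ p q).const_mul (a : ℂ)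
      have h2 : Tendsto (fun N => (∫ t, mm p q (VV (N + 1) (X (S N) t)) ∂(P (S N))) - a * ∫ v : EE ι, mm p q (VV (N + 1) v.ofLp) ∂(ρ : Measure (EE ι))) atTop (𝓝 0) := by
        rw [tendsto_zero_iff_norm_tendsto_zero]
        refine squeeze_zero' (Eventually.of_forall fun _ => norm_nonneg _) ?_ (tendsto_one_div_add_atTop_nhds_zero_nat (𝕜 := ℝ))
        filter_upwards [hdlim' p, hdlim' q] with N hi hj
        exact hS3 N p q hi hj
      have h3 := h2.add h1
      rw [zero_add] at h3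
      exact h3.congr fun N => by ring
    -- the masses
    obtain ⟨m, hm⟩ : ∃ m : ℕ → ℝ, m = fun N => (P (S N) Set.univ).toReal := ⟨_, rfl⟩
    have hm0 : ∀ N, 0 < m N := by
      intro N
      rw [hm]
      exact ENNReal.toReal_pos (hS1 N) (measure_ne_top _ _)
    have hma : Tendsto m atTop (𝓝 a) := by
      have h1 := hM 0 0
      have e0 : ∀ z : ι → ℂ, mm 0 0 z = 1 := fun z => by unfold mm mo; simp
      simp_rw [e0] at h1
      simp only [integral_const, mul_one, probReal_univ, Complex.real_smul, Complex.ofReal_one] at h1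
      have h2 := (Complex.continuous_re.tendsto _).comp h1
      rw [Complex.ofReal_re] at h2
      rw [hm]
      exact h2
    -- the measures
    have hprob : ∀ N, IsProbabilityMeasure ((P (S N) Set.univ)⁻¹ • P (S N)) := by
      intro N
      refine ⟨?_⟩
      rw [Measure.smul_apply, smul_eq_mul]
      exact ENNReal.inv_mul_cancel (hS1 N) (measure_ne_top _ _)
    have ct : Continuous (fun v : ι → ℂ => (WithLp.toLp 2 v : EE ι)) := PiLp.continuous_toLp 2 (fun _ : ι => ℂ)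
    have hmeas : ∀ N, Measurable fun t => (WithLp.toLp 2 (VV (N + 1) (X (S N) t)) : EE ι) :=
      fun N => ct.measurable.comp ((VV_cont _).measurable.comp (hX _))
    obtain ⟨μ, hμ⟩ : ∃ μ : ℕ → ProbabilityMeasure (EE ι), ∀ N, (μ N : Measure (EE ι)) =
        Measure.map (fun t => (WithLp.toLp 2 (VV (N + 1) (X (S N) t)) : EE ι)) ((P (S N) Set.univ)⁻¹ • P (S N)) := by
      refine ⟨fun N => ⟨Measure.map (fun t => (WithLp.toLp 2 (VV (N + 1) (X (S N) t)) : EE ι)) ((P (S N) Set.univ)⁻¹ • P (S N)), ?_⟩, fun N => rfl⟩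
      have _ := hprob N
      exact Measure.isProbabilityMeasure_map (hmeas N).aemeasurable
    have hintμ : ∀ {E : Type} [NormedAddCommGroup E] [NormedSpace ℝ E] (N : ℕ) (F : (ι → ℂ) → E), Continuous F →
        ∫ v : EE ι, F v.ofLp ∂(μ N : Measure (EE ι)) = (m N)⁻¹ • ∫ t, F (VV (N + 1) (X (S N) t)) ∂(P (S N)) := by
      intro E _ _ N F hF
      have e2 := integral_map (μ := (P (S N) Set.univ)⁻¹ • P (S N)) (hmeas N).aemeasurable (f := fun v : EE ι => F v.ofLp) (hF.comp co).aestronglyMeasurable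
      rw [hμ, e2, integral_smul_measure, ENNReal.toReal_inv, hm]
    have hweak : Tendsto μ atTop (𝓝 ρ) := by
      refine weak_vec ?_ hρ ?_
      · intro p q
        filter_upwards [hdlim' p, hdlim' q] with N h1 h2
        rw [hμ]
        refine (integrable_map_measure (f := (fun t => (WithLp.toLp 2 (VV (N + 1) (X (S N) t)) : EE ι))) (g := fun v : EE ι => mm p q v.ofLp)
          ((mm_cont _ _).comp co).aestronglyMeasurable (hmeas N).aemeasurable).mpr ?_
        exact (hS2 N p q h1 h2).smul_measure (ENNReal.inv_ne_top.mpr (hS1 N))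
      · intro p q
        have h1 : Tendsto (fun N => (m N)⁻¹ • ∫ t, mm p q (VV (N + 1) (X (S N) t)) ∂(P (S N))) atTop
            (𝓝 ((a : ℝ)⁻¹ • ((a : ℂ) * ∫ v : EE ι, mm p q v.ofLp ∂(ρ : Measure (EE ι))))) := (hma.inv₀ ha.ne').smul (hM p q)
        have e1 : (a : ℝ)⁻¹ • ((a : ℂ) * ∫ v : EE ι, mm p q v.ofLp ∂(ρ : Measure (EE ι))) = ∫ v : EE ι, mm p q v.ofLp ∂(ρ : Measure (EE ι)) := by
          rw [Complex.real_smul]
          have : (a : ℂ) ≠ 0 := by exact_mod_cast ha.ne'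
          push_cast
          field_simp
        rw [e1] at h1
        exact h1.congr fun N => (hintμ N _ (mm_cont p q)).symm
    have h1 := map_limv hweak G
    have h2 := hma.mul h1
    refine h2.congr fun N => ?_
    have e1 : ∫ v : EE ι, G (fun j => (1 + v.ofLp j / ((N + 1 : ℕ) : ℂ)) ^ (N + 1)) ∂(μ N : Measure (EE ι)) =
        (m N)⁻¹ • ∫ t, G (fun j => Complex.exp (X (S N) t j)) ∂(P (S N)) := by
      rw [hintμ N (fun v => G (fun j => (1 + v j / ((N + 1 : ℕ) : ℂ)) ^ (N + 1))) (G.continuous.comp (by fun_prop))]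
      congr 2
      funext t
      congr 1
      funext j
      unfold VV VN
      have hNc : (((N + 1 : ℕ) : ℂ)) ≠ 0 := by exact_mod_cast Nat.succ_ne_zero N
      rw [mul_div_cancel_left₀ _ hNc, add_sub_cancel, ← Complex.exp_nat_mul]
      congr 1
      field_simp
    rw [e1, smul_eq_mul, mul_inv_cancel_left₀ (hm0 N).ne']
  rw [hS] at hgoal
  exact hgoal

end Pool.Agent.X111.FL
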