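import Pool.Agent.X111.FL.VMom

set_option autoImplicit false
set_option linter.unusedSectionVars false

/-! The law of the exponential of a complex vector from its mixed exponential moments of small real exponents. -/

namespace Pool.Agent.X111.FL

open MeasureTheory ProbabilityTheory Filter Topology
open Pool.Agent.X111.JD (mo mo_cont mo_norm VN VN_cont ee ee_cont cf mo_VN VN_lim VN_norm pow_unif)

variable {ι : Type} [Fintype ι] [DecidableEq ι]

/-- the exponential monomials -/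
noncomputable def ev (N : ℕ) (p q : ι → ℕ) (v : ι → ℂ) : ℂ := ∏ j, ee N (p j) (q j) (v j)

lemma ev_cont (N : ℕ) (p q : ι → ℕ) : Continuous (ev N p q) := by
  unfold ev
  exact continuous_finsetProd _ fun j _ => (ee_cont _ _ _).comp (continuous_apply j)

lemma ev_eq (N : ℕ) (p q : ι → ℕ) (v : ι → ℂ) : ev N p q v = Complex.exp (∑ j, (p j : ℂ) / N * v j) *
    (starRingEnd ℂ) (Complex.exp (∑ j, (q j : ℂ) / N * v j)) := by
  unfold ev ee
  rw [Finset.prod_mul_distrib, Complex.exp_sum, Complex.exp_sum, map_prod]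

/-- the vectors `N (exp (v / N) - 1)` -/
noncomputable def VV (N : ℕ) (v : ι → ℂ) : ι → ℂ := fun j => VN N (v j)

lemma VV_cont (N : ℕ) : Continuous (VV N : (ι → ℂ) → ι → ℂ) := by
  unfold VV
  exact continuous_pi fun j => (VN_cont N).comp (continuous_apply j)

/-- the index set -/
def ix (a b : ι → ℕ) : Finset (ι → ℕ × ℕ) := Fintype.piFinset fun j => Finset.range (a j + 1) ×ˢ Finset.range (b j + 1)

omit [Fintype ι] [DecidableEq ι] in
lemma nat_div_nn (m N : ℕ) : (0:ℝ) ≤ (m : ℝ) / N := by positivity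

lemma mm_VV (N : ℕ) (a b : ι → ℕ) (v : ι → ℂ) : mm a b (VV N v) =
    ∑ x ∈ ix a b, (∏ j, cf N (a j) (b j) (x j).1 (x j).2) * ev N (fun j => (x j).1) (fun j => (x j).2) v := by
  unfold mm VV ev ix
  have h1 : ∀ j, mo (a j) (b j) (VN N (v j)) = ∑ y ∈ Finset.range (a j + 1) ×ˢ Finset.range (b j + 1), cf N (a j) (b j) y.1 y.2 * ee N y.1 y.2 (v j) := by
    intro j
    rw [mo_VN, Finset.sum_product]
  simp_rw [h1]
  rw [Finset.prod_univ_sum]
  refine Finset.sum_congr rfl fun x _ => ?_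
  rw [Finset.prod_mul_distrib]

lemma ix_le {a b : ι → ℕ} {x : ι → ℕ × ℕ} (hx : x ∈ ix a b) : (∀ j, (x j).1 ≤ a j) ∧ ∀ j, (x j).2 ≤ b j := by
  unfold ix at hx
  rw [Fintype.mem_piFinset] at hx
  refine ⟨fun j => ?_, fun j => ?_⟩
  · have := (Finset.mem_product.mp (hx j)).1
    rw [Finset.mem_range] at this
    omega
  · have := (Finset.mem_product.mp (hx j)).2
    rw [Finset.mem_range] at this
    omega

section
variable {ρ : ProbabilityMeasure (EE ι)} (hρ : ∀ c : ℝ, Integrable (fun v : EE ι => Real.exp (c * ∑ j, ‖v j‖)) (ρ : Measure (EE ι)))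

include hρ

lemma ev_int (N : ℕ) (p q : ι → ℕ) : Integrable (fun v : EE ι => ev N p q v.ofLp) (ρ : Measure (EE ι)) := by
  have co : Continuous (fun v : EE ι => v.ofLp) := PiLp.continuous_ofLp 2 (fun _ : ι => ℂ)
  obtain ⟨c, hc⟩ : ∃ c : ℝ, c = ∑ j, ((p j : ℝ) / N + (q j : ℝ) / N) := ⟨_, rfl⟩
  refine (hρ c).mono ((ev_cont N p q).comp co).aestronglyMeasurable (Eventually.of_forall fun v => ?_)
  rw [Real.norm_of_nonneg (Real.exp_pos _).le]
  unfold ev ee
  rw [norm_prod]
  have h1 : ∀ j, ‖Complex.exp ((p j : ℂ) / N * v.ofLp j) * (starRingEnd ℂ) (Complex.exp ((q j : ℂ) / N * v.ofLp j))‖ ≤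
      Real.exp (((p j : ℝ) / N + (q j : ℝ) / N) * ‖v.ofLp j‖) := by
    intro j
    rw [norm_mul, RCLike.norm_conj, Complex.norm_exp, Complex.norm_exp, ← Real.exp_add]
    refine Real.exp_le_exp.mpr ?_
    have h1 : ∀ m : ℕ, ((m : ℂ) / N * v.ofLp j).re ≤ m / N * ‖v.ofLp j‖ := by
      intro m
      refine (Complex.re_le_norm _).trans (le_of_eq ?_)
      rw [norm_mul, norm_div, Complex.norm_natCast, Complex.norm_natCast]
    have h2 := h1 (p j)
    have h3 := h1 (q j)
    rw [add_mul]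
    linarith
  refine (Finset.prod_le_prod (fun _ _ => norm_nonneg _) fun j _ => h1 j).trans ?_
  rw [← Real.exp_sum]
  refine Real.exp_le_exp.mpr ?_
  rw [hc, Finset.sum_mul]
  refine Finset.sum_le_sum fun j _ => ?_
  refine mul_le_mul_of_nonneg_left ?_ (add_nonneg (nat_div_nn _ _) (nat_div_nn _ _))
  exact Finset.single_le_sum (f := fun j => ‖v.ofLp j‖) (fun _ _ => norm_nonneg _) (Finset.mem_univ j)

lemma mm_VV_lim (a b : ι → ℕ) : Tendsto (fun N : ℕ => ∫ v : EE ι, mm a b (VV (N + 1) v.ofLp) ∂(ρ : Measure (EE ι))) atTop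
    (𝓝 (∫ v : EE ι, mm a b v.ofLp ∂(ρ : Measure (EE ι)))) := by
  have co : Continuous (fun v : EE ι => v.ofLp) := PiLp.continuous_ofLp 2 (fun _ : ι => ℂ)
  obtain ⟨c, hc⟩ : ∃ c : ℝ, c = ∑ j, (2 * (a j + b j) : ℝ) := ⟨_, rfl⟩
  refine tendsto_integral_of_dominated_convergence (fun v => Real.exp (c * ∑ j, ‖v.ofLp j‖)) ?_ (hρ _) ?_ ?_
  · intro N
    exact ((mm_cont a b).comp ((VV_cont (N + 1)).comp co)).aestronglyMeasurable
  · intro N
    refine Eventually.of_forall fun v => ?_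
    unfold mm VV
    rw [norm_prod]
    have h1 : ∀ j, ‖mo (a j) (b j) (VN (N + 1) (v.ofLp j))‖ ≤ Real.exp ((2 * (a j + b j) : ℝ) * ‖v.ofLp j‖) := by
      intro j
      rw [mo_norm]
      have h1 := VN_norm (Nat.le_add_left 1 N) (v.ofLp j)
      have h2 : ‖v.ofLp j‖ * Real.exp ‖v.ofLp j‖ ≤ Real.exp (2 * ‖v.ofLp j‖) := by
        have h3 := Real.add_one_le_exp ‖v.ofLp j‖
        calc ‖v.ofLp j‖ * Real.exp ‖v.ofLp j‖ ≤ Real.exp ‖v.ofLp j‖ * Real.exp ‖v.ofLp j‖ := mul_le_mul_of_nonneg_right (by linarith) (Real.exp_pos _).le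
          _ = Real.exp (2 * ‖v.ofLp j‖) := by rw [← Real.exp_add]; ring_nf
      calc ‖VN (N + 1) (v.ofLp j)‖ ^ (a j + b j) ≤ (Real.exp (2 * ‖v.ofLp j‖)) ^ (a j + b j) := pow_le_pow_left₀ (norm_nonneg _) (h1.trans h2) _
        _ = Real.exp ((2 * (a j + b j) : ℝ) * ‖v.ofLp j‖) := by
            rw [← Real.exp_nat_mul]
            congr 1
            push_cast
            ring
    refine (Finset.prod_le_prod (fun _ _ => norm_nonneg _) fun j _ => h1 j).trans ?_
    rw [← Real.exp_sum]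
    refine Real.exp_le_exp.mpr ?_
    rw [hc, Finset.sum_mul]
    refine Finset.sum_le_sum fun j _ => ?_
    refine mul_le_mul_of_nonneg_left ?_ (by positivity)
    exact Finset.single_le_sum (f := fun j => ‖v.ofLp j‖) (fun _ _ => norm_nonneg _) (Finset.mem_univ j)
  · refine Eventually.of_forall fun v => ((mm_cont a b).tendsto v.ofLp).comp ?_
    rw [tendsto_pi_nhds]
    exact fun j => VN_lim (v.ofLp j)

end

omit [DecidableEq ι] in
/-- the powers `(1 + v / N) ^ N` -/
lemma pow_unifv {R : ℝ} (hR : 0 < R) {G : (ι → ℂ) → ℝ} (hG : Continuous G) {ε : ℝ} (hε : 0 < ε) :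
    ∀ᶠ N : ℕ in atTop, ∀ v : ι → ℂ, (∀ j, ‖v j‖ ≤ R) → |G (fun j => (1 + v j / ((N + 1 : ℕ) : ℂ)) ^ (N + 1)) - G (fun j => Complex.exp (v j))| ≤ ε := by
  have hu := (isCompact_closedBall (0 : ι → ℂ) (Real.exp R + 1)).uniformContinuousOn_of_continuous hG.continuousOn
  rw [Metric.uniformContinuousOn_iff] at hu
  obtain ⟨η, hη, hu⟩ := hu ε hε
  obtain ⟨θ, hθ⟩ : ∃ θ : ℝ, θ = min (η / 4) (1 / 4) := ⟨_, rfl⟩
  have hθ0 : 0 < θ := by rw [hθ]; positivity
  have hθ1 : θ ≤ η / 4 := by rw [hθ]; exact min_le_left _ _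
  have hθ2 : θ ≤ 1 / 4 := by rw [hθ]; exact min_le_right _ _
  filter_upwards [pow_unif hR Complex.continuous_re hθ0, pow_unif hR Complex.continuous_im hθ0] with N h1 h2 v hv
  have hd : ∀ j, ‖(1 + v j / ((N + 1 : ℕ) : ℂ)) ^ (N + 1) - Complex.exp (v j)‖ ≤ 2 * θ := by
    intro j
    refine (Complex.norm_le_abs_re_add_abs_im _).trans ?_
    rw [Complex.sub_re, Complex.sub_im]
    have := h1 (v j) (hv j)
    have := h2 (v j) (hv j)
    linarith
  have he : ∀ j, ‖Complex.exp (v j)‖ ≤ Real.exp R := by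
    intro j
    rw [Complex.norm_exp]
    exact Real.exp_le_exp.mpr ((Complex.re_le_norm _).trans (hv j))
  have hb1 : (fun j => Complex.exp (v j)) ∈ Metric.closedBall (0 : ι → ℂ) (Real.exp R + 1) := by
    rw [mem_closedBall_zero_iff, pi_norm_le_iff_of_nonneg (by positivity)]
    exact fun j => (he j).trans (by linarith)
  have hb2 : (fun j => (1 + v j / ((N + 1 : ℕ) : ℂ)) ^ (N + 1)) ∈ Metric.closedBall (0 : ι → ℂ) (Real.exp R + 1) := by
    rw [mem_closedBall_zero_iff, pi_norm_le_iff_of_nonneg (by positivity)]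
    intro j
    have h3 := norm_add_le ((1 + v j / ((N + 1 : ℕ) : ℂ)) ^ (N + 1) - Complex.exp (v j)) (Complex.exp (v j))
    rw [sub_add_cancel] at h3
    have := hd j
    have := he j
    linarith
  have h7 := hu _ hb2 _ hb1 (by
    rw [dist_eq_norm]
    refine lt_of_le_of_lt ((pi_norm_le_iff_of_nonneg (by positivity : (0:ℝ) ≤ 2 * θ)).mpr fun j => ?_) (by linarith)
    exact hd j)
  rw [Real.dist_eq] at h7
  exact h7.le

/-- the cutoff -/
noncomputable def chv (K : ℝ) (v : EE ι) : ℝ := min 1 (max 0 (K + 1 - ‖v‖))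

omit [DecidableEq ι] in
lemma chv_cont (K : ℝ) : Continuous (chv K : EE ι → ℝ) := by
  unfold chv
  fun_prop

omit [DecidableEq ι] in
lemma chv_nn (K : ℝ) (v : EE ι) : 0 ≤ chv K v := le_min zero_le_one (le_max_left _ _)

omit [DecidableEq ι] in
lemma chv_le (K : ℝ) (v : EE ι) : chv K v ≤ 1 := min_le_left _ _

omit [DecidableEq ι] in
lemma chv_zero {K : ℝ} {v : EE ι} (h : K + 1 ≤ ‖v‖) : chv K v = 0 := by
  unfold chv
  rw [max_eq_left (by linarith), min_eq_right (by norm_num)]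

omit [DecidableEq ι] in
lemma chv_lim (v : EE ι) : Tendsto (fun K : ℕ => chv K v) atTop (𝓝 1) := by
  obtain ⟨K0, hK0⟩ := exists_nat_ge ‖v‖
  refine tendsto_const_nhds.congr' ?_
  filter_upwards [eventually_ge_atTop K0] with K hK
  have : (K0 : ℝ) ≤ K := by exact_mod_cast hK
  unfold chv
  rw [max_eq_right (by linarith), min_eq_left (by linarith)]

omit [DecidableEq ι] in
/-- the mapping theorem -/
theorem map_limv {μ : ℕ → ProbabilityMeasure (EE ι)} {ρ : ProbabilityMeasure (EE ι)} (h : Tendsto μ atTop (𝓝 ρ))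
    (G : BoundedContinuousFunction (ι → ℂ) ℝ) :
    Tendsto (fun N : ℕ => ∫ v : EE ι, G (fun j => (1 + v.ofLp j / ((N + 1 : ℕ) : ℂ)) ^ (N + 1)) ∂(μ N : Measure (EE ι))) atTop
      (𝓝 (∫ v : EE ι, G (fun j => Complex.exp (v.ofLp j)) ∂(ρ : Measure (EE ι)))) := by
  have co : Continuous (fun v : EE ι => v.ofLp) := PiLp.continuous_ofLp 2 (fun _ : ι => ℂ)
  have coj : ∀ j, Continuous (fun v : EE ι => v.ofLp j) := fun j => (continuous_apply j).comp co
  rw [ProbabilityMeasure.tendsto_iff_forall_integral_tendsto] at h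
  have cexp : Continuous (fun v : EE ι => fun j => Complex.exp (v.ofLp j)) :=
    continuous_pi fun j => Complex.continuous_exp.comp (coj j)
  -- the limit of the exponentials
  have hE : Tendsto (fun N : ℕ => ∫ v : EE ι, G (fun j => Complex.exp (v.ofLp j)) ∂(μ N : Measure (EE ι))) atTop
      (𝓝 (∫ v : EE ι, G (fun j => Complex.exp (v.ofLp j)) ∂(ρ : Measure (EE ι)))) :=
    h (G.compContinuous ⟨_, cexp⟩)
  -- the cutoffs
  have hchi : Tendsto (fun K : ℕ => ∫ v : EE ι, chv K v ∂(ρ : Measure (EE ι))) atTop (𝓝 1) := by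
    have e1 : (1:ℝ) = ∫ _v : EE ι, (1:ℝ) ∂(ρ : Measure (EE ι)) := by simp
    rw [e1]
    refine tendsto_integral_of_dominated_convergence (fun _ => 1) (fun K => (chv_cont K).aestronglyMeasurable) (integrable_const _)
      (fun K => Eventually.of_forall fun v => ?_) (Eventually.of_forall fun v => chv_lim v)
    rw [Real.norm_of_nonneg (chv_nn _ _)]
    exact chv_le _ _
  have hD : Tendsto (fun N : ℕ => (∫ v : EE ι, G (fun j => (1 + v.ofLp j / ((N + 1 : ℕ) : ℂ)) ^ (N + 1)) ∂(μ N : Measure (EE ι))) -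
      ∫ v : EE ι, G (fun j => Complex.exp (v.ofLp j)) ∂(μ N : Measure (EE ι))) atTop (𝓝 0) := by
    rw [Metric.tendsto_nhds]
    intro ε hε
    obtain ⟨B, hB0, hB⟩ : ∃ B : ℝ, 0 ≤ B ∧ ∀ z, |G z| ≤ B := ⟨‖G‖, norm_nonneg _, fun z => G.norm_coe_le_norm z⟩
    obtain ⟨K, hK⟩ := (hchi.eventually (lt_mem_nhds (show 1 - ε / (4 * (2 * B + 1)) < 1 by linarith [show 0 < ε / (4 * (2 * B + 1)) by positivity]))).exists
    have hK2 := (h (BoundedContinuousFunction.ofNormedAddCommGroup (chv K) (chv_cont K) 1 (fun v => by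
      rw [Real.norm_of_nonneg (chv_nn _ _)]; exact chv_le _ _))).eventually (lt_mem_nhds hK)
    have hu := pow_unifv (R := (K : ℝ) + 1) (by positivity) G.continuous (ε := ε / 4) (by positivity)
    filter_upwards [hK2, hu] with N g1 g2
    have g1' : 1 - ε / (4 * (2 * B + 1)) < ∫ v : EE ι, chv K v ∂(μ N : Measure (EE ι)) := g1
    rw [Real.dist_eq, sub_zero]
    have c1 : Continuous fun v : EE ι => G (fun j => (1 + v.ofLp j / ((N + 1 : ℕ) : ℂ)) ^ (N + 1)) :=
      G.continuous.comp (continuous_pi fun j => ((continuous_const.add ((coj j).div_const _)).pow _))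
    have c2 : Continuous fun v : EE ι => G (fun j => Complex.exp (v.ofLp j)) := G.continuous.comp cexp
    have i1 : Integrable (fun v : EE ι => G (fun j => (1 + v.ofLp j / ((N + 1 : ℕ) : ℂ)) ^ (N + 1))) (μ N : Measure (EE ι)) :=
      (integrable_const B).mono c1.aestronglyMeasurable (Eventually.of_forall fun v => by
        rw [Real.norm_of_nonneg hB0]; exact hB _)
    have i2 : Integrable (fun v : EE ι => G (fun j => Complex.exp (v.ofLp j))) (μ N : Measure (EE ι)) :=
      (integrable_const B).mono c2.aestronglyMeasurable (Eventually.of_forall fun v => by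
        rw [Real.norm_of_nonneg hB0]; exact hB _)
    have i3 : Integrable (chv K) (μ N : Measure (EE ι)) :=
      (integrable_const (1:ℝ)).mono (chv_cont K).aestronglyMeasurable (Eventually.of_forall fun v => by
        rw [Real.norm_of_nonneg (chv_nn _ _), norm_one]; exact chv_le _ _)
    have i4 : Integrable (fun v : EE ι => 2 * B * (1 - chv K v)) (μ N : Measure (EE ι)) :=
      ((integrable_const (1:ℝ)).sub i3).const_mul (2 * B)
    have i5 : Integrable (fun _ : EE ι => ε / 4) (μ N : Measure (EE ι)) := integrable_const _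
    rw [← integral_sub i1 i2]
    have g3 : |∫ v : EE ι, (G (fun j => (1 + v.ofLp j / ((N + 1 : ℕ) : ℂ)) ^ (N + 1)) - G (fun j => Complex.exp (v.ofLp j))) ∂(μ N : Measure (EE ι))| ≤
        ∫ v : EE ι, (ε / 4 + 2 * B * (1 - chv K v)) ∂(μ N : Measure (EE ι)) := by
      rw [← Real.norm_eq_abs]
      refine norm_integral_le_of_norm_le (i5.add i4) (Eventually.of_forall fun v => ?_)
      rw [Real.norm_eq_abs]
      show _ ≤ ε / 4 + 2 * B * (1 - chv K v)
      rcases le_or_gt ‖v‖ ((K : ℝ) + 1) with hv | hv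
      · have h1 := g2 v.ofLp (fun j => (PiLp.norm_apply_le v j).trans hv)
        have h2 : 0 ≤ 2 * B * (1 - chv K v) := mul_nonneg (by linarith) (by linarith [chv_le (K : ℝ) v])
        linarith
      · rw [chv_zero hv.le]
        have h1 := abs_sub (G (fun j => (1 + v.ofLp j / ((N + 1 : ℕ) : ℂ)) ^ (N + 1))) (G (fun j => Complex.exp (v.ofLp j)))
        have h2 := hB (fun j => (1 + v.ofLp j / ((N + 1 : ℕ) : ℂ)) ^ (N + 1))
        have h3 := hB (fun j => Complex.exp (v.ofLp j))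
        linarith
    have g4 : ∫ v : EE ι, (ε / 4 + 2 * B * (1 - chv K v)) ∂(μ N : Measure (EE ι)) = ε / 4 + 2 * B * (1 - ∫ v : EE ι, chv K v ∂(μ N : Measure (EE ι))) := by
      rw [integral_add i5 i4, integral_const_mul, integral_sub (integrable_const (1:ℝ)) i3]
      simp
    rw [g4] at g3
    have g5 : 2 * B * (1 - ∫ v : EE ι, chv K v ∂(μ N : Measure (EE ι))) ≤ 2 * B * (ε / (4 * (2 * B + 1))) :=
      mul_le_mul_of_nonneg_left (by linarith) (by linarith)
    have g6 : 2 * B * (ε / (4 * (2 * B + 1))) ≤ ε / 4 := by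
      rw [← mul_div_assoc, div_le_div_iff₀ (by positivity) (by norm_num)]
      nlinarith
    linarith
  have h9 := hD.add hE
  rw [zero_add] at h9
  exact h9.congr fun N => by ring

end Pool.Agent.X111.FL
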