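import Pool.Agent.X111.JD.Law

set_option autoImplicit false

/-! Convergence of the moments of random complex vectors implies weak convergence. -/

namespace Pool.Agent.X111.FL

open MeasureTheory ProbabilityTheory Filter Topology
open Pool.Agent.X111.JD (mo mo_cont mo_norm weak_of_moments even_mo)

variable {ι : Type} [Fintype ι]

/-- the space of complex vectors with its Euclidean norm -/
abbrev EE (ι : Type) : Type := PiLp 2 (fun _ : ι => ℂ)

/-- the monomials -/
noncomputable def mm (a b : ι → ℕ) (v : ι → ℂ) : ℂ := ∏ j, mo (a j) (b j) (v j)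

lemma mm_cont (a b : ι → ℕ) : Continuous (mm a b) := by
  unfold mm
  exact continuous_finsetProd _ fun j _ => (mo_cont _ _).comp (continuous_apply j)

lemma mm_mul (a b a' b' : ι → ℕ) : mm a b * mm a' b' = mm (a + a') (b + b') := by
  funext v
  rw [Pi.mul_apply]
  unfold mm
  rw [← Finset.prod_mul_distrib]
  refine Finset.prod_congr rfl fun j _ => ?_
  unfold mo
  rw [Pi.add_apply, Pi.add_apply, pow_add, pow_add]
  ring

/-- the polynomials -/
noncomputable def Po (ι : Type) [Fintype ι] : Submodule ℂ ((ι → ℂ) → ℂ) :=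
  Submodule.span ℂ (Set.range fun ab : (ι → ℕ) × (ι → ℕ) => mm ab.1 ab.2)

lemma mm_Po (a b : ι → ℕ) : mm a b ∈ Po ι := Submodule.subset_span ⟨(a, b), rfl⟩

lemma Po_mul {f g : (ι → ℂ) → ℂ} (hf : f ∈ Po ι) (hg : g ∈ Po ι) : f * g ∈ Po ι := by
  have h1 : f * g ∈ Po ι * Po ι := Submodule.mul_mem_mul hf hg
  have h2 : Po ι * Po ι ≤ Po ι := by
    unfold Po
    rw [Submodule.span_mul_span]
    refine Submodule.span_mono ?_
    rintro _ ⟨_, ⟨x, rfl⟩, _, ⟨y, rfl⟩, rfl⟩
    exact ⟨(x.1 + y.1, x.2 + y.2), (mm_mul _ _ _ _).symm⟩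
  exact h2 h1

lemma Po_one : (1 : (ι → ℂ) → ℂ) ∈ Po ι := by
  have : (1 : (ι → ℂ) → ℂ) = mm 0 0 := by
    funext v
    unfold mm mo
    simp
  rw [this]
  exact mm_Po _ _

lemma Po_pow {f : (ι → ℂ) → ℂ} (hf : f ∈ Po ι) (n : ℕ) : f ^ n ∈ Po ι := by
  induction n with
  | zero => rw [pow_zero]; exact Po_one
  | succ n ih => rw [pow_succ]; exact Po_mul ih hf

open Classical in
lemma coord_Po (j : ι) : (fun v : ι → ℂ => v j) ∈ Po ι := by
  have : (fun v : ι → ℂ => v j) = mm (Pi.single j 1) 0 := by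
    funext v
    unfold mm mo
    rw [Finset.prod_eq_single j]
    · simp
    · intro i _ hi
      simp [hi]
    · simp
  rw [this]
  exact mm_Po _ _

open Classical in
lemma coord_Po' (j : ι) : (fun v : ι → ℂ => (starRingEnd ℂ) (v j)) ∈ Po ι := by
  have : (fun v : ι → ℂ => (starRingEnd ℂ) (v j)) = mm 0 (Pi.single j 1) := by
    funext v
    unfold mm mo
    rw [Finset.prod_eq_single j]
    · simp
    · intro i _ hi
      simp [hi]
    · simp
  rw [this]
  exact mm_Po _ _

/-- the linear forms -/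
noncomputable def lf (t : ι → ℂ) (v : ι → ℂ) : ℂ := ∑ j, (starRingEnd ℂ) (t j) * v j

lemma lf_cont (t : ι → ℂ) : Continuous (lf t) := by
  unfold lf
  fun_prop

lemma lf_Po (t : ι → ℂ) : lf t ∈ Po ι := by
  have : lf t = ∑ j, (starRingEnd ℂ) (t j) • fun v : ι → ℂ => v j := by
    funext v
    unfold lf
    simp
  rw [this]
  exact Submodule.sum_mem _ fun j _ => Submodule.smul_mem _ _ (coord_Po j)

lemma lf_Po' (t : ι → ℂ) : (fun v => (starRingEnd ℂ) (lf t v)) ∈ Po ι := by
  have : (fun v => (starRingEnd ℂ) (lf t v)) = ∑ j, t j • fun v : ι → ℂ => (starRingEnd ℂ) (v j) := by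
    funext v
    unfold lf
    simp
  rw [this]
  exact Submodule.sum_mem _ fun j _ => Submodule.smul_mem _ _ (coord_Po' j)

lemma mo_lf_Po (t : ι → ℂ) (i j : ℕ) : (fun v => mo i j (lf t v)) ∈ Po ι := by
  have : (fun v => mo i j (lf t v)) = lf t ^ i * (fun v => (starRingEnd ℂ) (lf t v)) ^ j := by
    funext v
    unfold mo
    simp
  rw [this]
  exact Po_mul (Po_pow (lf_Po t) i) (Po_pow (lf_Po' t) j)

lemma lf_norm (t v : ι → ℂ) : ‖lf t v‖ ≤ (∑ j, ‖t j‖) * ∑ j, ‖v j‖ := by
  unfold lf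
  refine (norm_sum_le _ _).trans ?_
  rw [Finset.sum_mul]
  refine Finset.sum_le_sum fun j _ => ?_
  rw [norm_mul, RCLike.norm_conj]
  refine mul_le_mul_of_nonneg_left ?_ (norm_nonneg _)
  exact Finset.single_le_sum (f := fun j => ‖v j‖) (fun _ _ => norm_nonneg _) (Finset.mem_univ j)

lemma mm_norm_le (a b : ι → ℕ) : ∃ C : ℝ, ∀ v : ι → ℂ, ‖mm a b v‖ ≤ C * Real.exp (∑ j, ‖v j‖) := by
  refine ⟨∏ j, ((a j + b j).factorial : ℝ), fun v => ?_⟩
  unfold mm
  rw [norm_prod, Real.exp_sum, ← Finset.prod_mul_distrib]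
  refine Finset.prod_le_prod (fun _ _ => norm_nonneg _) fun j _ => ?_
  rw [mo_norm]
  have h2 := Real.pow_div_factorial_le_exp ‖v j‖ (norm_nonneg _) (a j + b j)
  rw [div_le_iff₀ (by positivity)] at h2
  linarith

/-- the theorem on moments, for vectors -/
theorem weak_vec {μ : ℕ → ProbabilityMeasure (EE ι)} {ν : ProbabilityMeasure (EE ι)}
    (hint : ∀ a b : ι → ℕ, ∀ᶠ n in atTop, Integrable (fun v : EE ι => mm a b v.ofLp) (μ n : Measure (EE ι)))
    (hν : ∀ c : ℝ, Integrable (fun v : EE ι => Real.exp (c * ∑ j, ‖v j‖)) (ν : Measure (EE ι)))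
    (hm : ∀ a b : ι → ℕ, Tendsto (fun n => ∫ v : EE ι, mm a b v.ofLp ∂(μ n : Measure (EE ι))) atTop
      (𝓝 (∫ v : EE ι, mm a b v.ofLp ∂(ν : Measure (EE ι))))) :
    Tendsto μ atTop (𝓝 ν) := by
  have co : Continuous (fun v : EE ι => v.ofLp) := PiLp.continuous_ofLp 2 (fun _ : ι => ℂ)
  -- the good polynomials
  obtain ⟨U, hU⟩ : ∃ U : Submodule ℂ ((ι → ℂ) → ℂ), ∀ g, g ∈ U ↔ ((∀ᶠ n in atTop, Integrable (fun v : EE ι => g v.ofLp) (μ n : Measure (EE ι))) ∧
      Integrable (fun v : EE ι => g v.ofLp) (ν : Measure (EE ι)) ∧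
      Tendsto (fun n => ∫ v : EE ι, g v.ofLp ∂(μ n : Measure (EE ι))) atTop (𝓝 (∫ v : EE ι, g v.ofLp ∂(ν : Measure (EE ι))))) := by
    let Q : ((ι → ℂ) → ℂ) → Prop := fun g => ((∀ᶠ n in atTop, Integrable (fun v : EE ι => g v.ofLp) (μ n : Measure (EE ι))) ∧
      Integrable (fun v : EE ι => g v.ofLp) (ν : Measure (EE ι)) ∧
      Tendsto (fun n => ∫ v : EE ι, g v.ofLp ∂(μ n : Measure (EE ι))) atTop (𝓝 (∫ v : EE ι, g v.ofLp ∂(ν : Measure (EE ι)))))
    refine ⟨{ carrier := {g | Q g}, add_mem' := ?_, zero_mem' := ?_, smul_mem' := ?_ }, fun g => Iff.rfl⟩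
    · rintro f g ⟨f1, f2, f3⟩ ⟨g1, g2, g3⟩
      refine ⟨?_, f2.add g2, ?_⟩
      · filter_upwards [f1, g1] with n h1 h2
        exact h1.add h2
      · have e1 : ∫ v : EE ι, (f + g) v.ofLp ∂(ν : Measure (EE ι)) = ∫ v : EE ι, f v.ofLp ∂(ν : Measure (EE ι)) + ∫ v : EE ι, g v.ofLp ∂(ν : Measure (EE ι)) :=
          integral_add f2 g2
        rw [e1]
        refine (f3.add g3).congr' ?_
        filter_upwards [f1, g1] with n h1 h2
        exact (integral_add h1 h2).symm
    · refine ⟨Eventually.of_forall fun n => ?_, ?_, ?_⟩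
      · exact integrable_zero _ _ _
      · exact integrable_zero _ _ _
      · simp
    · rintro c g ⟨g1, g2, g3⟩
      refine ⟨?_, g2.smul c, ?_⟩
      · filter_upwards [g1] with n h1
        exact h1.smul c
      · have e1 : ∫ v : EE ι, (c • g) v.ofLp ∂(ν : Measure (EE ι)) = c • ∫ v : EE ι, g v.ofLp ∂(ν : Measure (EE ι)) :=
          integral_smul c (fun v : EE ι => g v.ofLp)
        rw [e1]
        refine (g3.const_smul c).congr fun n => ?_
        exact (integral_smul c (fun v : EE ι => g v.ofLp)).symm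
  have hPo : Po ι ≤ U := by
    unfold Po
    rw [Submodule.span_le]
    rintro _ ⟨ab, rfl⟩
    show mm ab.1 ab.2 ∈ U
    rw [hU]
    refine ⟨hint _ _, ?_, hm _ _⟩
    obtain ⟨C, hC⟩ := mm_norm_le ab.1 ab.2
    refine ((hν 1).const_mul C).mono ((mm_cont _ _).comp co).aestronglyMeasurable (Eventually.of_forall fun v => ?_)
    refine (hC v.ofLp).trans ?_
    rw [one_mul]
    exact le_abs_self _
  -- the characteristic functions
  rw [ProbabilityMeasure.tendsto_iff_tendsto_charFun]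
  intro t
  have cL : Continuous (fun v : EE ι => lf t.ofLp v.ofLp) := (lf_cont _).comp co
  have hmap : ∀ κ : ProbabilityMeasure (EE ι), IsProbabilityMeasure (Measure.map (fun v : EE ι => lf t.ofLp v.ofLp) (κ : Measure (EE ι))) :=
    fun κ => Measure.isProbabilityMeasure_map cL.aemeasurable
  have hchar : ∀ κ : ProbabilityMeasure (EE ι), charFun (κ : Measure (EE ι)) t =
      charFun (Measure.map (fun v : EE ι => lf t.ofLp v.ofLp) (κ : Measure (EE ι))) (1:ℂ) := by
    intro κ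
    rw [charFun_apply, charFun_apply, integral_map cL.aemeasurable]
    · congr 1
      funext v
      congr 3
      rw [PiLp.inner_apply]
      unfold lf
      rw [Complex.inner, map_sum, one_mul]
      rw [Complex.re_sum]
      refine Finset.sum_congr rfl fun j _ => ?_
      rw [Complex.inner, map_mul, Complex.conj_conj, mul_comm]
    · exact (Complex.continuous_exp.comp ((Complex.continuous_ofReal.comp (continuous_id.inner continuous_const)).mul continuous_const)).aestronglyMeasurable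
  obtain ⟨pm, hpm⟩ : ∃ pm : ProbabilityMeasure (EE ι) → ProbabilityMeasure ℂ, ∀ κ, (pm κ : Measure ℂ) =
      Measure.map (fun v : EE ι => lf t.ofLp v.ofLp) (κ : Measure (EE ι)) := ⟨fun κ => ⟨_, hmap κ⟩, fun κ => rfl⟩
  have hw : Tendsto (fun n => pm (μ n)) atTop (𝓝 (pm ν)) := by
    refine weak_of_moments ?_ ?_ ?_
    · intro i
      have h1 := ((hU _).mp (hPo (mo_lf_Po t.ofLp i i))).1
      filter_upwards [h1] with n hn
      rw [hpm]
      rw [integrable_map_measure (Continuous.aestronglyMeasurable (by fun_prop)) cL.aemeasurable]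
      refine ((integrable_const (1:ℝ)).add hn.norm).mono ((continuous_norm.pow i).comp cL).aestronglyMeasurable (Eventually.of_forall fun v => ?_)
      simp only [Function.comp_apply, Pi.add_apply]
      rw [norm_pow, norm_norm, mo_norm, Real.norm_of_nonneg (by positivity)]
      have h2 : ‖lf t.ofLp v.ofLp‖ ^ (i + i) = (‖lf t.ofLp v.ofLp‖ ^ i) ^ 2 := by ring
      rw [h2]
      nlinarith [sq_nonneg (‖lf t.ofLp v.ofLp‖ ^ i - 1 / 2)]
    · intro c
      rw [hpm]
      rw [integrable_map_measure (Continuous.aestronglyMeasurable (by fun_prop)) cL.aemeasurable]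
      refine (hν (|c| * ∑ j, ‖t j‖)).mono ((Continuous.comp (g := fun z : ℂ => Real.exp (c * ‖z‖)) (by fun_prop) cL).aestronglyMeasurable)
        (Eventually.of_forall fun v => ?_)
      simp only [Function.comp_apply]
      rw [Real.norm_of_nonneg (Real.exp_pos _).le, Real.norm_of_nonneg (Real.exp_pos _).le]
      refine Real.exp_le_exp.mpr ?_
      calc c * ‖lf t.ofLp v.ofLp‖ ≤ |c| * ‖lf t.ofLp v.ofLp‖ := mul_le_mul_of_nonneg_right (le_abs_self c) (norm_nonneg _)
        _ ≤ |c| * ((∑ j, ‖t j‖) * ∑ j, ‖v j‖) := mul_le_mul_of_nonneg_left (lf_norm _ _) (abs_nonneg _)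
        _ = |c| * (∑ j, ‖t j‖) * ∑ j, ‖v j‖ := by ring
    · intro i j
      have h1 := ((hU _).mp (hPo (mo_lf_Po t.ofLp i j))).2.2
      have e1 : ∀ κ : ProbabilityMeasure (EE ι), ∫ z, mo i j z ∂(pm κ : Measure ℂ) =
          ∫ v : EE ι, mo i j (lf t.ofLp v.ofLp) ∂(κ : Measure (EE ι)) := by
        intro κ
        rw [hpm, integral_map cL.aemeasurable (mo_cont _ _).aestronglyMeasurable]
      rw [e1]
      simp_rw [e1]
      exact h1
  rw [ProbabilityMeasure.tendsto_iff_tendsto_charFun] at hw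
  have h2 := hw 1
  rw [hchar ν, ← hpm]
  simp_rw [hchar, ← hpm]
  exact h2

end Pool.Agent.X111.FL
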