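import Pool.Agent.X111.FL.Field2
import Pool.Agent.X111.FL.VFin

set_option autoImplicit false
set_option linter.unusedSectionVars false

/-! The limit field on the line: its law and its mixed exponential moments. -/

namespace Pool.Agent.X111.FL

open MeasureTheory ProbabilityTheory Filter Topology
open Pool.Agent.X111.JD (ga ga_exp nn nn_cont nn_le nn_int)

/-- the logarithm `log (1 + i a / 2)` -/
noncomputable def Lg (a : ℝ) : ℂ := Complex.log (1 + Complex.I * a / 2)

/-- the point of the disc -/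
noncomputable def Wm (a : ℝ) : ℂ := Complex.I * a / (Complex.I * a + 2)

lemma Wm_norm (a : ℝ) : ‖Wm a‖ < 1 := by
  unfold Wm
  have h1 : Complex.I * a + 2 ≠ 0 := by
    intro h
    have := congrArg Complex.re h
    simp at this
  rw [norm_div, div_lt_one (norm_pos_iff.mpr h1)]
  rw [← sq_lt_sq₀ (norm_nonneg _) (norm_nonneg _), ← Complex.normSq_eq_norm_sq, ← Complex.normSq_eq_norm_sq, Complex.normSq_apply,
    Complex.normSq_apply]
  simp

lemma one_add_ne (a : ℝ) : (1 + Complex.I * a / 2 : ℂ) ≠ 0 := by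
  intro h
  have := congrArg Complex.re h
  simp at this

lemma arg_lt {z : ℂ} (hz : 0 < z.re) : |z.arg| < Real.pi / 2 := Complex.abs_arg_lt_pi_div_two_iff.mpr (Or.inl hz)

lemma Lg_im (a : ℝ) : |(Lg a).im| < Real.pi / 2 := by
  unfold Lg
  rw [Complex.log_im]
  refine arg_lt ?_
  simp

lemma exp_Lg (a : ℝ) : Complex.exp (Lg a) = 1 + Complex.I * a / 2 := by
  unfold Lg
  exact Complex.exp_log (one_add_ne a)

lemma W_form (a b : ℝ) : 1 - Wm a * (starRingEnd ℂ) (Wm b) =
    (1 + Complex.I * ((a - b : ℝ) : ℂ) / 2) / ((1 + Complex.I * a / 2) * (1 + Complex.I * ((-b : ℝ) : ℂ) / 2)) := by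
  obtain ⟨u, hu⟩ : ∃ u : ℂ, u = 1 + Complex.I * a / 2 := ⟨_, rfl⟩
  obtain ⟨v, hv⟩ : ∃ v : ℂ, v = 1 + Complex.I * ((-b : ℝ) : ℂ) / 2 := ⟨_, rfl⟩
  have hu0 : u ≠ 0 := by rw [hu]; exact one_add_ne a
  have hv0 : v ≠ 0 := by rw [hv]; exact one_add_ne (-b)
  have h1 : Wm a = (u - 1) / u := by
    unfold Wm
    have e1 : Complex.I * a = 2 * (u - 1) := by rw [hu]; ring
    rw [e1]
    have e2 : 2 * (u - 1) + 2 = 2 * u := by ring
    rw [e2, mul_div_mul_left _ _ two_ne_zero]
  have h2 : (starRingEnd ℂ) (Wm b) = (v - 1) / v := by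
    unfold Wm
    rw [map_div₀]
    simp only [map_add, map_mul, Complex.conj_I, Complex.conj_ofReal, map_ofNat]
    have e1 : -Complex.I * b = 2 * (v - 1) := by rw [hv]; push_cast; ring
    rw [e1]
    have e2 : 2 * (v - 1) + 2 = 2 * v := by ring
    rw [e2, mul_div_mul_left _ _ two_ne_zero]
  have h3 : (1 + Complex.I * ((a - b : ℝ) : ℂ) / 2) = u + v - 1 := by rw [hu, hv]; push_cast; ring
  rw [h1, h2, h3, ← hu, ← hv]
  field_simp
  ring

/-- the covariance -/
lemma log_cov (a b : ℝ) : -Complex.log (1 - Wm a * (starRingEnd ℂ) (Wm b)) = Lg a + Lg (-b) - Lg (a - b) := by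
  obtain ⟨x, hx⟩ : ∃ x : ℂ, x = 1 - Wm a * (starRingEnd ℂ) (Wm b) := ⟨_, rfl⟩
  have hn : ‖Wm a * (starRingEnd ℂ) (Wm b)‖ < 1 := by
    rw [norm_mul, RCLike.norm_conj]
    have := Wm_norm a
    have := Wm_norm b
    have := norm_nonneg (Wm a)
    have := norm_nonneg (Wm b)
    nlinarith
  have hxre : 0 < x.re := by
    rw [hx, Complex.sub_re, Complex.one_re]
    have := Complex.re_le_norm (Wm a * (starRingEnd ℂ) (Wm b))
    linarith
  have hx0 : x ≠ 0 := by
    intro h
    rw [h] at hxre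
    simp at hxre
  have hlx : |(Complex.log x).im| < Real.pi / 2 := by
    rw [Complex.log_im]
    exact arg_lt hxre
  have he : Complex.exp (Complex.log x) = Complex.exp (Lg (a - b) - Lg a - Lg (-b)) := by
    rw [Complex.exp_log hx0, Complex.exp_sub, Complex.exp_sub, exp_Lg, exp_Lg, exp_Lg, hx, W_form, div_div]
  obtain ⟨m, hm⟩ := Complex.exp_eq_exp_iff_exists_int.mp he
  have h1 := Lg_im a
  have h2 := Lg_im (-b)
  have h3 := Lg_im (a - b)
  have h4 := congrArg Complex.im hm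
  simp only [Complex.add_im, Complex.sub_im, Complex.mul_im, Complex.intCast_re, Complex.intCast_im, Complex.mul_re, Complex.I_re, Complex.I_im,
    Complex.ofReal_re, Complex.ofReal_im, Complex.re_ofNat, Complex.im_ofNat] at h4
  rw [abs_lt] at h1 h2 h3 hlx
  have hpi := Real.pi_pos
  have hm0 : m = 0 := by
    have h5 : |(m : ℝ)| < 1 := by
      rw [abs_lt]
      constructor
      · by_contra hcon
        push Not at hcon
        nlinarith
      · by_contra hcon
        push Not at hcon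
        nlinarith
    have h6 : |m| < 1 := by exact_mod_cast h5
    exact Int.abs_lt_one_iff.mp h6
  rw [hm0, Int.cast_zero, zero_mul, add_zero] at hm
  rw [← hx, hm]
  ring

/-- the logarithm of the field on the line -/
noncomputable def lgv {n : ℕ} (k : ℝ) (h : Fin n → ℝ) (ω : ℕ → ℝ × ℝ) : Fin n → ℂ := fun j => -(k : ℂ) * Lg (h j) + gf ω (Wm (h j))

lemma lgv_meas {n : ℕ} (k : ℝ) (h : Fin n → ℝ) : AEMeasurable (fun ω => (WithLp.toLp 2 (lgv k h ω) : EE (Fin n))) PG := by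
  have ct : Continuous (fun v : Fin n → ℂ => (WithLp.toLp 2 v : EE (Fin n))) := PiLp.continuous_toLp 2 (fun _ : Fin n => ℂ)
  refine ct.measurable.comp_aemeasurable ?_
  rw [aemeasurable_pi_iff]
  intro j
  exact ((gf_meas _ (Wm_norm (h j))).aemeasurable).const_add _

/-- the law of the logarithm of the field at finitely many points -/
noncomputable def rl {n : ℕ} (k : ℝ) (h : Fin n → ℝ) : ProbabilityMeasure (EE (Fin n)) :=
  ⟨Measure.map (fun ω => (WithLp.toLp 2 (lgv k h ω) : EE (Fin n))) PG, Measure.isProbabilityMeasure_map (lgv_meas k h)⟩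

lemma rl_integral {n : ℕ} (k : ℝ) (h : Fin n → ℝ) {E : Type} [NormedAddCommGroup E] [NormedSpace ℝ E] {F : (Fin n → ℂ) → E} (hF : Continuous F) :
    ∫ v : EE (Fin n), F v.ofLp ∂(rl k h : Measure (EE (Fin n))) = ∫ ω, F (lgv k h ω) ∂PG := by
  have co : Continuous (fun v : EE (Fin n) => v.ofLp) := PiLp.continuous_ofLp 2 (fun _ : Fin n => ℂ)
  show ∫ v : EE (Fin n), F v.ofLp ∂(Measure.map (fun ω => (WithLp.toLp 2 (lgv k h ω) : EE (Fin n))) PG) = _
  exact integral_map (lgv_meas k h) (f := fun v : EE (Fin n) => F v.ofLp) (hF.comp co).aestronglyMeasurable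

lemma lgv_norm {n : ℕ} (k : ℝ) (h : Fin n → ℝ) : ∃ C r : ℝ, 0 ≤ r ∧ r < 1 ∧ 0 ≤ C ∧ ∀ ω, Gd ω → ∑ j, ‖lgv k h ω j‖ ≤ C + n * mj r ω := by
  obtain ⟨r, hr0, hr1, hr⟩ := ex_rad (fun j => Wm (h j)) fun j => Wm_norm _
  refine ⟨∑ j, ‖-(k : ℂ) * Lg (h j)‖, r, hr0, hr1, by positivity, fun ω hω => ?_⟩
  have h1 : ∀ j, ‖lgv k h ω j‖ ≤ ‖-(k : ℂ) * Lg (h j)‖ + mj r ω := by
    intro j
    unfold lgv
    exact (norm_add_le _ _).trans (add_le_add le_rfl (gf_norm hω hr0 hr1 (hr j)))
  refine (Finset.sum_le_sum fun j _ => h1 j).trans ?_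
  rw [Finset.sum_add_distrib]
  simp

lemma rl_int {n : ℕ} (k : ℝ) (h : Fin n → ℝ) (c : ℝ) :
    Integrable (fun v : EE (Fin n) => Real.exp (c * ∑ j, ‖v j‖)) (rl k h : Measure (EE (Fin n))) := by
  have co : Continuous (fun v : EE (Fin n) => v.ofLp) := PiLp.continuous_ofLp 2 (fun _ : Fin n => ℂ)
  have cE : Continuous (fun v : EE (Fin n) => Real.exp (c * ∑ j, ‖v j‖)) :=
    Real.continuous_exp.comp (continuous_const.mul (continuous_finsetSum _ fun j _ => ((continuous_apply j).comp co).norm))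
  show Integrable (fun v : EE (Fin n) => Real.exp (c * ∑ j, ‖v j‖)) (Measure.map (fun ω => (WithLp.toLp 2 (lgv k h ω) : EE (Fin n))) PG)
  refine (integrable_map_measure (f := fun ω => (WithLp.toLp 2 (lgv k h ω) : EE (Fin n))) (g := fun v : EE (Fin n) => Real.exp (c * ∑ j, ‖v j‖))
    cE.aestronglyMeasurable (lgv_meas k h)).mpr ?_
  obtain ⟨C, r, hr0, hr1, hC, hb⟩ := lgv_norm k h
  refine ((mj_exp hr0 hr1 (|c| * n)).const_mul (Real.exp (|c| * C))).mono (cE.measurable.comp_aemeasurable (lgv_meas k h)).aestronglyMeasurable ?_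
  filter_upwards [Gd_ae] with ω hω
  simp only [Function.comp_apply]
  rw [Real.norm_of_nonneg (Real.exp_pos _).le, Real.norm_of_nonneg (by positivity), ← Real.exp_add]
  refine Real.exp_le_exp.mpr ?_
  calc c * ∑ j, ‖lgv k h ω j‖ ≤ |c| * ∑ j, ‖lgv k h ω j‖ := mul_le_mul_of_nonneg_right (le_abs_self c) (by positivity)
    _ ≤ |c| * (C + n * mj r ω) := mul_le_mul_of_nonneg_left (hb ω hω) (abs_nonneg _)
    _ = |c| * C + |c| * n * mj r ω := by ring

/-- the mixed exponential moments of the limit field -/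
theorem rl_mixed {n : ℕ} (k : ℝ) (h : Fin n → ℝ) (N : ℕ) (p q : Fin n → ℕ) :
    ∫ v : EE (Fin n), ev N p q v.ofLp ∂(rl k h : Measure (EE (Fin n))) =
    Complex.exp (-(k * ∑ j, ((p j / N : ℝ) : ℂ) * Lg (h j)) - k * ∑ l, ((q l / N : ℝ) : ℂ) * Lg (-(h l)) +
      ∑ j, ∑ l, ((p j / N : ℝ) : ℂ) * ((q l / N : ℝ) : ℂ) * (Lg (h j) + Lg (-(h l)) - Lg (h j - h l))) := by
  rw [rl_integral k h (ev_cont N p q)]
  have hconj : ∀ a : ℝ, (starRingEnd ℂ) (Lg a) = Lg (-a) := by
    intro a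
    unfold Lg
    rw [← Complex.log_conj]
    · congr 1
      simp only [map_add, map_one, map_div₀, map_mul, Complex.conj_I, Complex.conj_ofReal, map_ofNat]
      push_cast
      ring
    · intro h1
      have h2 := arg_lt (z := 1 + Complex.I * a / 2) (by simp)
      rw [h1] at h2
      have := Real.pi_pos
      rw [abs_of_pos this] at h2
      linarith
  have e1 : ∀ ω, ev N p q (lgv k h ω) = Complex.exp (-(k * ∑ j, ((p j / N : ℝ) : ℂ) * Lg (h j)) - k * ∑ l, ((q l / N : ℝ) : ℂ) * Lg (-(h l))) *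
      (Complex.exp (∑ j, ((p j / N : ℝ) : ℂ) * gf ω (Wm (h j))) * (starRingEnd ℂ) (Complex.exp (∑ j, ((q j / N : ℝ) : ℂ) * gf ω (Wm (h j))))) := by
    intro ω
    rw [ev_eq, ← Complex.exp_conj, ← Complex.exp_conj, ← Complex.exp_add, ← Complex.exp_add, ← Complex.exp_add]
    congr 1
    unfold lgv
    simp only [map_sum, map_mul, map_add, map_neg, map_div₀, Complex.conj_natCast, Complex.conj_ofReal, hconj]
    push_cast
    simp only [mul_add, Finset.sum_add_distrib]
    have f1 : ∑ x, (p x : ℂ) / N * (-k * Lg (h x)) = -(k * ∑ j, (p j : ℂ) / N * Lg (h j)) := by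
      rw [Finset.mul_sum, ← Finset.sum_neg_distrib]
      exact Finset.sum_congr rfl fun j _ => by ring
    have f2 : ∑ x, (q x : ℂ) / N * (-k * Lg (-(h x))) = -(k * ∑ j, (q j : ℂ) / N * Lg (-(h j))) := by
      rw [Finset.mul_sum, ← Finset.sum_neg_distrib]
      exact Finset.sum_congr rfl fun j _ => by ring
    rw [f1, f2]
    ring
  simp_rw [e1]
  rw [integral_const_mul, gf_mixed (fun j => Wm (h j)) (fun j => Wm_norm _) (fun j => p j / N) (fun j => q j / N), ← Complex.exp_add]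
  congr 1
  congr 1
  refine Finset.sum_congr rfl fun j _ => Finset.sum_congr rfl fun l _ => ?_
  rw [log_cov]
  push_cast
  ring

end Pool.Agent.X111.FL
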