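import Pool.Agent.X111.FL.Zfield
import Pool.Agent.X111.JD.Tilt

set_option autoImplicit false
set_option linter.unusedSectionVars false

/-! The joint law of the ratios of values of zeta on a line near the critical line, under the moment measure. -/

namespace Pool.Agent.X111.FL

open MeasureTheory ProbabilityTheory Filter Topology
open Pool.Agent.Y755
open Pool.Agent.Y753.NL
open Pool.Agent.Y753.SHR
open Pool.Agent.H306R2 (aF aF_pos)
open Pool.Agent.X111.JD (zc zc_norm zc_cont PT PT_fin PT_integral PT_integrable)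

/-- the exponents and the points of a factor -/
noncomputable def kv (k : ℝ) {n : ℕ} (N : ℕ) (p : Fin n → ℕ) : Fin (n + 1) → ℝ :=
  Fin.cons ((k - ∑ j, (p j : ℝ) / N) - ∑ j, (if p j = 0 then (k - ∑ i, (p i : ℝ) / N) / (n + 1) else 0))
    (fun j => if p j = 0 then (k - ∑ i, (p i : ℝ) / N) / (n + 1) else (p j : ℝ) / N)
noncomputable def pv {n : ℕ} (h : Fin n → ℝ) (p : Fin n → ℕ) : Fin (n + 1) → ℝ := Fin.cons 0 (fun j => if p j = 0 then 0 else h j)

lemma kv_sum (k : ℝ) {n : ℕ} (h : Fin n → ℝ) (N : ℕ) (p : Fin n → ℕ) (f : ℝ → ℂ) :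
    ∑ i, (kv k N p i : ℂ) * f (pv h p i) = ((k - ∑ j, (p j : ℝ) / N : ℝ) : ℂ) * f 0 + ∑ j, ((p j / N : ℝ) : ℂ) * f (h j) := by
  unfold kv pv
  rw [Fin.sum_univ_succ]
  simp only [Fin.cons_zero, Fin.cons_succ]
  obtain ⟨e, he⟩ : ∃ e : ℝ, e = (k - ∑ i, (p i : ℝ) / N) / (n + 1) := ⟨_, rfl⟩
  rw [← he, Complex.ofReal_sub, sub_mul, sub_add, sub_eq_add_neg, neg_sub, Complex.ofReal_sum, Finset.sum_mul, ← Finset.sum_sub_distrib]
  congr 1
  refine Finset.sum_congr rfl fun j _ => ?_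
  split_ifs with h1
  · rw [h1]
    simp
  · simp

lemma kv_total (k : ℝ) {n : ℕ} (N : ℕ) (p : Fin n → ℕ) : ∑ i, kv k N p i = k := by
  have h1 := kv_sum k (fun _ : Fin n => 0) N p (fun _ => 1)
  simp only [mul_one] at h1
  have h2 : ((∑ i, kv k N p i : ℝ) : ℂ) = ((k : ℝ) : ℂ) := by
    push_cast at h1 ⊢
    rw [h1]
    ring
  exact_mod_cast h2

lemma kv_pos {k : ℝ} {n N : ℕ} (hN : 0 < N) {p : Fin n → ℕ} (hp : ((∑ j, p j : ℕ) : ℝ) < k * N) (i : Fin (n + 1)) : 0 < kv k N p i := by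
  have hN0 : (0:ℝ) < N := by exact_mod_cast hN
  have hk : 0 < k - ∑ j, (p j : ℝ) / N := by
    rw [← Finset.sum_div, sub_pos, div_lt_iff₀ hN0]
    push_cast at hp
    exact hp
  obtain ⟨e, he⟩ : ∃ e : ℝ, e = (k - ∑ i, (p i : ℝ) / N) / (n + 1) := ⟨_, rfl⟩
  have he0 : 0 < e := by rw [he]; positivity
  unfold kv
  rw [← he]
  refine Fin.cases ?_ (fun j => ?_) i
  · simp only [Fin.cons_zero]
    have h1 : ∑ j, (if p j = 0 then e else 0) ≤ n * e := by
      refine (Finset.sum_le_sum (g := fun _ => e) fun j _ => ?_).trans (le_of_eq ?_)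
      · split_ifs
        · exact le_rfl
        · exact he0.le
      · simp
    have h2 : k - ∑ j, (p j : ℝ) / N = (n + 1) * e := by
      rw [he]
      field_simp
    rw [h2]
    nlinarith
  · simp only [Fin.cons_succ]
    split_ifs with h1
    · exact he0
    · have : (0:ℝ) < p j := by exact_mod_cast Nat.pos_of_ne_zero h1
      positivity

lemma Lg_zero : Lg 0 = 0 := by
  unfold Lg
  simp

/-- the product over the pairs -/
lemma prod_kv (k : ℝ) {n : ℕ} (h : Fin n → ℝ) (N : ℕ) (p q : Fin n → ℕ) :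
    ∏ j, ∏ i, (1 + Complex.I * ((pv h p j - pv h q i : ℝ) : ℂ) / 2) ^ (-((kv k N p j * kv k N q i : ℝ) : ℂ)) =
    Complex.exp (-(k * ∑ j, ((p j / N : ℝ) : ℂ) * Lg (h j)) - k * ∑ l, ((q l / N : ℝ) : ℂ) * Lg (-(h l)) +
      ∑ j, ∑ l, ((p j / N : ℝ) : ℂ) * ((q l / N : ℝ) : ℂ) * (Lg (h j) + Lg (-(h l)) - Lg (h j - h l))) := by
  have e1 : ∀ j i, (1 + Complex.I * ((pv h p j - pv h q i : ℝ) : ℂ) / 2) ^ (-((kv k N p j * kv k N q i : ℝ) : ℂ)) =
      Complex.exp (-((kv k N p j : ℂ) * ((kv k N q i : ℂ) * Lg (pv h p j - pv h q i)))) := by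
    intro j i
    rw [Complex.cpow_def_of_ne_zero (one_add_ne _)]
    congr 1
    unfold Lg
    push_cast
    ring
  simp_rw [e1]
  simp_rw [← Complex.exp_sum]
  congr 1
  have e2 : ∀ j, ∑ i, -((kv k N p j : ℂ) * ((kv k N q i : ℂ) * Lg (pv h p j - pv h q i))) =
      -((kv k N p j : ℂ) * (((k - ∑ l, (q l : ℝ) / N : ℝ) : ℂ) * Lg (pv h p j - 0) + ∑ l, ((q l / N : ℝ) : ℂ) * Lg (pv h p j - h l))) := by
    intro j
    rw [Finset.sum_neg_distrib, ← Finset.mul_sum, kv_sum k h N q fun u => Lg (pv h p j - u)]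
  simp_rw [e2]
  rw [Finset.sum_neg_distrib, kv_sum k h N p fun u => ((k - ∑ l, (q l : ℝ) / N : ℝ) : ℂ) * Lg (u - 0) + ∑ l, ((q l / N : ℝ) : ℂ) * Lg (u - h l)]
  simp only [sub_zero, zero_sub, Lg_zero, mul_zero, zero_add]
  obtain ⟨U, hU⟩ : ∃ U : ℂ, U = ∑ j, ((p j / N : ℝ) : ℂ) * Lg (h j) := ⟨_, rfl⟩
  obtain ⟨V, hV⟩ : ∃ V : ℂ, V = ∑ l, ((q l / N : ℝ) : ℂ) * Lg (-(h l)) := ⟨_, rfl⟩
  obtain ⟨W, hW⟩ : ∃ W : ℂ, W = ∑ j, ∑ l, ((p j / N : ℝ) : ℂ) * (((q l / N : ℝ) : ℂ) * Lg (h j - h l)) := ⟨_, rfl⟩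
  obtain ⟨sx, hsx⟩ : ∃ sx : ℂ, sx = ∑ j, ((p j / N : ℝ) : ℂ) := ⟨_, rfl⟩
  obtain ⟨sy, hsy⟩ : ∃ sy : ℂ, sy = ∑ j, ((q j / N : ℝ) : ℂ) := ⟨_, rfl⟩
  have f1 : ((k - ∑ j, (p j : ℝ) / N : ℝ) : ℂ) = k - sx := by rw [hsx]; push_cast; rfl
  have f2 : ((k - ∑ j, (q j : ℝ) / N : ℝ) : ℂ) = k - sy := by rw [hsy]; push_cast; rfl
  have f3 : ∑ j, ((p j / N : ℝ) : ℂ) * ((k - sy) * Lg (h j) + ∑ l, ((q l / N : ℝ) : ℂ) * Lg (h j - h l)) = (k - sy) * U + W := by
    rw [hU, hW, Finset.mul_sum, ← Finset.sum_add_distrib]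
    refine Finset.sum_congr rfl fun j _ => ?_
    rw [mul_add, Finset.mul_sum]
    ring
  have f4 : ∑ j, ∑ l, ((p j / N : ℝ) : ℂ) * ((q l / N : ℝ) : ℂ) * (Lg (h j) + Lg (-(h l)) - Lg (h j - h l)) = U * sy + sx * V - W := by
    rw [hU, hsy, hsx, hV, hW, Finset.sum_mul_sum, Finset.sum_mul_sum, ← Finset.sum_add_distrib, ← Finset.sum_sub_distrib]
    refine Finset.sum_congr rfl fun j _ => ?_
    rw [← Finset.sum_add_distrib, ← Finset.sum_sub_distrib]
    refine Finset.sum_congr rfl fun l _ => ?_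
    ring
  rw [f1, f2, f3, f4, ← hU, ← hV]
  ring

/-- the joint law, for paths in `(0, 1/2)` -/
theorem lawz_nice {k : ℝ} (hk : 0 < k) (hk2 : k ≤ 2) {δ : ℝ → ℝ} (hδ : Tendsto δ atTop (𝓝 0))
    (hδL : Tendsto (fun T => δ T * Real.log T) atTop atTop) (hn : ∀ T, 0 < δ T ∧ δ T < 1 / 2) {n : ℕ} (h : Fin n → ℝ)
    (G : BoundedContinuousFunction (Fin n → ℂ) ℝ) :
    Tendsto (fun T => (2 * δ T) ^ (k ^ 2) / T * ∫ t in Set.Icc 0 T, za (δ T) 0 t ^ (2 * k) * G (fun j => zc (δ T) (h j) t / zc (δ T) 0 t)) atTop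
      (𝓝 (aF k * ∫ ω, G (fun j => Complex.exp (lgv k h ω j)) ∂PG)) := by
  obtain ⟨R, hR⟩ : ∃ R : Set ℝ, R = {r | 0 < r} ∩ Set.range (fun x : (ℕ × (Fin n → ℕ)) × Fin (n + 1) => kv k x.1.1 x.1.2 x.2) := ⟨_, rfl⟩
  have hRc : R.Countable := by
    rw [hR]
    exact (Set.countable_range _).mono Set.inter_subset_right
  have hR0 : ∀ r ∈ R, 0 < r := fun r hr => by rw [hR] at hr; exact hr.1
  obtain ⟨S, hS⟩ : ∃ S : Set ℝ, S = insert 0 (Set.range h) := ⟨_, rfl⟩
  have hSc : S.Countable := by rw [hS]; exact (Set.countable_range h).insert _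
  obtain ⟨E, w, hE, -, hw, hm⟩ := mixed_small Pool.Agent.Y901.SHR.done Pool.Agent.Y753.SHR.star hδ hδL le_rfl (S := S) (R := R) hSc hRc hR0
  have hkR : ∀ (N : ℕ) (p : Fin n → ℕ), 0 < N → ((∑ j, p j : ℕ) : ℝ) < k * N → ∀ i, kv k N p i ∈ R := by
    intro N p hN hp i
    rw [hR]
    exact ⟨kv_pos hN hp i, ⟨((N, p), i), rfl⟩⟩
  have hptsS : ∀ p : Fin n → ℕ, ∀ i, pv h p i ∈ S := by
    intro p i
    rw [hS]
    unfold pv
    refine Fin.cases ?_ (fun j => ?_) i
    · simp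
    · simp only [Fin.cons_succ]
      split_ifs
      · exact Set.mem_insert _ _
      · exact Set.mem_insert_of_mem _ ⟨j, rfl⟩
  obtain ⟨X, hX⟩ : ∃ X : ℝ → ℝ → Fin n → ℂ, X = fun T t j => w T (t + h j * δ T) - w T (t + 0 * δ T) := ⟨_, rfl⟩
  have hXm : ∀ T, Measurable (X T) := by
    intro T
    rw [hX]
    have h1 := (hE T).2.2.1
    exact measurable_pi_lambda _ fun j => (h1.comp (measurable_id.add_const _)).sub (h1.comp (measurable_id.add_const _))
  -- the values of zeta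
  have hval : ∀ᶠ T in atTop, ∀ᵐ t : ℝ, Complex.exp (w T (t + 0 * δ T)) = zc (δ T) 0 t ∧ (∀ j, Complex.exp (w T (t + h j * δ T)) = zc (δ T) (h j) t) ∧
      zc (δ T) 0 t ≠ 0 := by
    filter_upwards [hw] with T hw
    have hall : ∀ᵐ t : ℝ, ∀ j, riemannZeta (1 / 2 + δ T + ((t + h j * δ T : ℝ) : ℂ) * Complex.I) ≠ 0 := by
      rw [ae_all_iff]
      exact fun j => zeros_ae (δ T) (h j * δ T)
    filter_upwards [zeros_ae (δ T) (0 * δ T), hall] with t z0 z1
    exact ⟨hw _ z0, fun j => hw _ (z1 j), z0⟩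
  have hre : ∀ T t u, Complex.exp (w T (t + u * δ T)) = zc (δ T) u t → Real.exp ((w T (t + u * δ T)).re) = za (δ T) u t := by
    intro T t u h
    rw [← zc_norm, ← h, Complex.norm_exp]
  have hlaw := lawv (P := fun T => PT k δ 0 T) (fun T => PT_fin hk (hn T).2 0) hXm hk (aF_pos hk) (ρ := rl k h) (rl_int k h) ?_ ?_ G
  · have e0 := rl_integral k h (F := fun v : Fin n → ℂ => G (fun j => Complex.exp (v j)))
      (G.continuous.comp (continuous_pi fun j => Complex.continuous_exp.comp (continuous_apply j)))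
    rw [e0] at hlaw
    refine hlaw.congr' ?_
    filter_upwards [hval, eventually_gt_atTop 0] with T h1 hT
    rw [PT_integral hk (hn T).2 (hn T).1 hT, smul_eq_mul]
    congr 1
    refine integral_congr_ae (ae_restrict_of_ae ?_)
    filter_upwards [h1] with t ht
    show za (δ T) 0 t ^ (2 * k) * G (fun j => Complex.exp (X T t j)) = za (δ T) 0 t ^ (2 * k) * G (fun j => zc (δ T) (h j) t / zc (δ T) 0 t)
    rw [hX]
    simp only
    congr 2
    funext j
    rw [Complex.exp_sub, ht.1, ht.2.1 j]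
  · -- integrability
    intro N p hN hp
    have hN0 : (0:ℝ) < N := by exact_mod_cast hN
    filter_upwards [hval, eventually_gt_atTop 0] with T h1 hT
    refine PT_integrable hk (hn T).2 (hn T).1 hT 0 ?_
    have hpk : ∑ j, (p j : ℝ) / N < k := by
      rw [← Finset.sum_div, div_lt_iff₀ hN0]
      push_cast at hp
      exact hp
    have hc : Continuous fun t => za (δ T) 0 t ^ (2 * k - 2 * ∑ j, (p j : ℝ) / N) * ∏ j, za (δ T) (h j) t ^ (2 * ((p j : ℝ) / N)) :=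
      ((za_cont (hn T).2 0).rpow_const fun t => Or.inr (by linarith)).mul
        (continuous_finsetProd _ fun j _ => (za_cont (hn T).2 (h j)).rpow_const fun t => Or.inr (by positivity))
    refine (hc.continuousOn.integrableOn_compact isCompact_Icc).congr (ae_restrict_of_ae ?_)
    filter_upwards [h1] with t ht
    have f0 := hre T t 0 ht.1
    have f1 := fun j => hre T t (h j) (ht.2.1 j)
    rw [hX]
    simp only
    rw [Complex.norm_exp, ← f0]
    simp_rw [← f1]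
    rw [← Real.exp_mul, ← Real.exp_mul]
    simp_rw [← Real.exp_mul]
    rw [← Real.exp_sum, ← Real.exp_add, ← Real.exp_nat_mul, ← Real.exp_add]
    congr 1
    have e1 : (∑ j, (p j : ℂ) / N * (w T (t + h j * δ T) - w T (t + 0 * δ T))).re =
        ∑ j, (p j : ℝ) / N * ((w T (t + h j * δ T)).re - (w T (t + 0 * δ T)).re) := by
      rw [Complex.re_sum]
      refine Finset.sum_congr rfl fun j _ => ?_
      have : ((p j : ℂ) / N) = ((p j / N : ℝ) : ℂ) := by push_cast; rfl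
      rw [this, Complex.re_ofReal_mul, Complex.sub_re]
    rw [e1]
    have e2 : ∑ j, (w T (t + h j * δ T)).re * (2 * ((p j : ℝ) / N)) = 2 * ∑ j, (p j : ℝ) / N * (w T (t + h j * δ T)).re := by
      rw [Finset.mul_sum]
      exact Finset.sum_congr rfl fun j _ => by ring
    have e3 : ∑ j, (p j : ℝ) / N * ((w T (t + h j * δ T)).re - (w T (t + 0 * δ T)).re) =
        ∑ j, (p j : ℝ) / N * (w T (t + h j * δ T)).re - (∑ j, (p j : ℝ) / N) * (w T (t + 0 * δ T)).re := by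
      rw [Finset.sum_mul, ← Finset.sum_sub_distrib]
      exact Finset.sum_congr rfl fun j _ => by ring
    rw [e2, e3]
    push_cast
    ring
  · -- the mixed moments
    intro N p q hN hp hq
    have h1 := (hm (n + 1) (n + 1) (kv k N p) (pv h p) (kv k N q) (pv h q) k (by omega) (by omega) (kv_total k N p) (kv_total k N q)
      (hkR N p hN hp) (hptsS p) (hkR N q hN hq) (hptsS q)).2 hk2
    rw [prod_kv, ← rl_mixed] at h1
    refine h1.congr' ?_
    filter_upwards [hval, eventually_gt_atTop 0] with T h1 hT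
    rw [PT_integral hk (hn T).2 (hn T).1 hT, Complex.real_smul]
    congr 1
    refine integral_congr_ae (ae_restrict_of_ae ?_)
    filter_upwards [h1] with t ht
    have f0 := hre T t 0 ht.1
    show zr (w T) (δ T) (kv k N p) (pv h p) t * (starRingEnd ℂ) (zr (w T) (δ T) (kv k N q) (pv h q) t) =
      (za (δ T) 0 t ^ (2 * k)) • ev N p q (X T t)
    have ez : ∀ p : Fin n → ℕ, zr (w T) (δ T) (kv k N p) (pv h p) t =
        Complex.exp (k * w T (t + 0 * δ T) + ∑ j, (p j : ℂ) / N * (w T (t + h j * δ T) - w T (t + 0 * δ T))) := by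
      intro p
      unfold zr
      rw [← Complex.exp_sum, kv_sum k h N p fun u => w T (t + u * δ T)]
      congr 1
      have e5 : ∑ j, (p j : ℂ) / N * (w T (t + h j * δ T) - w T (t + 0 * δ T)) =
          ∑ j, (p j : ℂ) / N * w T (t + h j * δ T) - (∑ j, (p j : ℂ) / N) * w T (t + 0 * δ T) := by
        rw [Finset.sum_mul, ← Finset.sum_sub_distrib]
        exact Finset.sum_congr rfl fun j _ => by ring
      rw [e5]
      push_cast
      ring
    rw [ez, ez, ← f0, ← Real.exp_mul, Complex.real_smul, hX, ev_eq, ← Complex.exp_conj, ← Complex.exp_conj, ← Complex.exp_add, ← Complex.exp_add,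
      Complex.ofReal_exp, ← Complex.exp_add]
    congr 1
    have e2 : (((w T (t + 0 * δ T)).re : ℝ) : ℂ) = (w T (t + 0 * δ T) + (starRingEnd ℂ) (w T (t + 0 * δ T))) / 2 := by
      rw [Complex.add_conj]
      push_cast
      ring
    push_cast
    rw [e2]
    simp only [map_add, map_mul, Complex.conj_ofReal]
    ring

/-- the joint law -/
theorem lawz {k : ℝ} (hk : 0 < k) (hk2 : k ≤ 2) {δ : ℝ → ℝ} (hδ : Tendsto δ atTop (𝓝 0))
    (hδL : Tendsto (fun T => δ T * Real.log T) atTop atTop) {n : ℕ} (h : Fin n → ℝ)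
    (G : BoundedContinuousFunction (Fin n → ℂ) ℝ) :
    Tendsto (fun T => (2 * δ T) ^ (k ^ 2) / T * ∫ t in Set.Icc 0 T, za (δ T) 0 t ^ (2 * k) * G (fun j => zc (δ T) (h j) t / zc (δ T) 0 t)) atTop
      (𝓝 (aF k * ∫ ω, G (fun j => Complex.exp (lgv k h ω j)) ∂PG)) := by
  classical
  obtain ⟨δ', hδ'⟩ : ∃ δ' : ℝ → ℝ, δ' = fun T => if 0 < δ T ∧ δ T < 1 / 2 then δ T else 1 / 4 := ⟨_, rfl⟩
  have hn : ∀ T, 0 < δ' T ∧ δ' T < 1 / 2 := by
    intro T
    rw [hδ']
    dsimp only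
    split_ifs with h
    · exact h
    · norm_num
  have he : ∀ᶠ T in atTop, δ T = δ' T := by
    filter_upwards [pos_path hδL, hδ.eventually (gt_mem_nhds (show (0:ℝ) < 1 / 2 by norm_num))] with T h1 h2
    rw [hδ']
    dsimp only
    rw [if_pos ⟨h1, h2⟩]
  have h1 := lawz_nice hk hk2 (δ := δ') (hδ.congr' he) (hδL.congr' (he.mono fun T hT => by rw [hT])) hn h G
  refine h1.congr' ?_
  filter_upwards [he] with T hT
  rw [hT]

end Pool.Agent.X111.FL
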